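import Pool.Agent.Mg.Fa1dcd4.Gc4ba1c

set_option linter.all false

section



end

section

/-!
Lattices with `(2 + o(1)) |G|` elements: definitions and statements of the steps.
-/

set_option autoImplicit false

namespace Pool.Agent.MP_a1dcd4_co.SH

open Function Subgroup Pool.Agent.MP_a1dcd4_co.OR

/-- `G` is the automorphism group of a finite lattice with at most `x` elements -/
def Rep (G : Type) [Group G] (x : ℕ) : Prop :=
  ∃ (L : Type) (_ : Lattice L) (_ : Finite L), Nonempty ((L ≃o L) ≃* G) ∧ Nat.card L ≤ x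

section

variable {G : Type} [Group G]

theorem Rep.mono {x y : ℕ} (h : Rep G x) (hxy : x ≤ y) : Rep G y := by
  obtain ⟨L, i1, i2, h1, h2⟩ := h
  exact ⟨L, i1, i2, h1, h2.trans hxy⟩

/-- the subgroup `s⁻¹ W s` -/
def cj (W : Subgroup G) (s : G) : Subgroup G := W.comap (MulAut.conj s).toMonoidHom

theorem mem_cj {W : Subgroup G} {s x : G} : x ∈ cj W s ↔ s * x * s⁻¹ ∈ W := Iff.rfl

theorem index_cj (W : Subgroup G) (s : G) : (cj W s).index = W.index :=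
  Subgroup.index_comap_of_surjective W (MulAut.conj s).surjective

theorem card_cj [Finite G] (W : Subgroup G) (s : G) : Nat.card (cj W s) = Nat.card W := by
  have h1 := (cj W s).card_mul_index
  have h2 := W.card_mul_index
  rw [index_cj, ← h2] at h1
  exact Nat.eq_of_mul_eq_mul_right (Nat.pos_of_ne_zero W.index_ne_zero_of_finite) h1

theorem cj_eq_of_normal (W : Subgroup G) [h : W.Normal] (s : G) : cj W s = W := by
  ext x
  rw [mem_cj]
  refine ⟨fun hx => ?_, fun hx => h.conj_mem x hx s⟩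
  simpa [mul_assoc] using h.conj_mem _ hx s⁻¹

/-- `d` inverts `e` -/
def Ivt (d e : G) : Prop := d⁻¹ * e * d = e⁻¹

/-- the elements of `E` commute -/
def Cm (E : Subgroup G) : Prop := ∀ x ∈ E, ∀ y ∈ E, x * y = y * x

/-- `E` is commutative and `x ^ p = 1` on `E` -/
def Ea (p : ℕ) (E : Subgroup G) : Prop := Cm E ∧ ∀ x ∈ E, x ^ p = 1

/-- Sidon up to left multiplication by `K` -/
def SidonMod (K : Subgroup G) (S : Set G) : Prop :=
  ∀ s ∈ S, ∀ t ∈ S, ∀ s' ∈ S, ∀ t' ∈ S, s⁻¹ * t = s'⁻¹ * t' → s = t ∨ s * s'⁻¹ ∈ K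

/-- `φ (g s)` lies in `φ g * W * s` -/
def Gad (W : Subgroup G) (s : G) (φ : G → G) : Prop := ∀ g, ∃ w ∈ W, φ (g * s) = φ g * w * s

/-- distinct members meet trivially -/
def PW (KK : Finset (Subgroup G)) : Prop := ∀ K ∈ KK, ∀ K' ∈ KK, K ≠ K' → K ⊓ K' = ⊥

/-- the four subgroups attached to a triple `(s, U, V)` -/
def InFam (γ : G × Subgroup G × Subgroup G) (K : Subgroup G) : Prop :=
  K = γ.2.1 ∨ K = γ.2.2 ∨ K = cj γ.2.1 γ.1 ∨ K = cj γ.2.2 γ.1

/-- trivial intersection system -/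
def TI (Γ : Finset (G × Subgroup G × Subgroup G)) : Prop :=
  (∀ γ ∈ Γ, γ.2.1 ⊓ γ.2.2 = ⊥) ∧
    ∀ γ ∈ Γ, ∀ γ' ∈ Γ, ∀ K K', InFam γ K → InFam γ' K' → K = K' ∨ K ⊓ K' = ⊥

/-- cost of a system of triples -/
noncomputable def cost (Γ : Finset (G × Subgroup G × Subgroup G)) : ℕ :=
  ∑ γ ∈ Γ, (γ.2.1.index + γ.2.2.index)

/-- a small set generating `G` with `y`, no quotient being an involution inverting `y` -/
def Free (y : G) (M : ℕ) (T : Finset G) : Prop :=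
  T.card ≤ M ∧ (1 : G) ∈ T ∧ closure (insert y (T : Set G)) = ⊤ ∧
    (∀ t ∈ T, ∀ t' ∈ T, Ivt (t⁻¹ * t') y → (t⁻¹ * t') ^ 2 ≠ 1) ∧
    ((∃ c, c * y = y * c ∧ c ∉ zpowers y) →
      ∃ t ∈ T, ∃ t' ∈ T, t⁻¹ * t' * y = y * (t⁻¹ * t') ∧ t⁻¹ * t' ∉ zpowers y)

/-- generalized dihedral -/
def Exc1 (y : G) : Prop :=
  ∃ (A : Subgroup G) (j : G), y ∈ A ∧ j ^ 2 = 1 ∧ (∀ a ∈ A, Ivt j a) ∧
    closure (insert j (A : Set G)) = ⊤

/-- a generalized dihedral subgroup of index two -/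
def Exc2 (y : G) : Prop :=
  ∃ (A : Subgroup G) (j t : G), y ∈ A ∧ j ^ 2 = 1 ∧ (∀ a ∈ A, Ivt j a) ∧
    (∀ a ∈ A, t⁻¹ * a * t ∈ A) ∧ t * y = y * t ∧ t ^ 2 ∈ A ∧ (t * j) ^ 2 ∈ A ∧
    (t * j) ^ 2 ≠ 1 ∧ t ∉ A ∧ closure (insert j (insert t (A : Set G))) = ⊤

end

/-- represented with at most `(2 + 1 / N) |G|` elements -/
def Near (N : ℕ) (G : Type) [Group G] : Prop :=
  ∃ x, Rep G x ∧ N * x ≤ (2 * N + 1) * Nat.card G

def S_Abs : Prop :=
  ∀ (G Λ I J : Type) [Group G] [Finite G] [Finite Λ] [Fintype I] [Fintype J] [MulAction G Λ]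
    (inc : G → Λ → Prop) (ty : Λ → Option I) (tg : J → Λ → Prop) (ρ : J → Λ → Λ → Prop),
    (∀ g x l, inc x l → inc (g * x) (g • l)) →
    (∀ (g : G) l, ty (g • l) = ty l) →
    (∀ (g : G) j m, tg j m → tg j (g • m)) →
    (∀ (g : G) j l m, ρ j l m → ρ j (g • l) (g • m)) →
    (∀ j l m, ρ j l m → tg j m) →
    (∀ x y l m, inc x l → inc y l → inc x m → inc y m → x = y ∨ l = m) →
    (∀ i x l m, ty l = some i → ty m = some i → inc x l → inc x m → l = m) →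
    (∀ j l m, ρ j l m → l ≠ m) →
    (∀ j l l' m, ρ j l m → ρ j l' m → l = l' ∨ (ty l = none ∧ (∀ x, inc x l → ¬ inc x l') ∧
      ∀ j' m', ρ j' l m' → ρ j' l' m' → j' = j ∧ m' = m)) →
    (∀ l, ∃ x, inc x l ∧ (ty l = none → ∃ y, y ≠ x ∧ inc y l)) →
    (∀ (φ : G → G) (ψ : Λ → Λ), Injective φ → (∀ x l, inc x l → inc (φ x) (ψ l)) →
      (∀ l, ty (ψ l) = ty l) → (∀ j l m, ρ j l m → ρ j (ψ l) (ψ m)) → ∀ z, Fixes φ z) →
    Rep G (Nat.card G + Nat.card Λ + 4 * ∑ j, Nat.card {m // tg j m} +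
      (Fintype.card I + Fintype.card J + 2) ^ 2)

def S_UM : Prop :=
  ∀ (G : Type) [Group G] [Finite G] (KK : Finset (Subgroup G)) (Γ : Finset (Subgroup G × G))
    (K0 U : Subgroup G) (S : Set G) (mn du : Prop) (c1 c2 : ℕ),
    PW KK → (∀ γ ∈ Γ, γ.1 ∈ KK ∧ cj γ.1 γ.2 ∈ KK) →
    (mn → K0.index ≤ c1 ∧ (∀ k ∈ K0, ∀ s ∈ S, k * s ∈ S) ∧ SidonMod K0 S ∧
      (∃ s ∈ S, ∃ t ∈ S, s ≠ t) ∧ ∀ K ∈ KK, ∀ s ∈ S, ∀ t ∈ S, s⁻¹ * t ∈ K → s = t) →
    (du → U.index ≤ c2 ∧ U ∈ KK ∧ K0 ≤ U ∧ ∀ s ∈ S, ∀ t ∈ S, s * t⁻¹ ∈ U → s * t⁻¹ ∈ K0) →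
    (∀ φ : G → G, Injective φ → (∀ K ∈ KK, Pres (K : Set G) φ) → (∀ γ ∈ Γ, Gad γ.1 γ.2 φ) →
      (mn → ∀ g, ∃ g', (∀ s ∈ S, g'⁻¹ * φ (g * s) ∈ S) ∧ (du → g'⁻¹ * φ g ∈ U)) →
      ∀ z, Fixes φ z) →
    Rep G (Nat.card G + c1 + ∑ K ∈ KK, K.index + 4 * ∑ γ ∈ Γ, γ.1.index + 4 * c2 +
      (KK.card + Γ.card + 3) ^ 2)

/-- cosets and gadgets only -/
theorem S_UM.um0 (h : S_UM) {G : Type} [Group G] [Finite G] (KK : Finset (Subgroup G))
    (Γ : Finset (Subgroup G × G)) (h1 : PW KK) (h2 : ∀ γ ∈ Γ, γ.1 ∈ KK ∧ cj γ.1 γ.2 ∈ KK)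
    (h3 : ∀ φ : G → G, Injective φ → (∀ K ∈ KK, Pres (K : Set G) φ) →
      (∀ γ ∈ Γ, Gad γ.1 γ.2 φ) → ∀ z, Fixes φ z) :
    Rep G (Nat.card G + ∑ K ∈ KK, K.index + 4 * ∑ γ ∈ Γ, γ.1.index +
      (KK.card + Γ.card + 3) ^ 2) := by
  simpa using h G KK Γ ⊥ ⊥ ∅ False False 0 0 h1 h2 False.elim False.elim
    (fun φ a b c _ => h3 φ a b c)

/-- with the lines `g S` -/
theorem S_UM.um1 (h : S_UM) {G : Type} [Group G] [Finite G] (KK : Finset (Subgroup G))
    (Γ : Finset (Subgroup G × G)) (K0 : Subgroup G) (S : Set G) (h1 : PW KK)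
    (h2 : ∀ γ ∈ Γ, γ.1 ∈ KK ∧ cj γ.1 γ.2 ∈ KK) (k1 : ∀ k ∈ K0, ∀ s ∈ S, k * s ∈ S)
    (k2 : SidonMod K0 S) (k3 : ∃ s ∈ S, ∃ t ∈ S, s ≠ t)
    (k4 : ∀ K ∈ KK, ∀ s ∈ S, ∀ t ∈ S, s⁻¹ * t ∈ K → s = t)
    (h3 : ∀ φ : G → G, Injective φ → (∀ K ∈ KK, Pres (K : Set G) φ) →
      (∀ γ ∈ Γ, Gad γ.1 γ.2 φ) → (∀ g, ∃ g', ∀ s ∈ S, g'⁻¹ * φ (g * s) ∈ S) →
      ∀ z, Fixes φ z) :
    Rep G (Nat.card G + K0.index + ∑ K ∈ KK, K.index + 4 * ∑ γ ∈ Γ, γ.1.index +
      (KK.card + Γ.card + 3) ^ 2) := by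
  simpa using h G KK Γ K0 ⊥ S True False K0.index 0 h1 h2 (fun _ => ⟨le_rfl, k1, k2, k3, k4⟩)
    False.elim (fun φ a b c d => h3 φ a b c fun g => (d trivial g).imp fun _ e => e.1)

/-- with the lines `g S`, `S` Sidon, and the coset `g U` attached to the line `g S` -/
theorem S_UM.um2 (h : S_UM) {G : Type} [Group G] [Finite G] (KK : Finset (Subgroup G))
    (Γ : Finset (Subgroup G × G)) (U : Subgroup G) (S : Set G) (h1 : PW KK)
    (h2 : ∀ γ ∈ Γ, γ.1 ∈ KK ∧ cj γ.1 γ.2 ∈ KK) (k2 : Sidon S) (k3 : ∃ s ∈ S, ∃ t ∈ S, s ≠ t)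
    (k4 : ∀ K ∈ KK, ∀ s ∈ S, ∀ t ∈ S, s⁻¹ * t ∈ K → s = t) (k5 : U ∈ KK)
    (k6 : ∀ s ∈ S, ∀ t ∈ S, s * t⁻¹ ∈ U → s = t)
    (h3 : ∀ φ : G → G, Injective φ → (∀ K ∈ KK, Pres (K : Set G) φ) →
      (∀ γ ∈ Γ, Gad γ.1 γ.2 φ) →
      (∀ g, ∃ g', (∀ s ∈ S, g'⁻¹ * φ (g * s) ∈ S) ∧ g'⁻¹ * φ g ∈ U) → ∀ z, Fixes φ z) :
    Rep G (Nat.card G + Nat.card G + ∑ K ∈ KK, K.index + 4 * ∑ γ ∈ Γ, γ.1.index +
      4 * U.index + (KK.card + Γ.card + 3) ^ 2) := by
  refine h G KK Γ ⊥ U S True True (Nat.card G) U.index h1 h2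
    (fun _ => ⟨by simp, ?_, ?_, k3, k4⟩) (fun _ => ⟨le_rfl, k5, bot_le, ?_⟩)
    (fun φ a b c d => h3 φ a b c fun g => (d trivial g).imp fun _ e => ⟨e.1, e.2 trivial⟩)
  · intro k hk s hs
    rw [mem_bot.1 hk, one_mul]
    exact hs
  · intro s hs t ht s' hs' t' ht' e
    rcases k2 s hs t ht s' hs' t' ht' e with h | h
    · exact Or.inl (inv_mul_eq_one.1 h)
    · exact Or.inr (by simp [h])
  · intro s hs t ht e
    simp [k6 s hs t ht e]

theorem sidonMod_bot {G : Type} [Group G] {S : Set G} (h : Sidon S) : SidonMod ⊥ S := by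
  intro s hs t ht s' hs' t' ht' e
  rcases h s hs t ht s' hs' t' ht' e with h | h
  · exact Or.inl (inv_mul_eq_one.1 h)
  · exact Or.inr (by simp [h])

def S_CH : Prop :=
  ∀ (G : Type) [Group G] [Finite G] (Γ : Finset (G × Subgroup G × Subgroup G)),
    closure {s | ∃ γ ∈ Γ, γ.1 = s} = ⊤ → TI Γ → 12 * cost Γ ≤ Nat.card G → 48 ≤ Nat.card G →
    Rep G (2 * Nat.card G)

def S_TI1 : Prop :=
  ∀ (G : Type) [Group G] [Finite G] (p k β : ℕ) (E : Subgroup G) (s : G) (B : Finset G),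
    p.Prime → Ea p E → B.card ≤ β → 2 * p ^ (3 * k + 3) * (β + 1) ≤ Nat.card E →
    ∃ W : Subgroup G, W ≤ E ∧ Nat.card W = p ^ k ∧ (∀ x ∈ W, x ∈ B → x = 1) ∧
      (cj W s = W ∨ W ⊓ cj W s = ⊥)

def S_TIE : Prop :=
  ∀ (G : Type) [Group G] [Finite G] (p k : ℕ) (E : Subgroup G) (Z : Finset G),
    p.Prime → Ea p E → 18 * Z.card * p ^ (4 * k + 3) ≤ Nat.card E →
    ∃ Γ : Finset (G × Subgroup G × Subgroup G), (∀ s ∈ Z, ∃ γ ∈ Γ, γ.1 = s) ∧
      Γ.card ≤ Z.card ∧ TI Γ ∧ ∀ γ ∈ Γ, Nat.card γ.2.1 = p ^ k ∧ Nat.card γ.2.2 = p ^ k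

def S_BlkB : Prop :=
  ∀ (G : Type) [Group G] [Finite G] (B : Finset ℕ) (E : ℕ → Subgroup G) (Z : ℕ → Finset G)
    (r : ℕ → ℕ),
    (∀ p ∈ B, p.Prime ∧ Ea p (E p) ∧ Nat.card (E p) = p ^ r p ∧ 8 ≤ r p ∧
      48 * (Z p).card * p ^ 2 ≤ p ^ (r p / 8)) →
    ∃ Γ : Finset (G × Subgroup G × Subgroup G), (∀ p ∈ B, ∀ s ∈ Z p, ∃ γ ∈ Γ, γ.1 = s) ∧
      TI Γ ∧ 24 * cost Γ ≤ Nat.card G ∧
      ∀ γ ∈ Γ, ∃ p ∈ B, ∃ k, Nat.card γ.2.1 = p ^ k ∧ Nat.card γ.2.2 = p ^ k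

def S_Num : Prop :=
  ∀ R : ℕ, ∃ w : ℕ, ∀ A : Finset ℕ, (∀ p ∈ A, p.Prime) → w ≤ A.card →
    ∃ q ∈ A, ∃ q' ∈ A, q ≠ q' ∧ R * A.card ≤ q ∧ R * A.card ≤ q'

def S_Syl : Prop :=
  ∀ (G : Type) [Group G] [Finite G],
    ∃ (r : ℕ → ℕ) (E : ℕ → Subgroup G) (Y : ℕ → Finset G),
      closure {s | ∃ p ∈ (Nat.card G).primeFactors, s ∈ Y p} = ⊤ ∧
      ∀ p : ℕ, p.Prime → Ea p (E p) ∧ Nat.card (E p) = p ^ r p ∧ (Y p).card ≤ 4 * r p ^ 2 ∧
        ∀ E' : Subgroup G, Ea p E' → Nat.card E' ≤ p ^ r p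

def S_Cheap : Prop :=
  ∃ D T : ℕ, ∀ (G : Type) [Group G] [Finite G], 48 ≤ Nat.card G →
    Rep G (2 * Nat.card G) ∨ ∃ Z : Finset G, Z.card ≤ D ∧ closure (Z : Set G) = ⊤ ∧
      ∀ (p : ℕ) (E : Subgroup G), p.Prime → Ea p E → Nat.card E ≤ T ∨ Nat.card E ≤ p ^ 256

def S_Big : Prop :=
  ∀ T : ℕ, ∃ n₀ : ℕ, ∀ (G : Type) [Group G] [Finite G], n₀ ≤ Nat.card G →
    ∃ p : ℕ, p.Prime ∧ ((∃ (x : G) (k : ℕ), orderOf x = p ^ k ∧ T ≤ p ^ k) ∨
      ∃ E : Subgroup G, Ea p E ∧ T ≤ Nat.card E)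

def S_SL : Prop :=
  ∀ (G : Type) [Group G] [Finite G] (U : Subgroup G) (T : Finset G) (Bad : Set G) (γ : ℕ),
    Cm U → (∀ b ∈ Bad, b⁻¹ ∈ Bad) → 4 * T.card ^ 3 < γ → γ ≤ Nat.card U →
    (∀ t ∈ T, ∀ t' ∈ T, t ≠ t' → t⁻¹ * t' ∉ U ∧
      (((∀ e ∈ U, Ivt (t⁻¹ * t') e) ∧ (t⁻¹ * t') ^ 2 ≠ 1) ∨
        γ * {e | e ∈ U ∧ Ivt (t⁻¹ * t') e}.ncard ≤ Nat.card U) ∧
      ∀ y ∈ U, γ * {y' | y' ∈ U ∧ y⁻¹ * (t⁻¹ * t') * y' ∈ Bad}.ncard ≤ Nat.card U) →
    ∃ y : G → G, (∀ t, y t ∈ U) ∧ Sidon {s | ∃ t ∈ T, s = t * y t} ∧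
      ∀ t ∈ T, ∀ t' ∈ T, t ≠ t' → (t * y t)⁻¹ * (t' * y t') ∉ Bad

def S_Q34 : Prop :=
  ∀ (G : Type) [Group G] [Finite G] (C : Subgroup G) (j : G),
    4 * {c | c ∈ C ∧ ¬ Ivt j c}.ncard < Nat.card C → ∀ c ∈ C, Ivt j c

def S_Cover : Prop :=
  ∀ (G : Type) [Group G] [Finite G] (C : Subgroup G) (X : Set G) (Z : Finset G),
    (∀ x ∈ X, x ∈ C) → Nat.card C ≤ 4 * X.ncard →
    closure {p | ∃ a ∈ X, ∃ b ∈ X, p = a⁻¹ * b} = C → (∀ z ∈ Z, z ∈ C) →
    ∃ W : Finset G, (∀ w ∈ W, w ∈ X) ∧ W.card ≤ 2 * Z.card + 16 ∧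
      ∀ z ∈ Z, z ∈ closure {p | ∃ a ∈ W, ∃ b ∈ W, p = a⁻¹ * b}

def S_Prop : Prop :=
  ∀ (G : Type) [Group G] [Finite G] (y j : G) (C : Subgroup G), y ^ 2 ≠ 1 → j ^ 2 = 1 →
    Ivt j y → (∀ g, g ∈ C ↔ g * y = y * g) → (∀ g, g ∈ C ∨ Ivt g y) →
    (∃ c ∈ C, ¬ Ivt j c) → Nat.card C ≤ 4 * {c | c ∈ C ∧ ¬ Ivt j c}.ncard →
    closure {p | ∃ a, (a ∈ C ∧ ¬ Ivt j a) ∧ ∃ b, (b ∈ C ∧ ¬ Ivt j b) ∧ p = a⁻¹ * b} ≠ C →
    Exc2 y

def S_SelC : Prop :=
  ∀ (G : Type) [Group G] [Finite G] (y j : G) (Z : Finset G), y ^ 2 ≠ 1 →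
    closure (Z : Set G) = ⊤ → j ^ 2 = 1 → Ivt j y → (∀ g, g * y = y * g ∨ Ivt g y) →
    (∃ T, Free y (4 * Z.card + 24) T) ∨ Exc1 y ∨ Exc2 y

def S_Seed : Prop :=
  ∀ (G : Type) [Group G] [Finite G] (y j : G) (Z : Finset G), y ^ 2 ≠ 1 →
    closure (Z : Set G) = ⊤ → Ivt j y →
    (∃ T, Free y (Z.card + 6) T) ∨ (∀ g, g * y = y * g ∨ Ivt g y) ∨
      ((∀ b i, Ivt i y → Ivt (b⁻¹ * i * b) y) ∧
        (∀ b c, c * y = y * c → b⁻¹ * c * b * y = y * (b⁻¹ * c * b)) ∧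
        (∃ t, t * y ≠ y * t ∧ ¬ Ivt t y) ∧
        ∀ a b, a * y ≠ y * a → ¬ Ivt a y → b * y ≠ y * b → ¬ Ivt b y →
          Ivt (a⁻¹ * b) y ∨ a * b * y = y * (a * b))

def S_Sel : Prop :=
  ∀ (G : Type) [Group G] [Finite G] (p a : ℕ) (y : G) (Z : Finset G), p.Prime →
    orderOf y = p ^ a → y ^ 2 ≠ 1 → closure (Z : Set G) = ⊤ →
    (∃ T, Free y (4 * Z.card + 24) T) ∨ Exc1 y ∨
      ∃ y' : G, orderOf y' ∣ orderOf y ∧ orderOf y ≤ 2 * orderOf y' ∧ Exc2 y'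

def S_B : Prop :=
  ∀ (G : Type) [Group G] [Finite G] (p a : ℕ) (y : G) (A : Subgroup G), p.Prime →
    orderOf y = p ^ a → 1 ≤ a → y ∈ A → Cm A →
    ∃ (B : Subgroup G) (x : G), B ≤ A ∧ x ∈ A ∧ x ∉ B ∧ B ⊓ zpowers y = ⊥ ∧
      A ≤ closure (insert x (B : Set G))

def S_E1 : Prop :=
  ∀ (G : Type) [Group G] [Finite G] (p a : ℕ) (y : G) (Z : Finset G), p.Prime →
    orderOf y = p ^ a → 32 ≤ p ^ a → closure (Z : Set G) = ⊤ → Exc1 y →
    Rep G (2 * Nat.card G + (Z.card + 9) ^ 2 * (zpowers (y ^ 4)).index)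

def S_E2 : Prop :=
  ∀ (G : Type) [Group G] [Finite G] (p a : ℕ) (y : G) (Z : Finset G), p.Prime →
    orderOf y = p ^ a → 32 ≤ p ^ a → closure (Z : Set G) = ⊤ → Exc2 y →
    Rep G (2 * Nat.card G + (Z.card + 9) ^ 2 * (zpowers (y ^ 4)).index)

def S_D1 : Prop :=
  ∀ (G : Type) [Group G] [Finite G] (x : G) (U : Subgroup G) (T : Finset G) (γ : ℕ),
    U ≤ zpowers x → x ∉ U → x ^ 2 ∉ U → x ^ 3 ∉ U → (∀ w ∈ U, x ∈ zpowers (x * w)) →
    (1 : G) ∈ T → closure (insert x (T : Set G)) = ⊤ →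
    (∀ t ∈ T, ∀ t' ∈ T, (Ivt (t⁻¹ * t') x ∧ (t⁻¹ * t') ^ 2 ≠ 1) ∨
      γ * {e | e ∈ U ∧ Ivt (t⁻¹ * t') e}.ncard ≤ Nat.card U) →
    32 * T.card ^ 3 < γ → γ ≤ Nat.card U → Rep G (2 * Nat.card G + 30 * U.index)

def S_D2 : Prop :=
  ∀ (G : Type) [Group G] [Finite G] (p M : ℕ) (u : G) (T : Finset G), p.Prime →
    orderOf u = p → (∀ v : G, v ^ p = 1 → v ∈ zpowers u) → Free u M T →
    (∃ c, c * u = u * c ∧ c ∉ zpowers u) → 4 * M ^ 3 < p →
    Rep G (2 * Nat.card G + (M + 9) ^ 2 * (zpowers u).index)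

def S_Cyc : Prop :=
  ∀ (G : Type) [Group G] [Finite G] (x : G), zpowers x = ⊤ → 13 ≤ Nat.card G →
    Rep G (2 * Nat.card G + 9)

def S_Frob : Prop :=
  ∀ (G : Type) [Group G] [Finite G] (p : ℕ) (u : G), p.Prime → orderOf u = p →
    (zpowers u).Normal → (∀ c, c * u = u * c → c ∈ zpowers u) → zpowers u ≠ ⊤ →
    Rep G (2 * Nat.card G + 81 * (zpowers u).index)

def S_Win : Prop :=
  ∀ (G : Type) [Group G] [Finite G] (p k g : ℕ) (x : G) (F : Finset G), p.Prime →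
    orderOf x = p ^ k → (F.card + 1) * (g + 3) ≤ k →
    ∃ i, i + 3 ≤ (F.card + 1) * (g + 3) ∧ ∀ d ∈ F, Ivt d (x ^ p ^ i) ∨
      2 ^ g * {e | e ∈ zpowers (x ^ p ^ (i + 2)) ∧ Ivt d e}.ncard ≤
        Nat.card (zpowers (x ^ p ^ (i + 2)))

def S_BRp : Prop :=
  ∀ D N : ℕ, ∃ T : ℕ, ∀ (G : Type) [Group G] [Finite G] (p : ℕ) (u : G) (Z : Finset G),
    Z.card ≤ D → closure (Z : Set G) = ⊤ → p.Prime → orderOf u = p → T ≤ p → Near N G

def S_BR : Prop :=
  ∀ D N : ℕ, ∃ T : ℕ, ∀ (G : Type) [Group G] [Finite G] (p k : ℕ) (x : G) (Z : Finset G),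
    Z.card ≤ D → closure (Z : Set G) = ⊤ → p.Prime → orderOf x = p ^ k → T ≤ p ^ k → Near N G

def S_Top : Prop :=
  ∀ N : ℕ, ∃ n₀ : ℕ, ∀ (G : Type) [Group G] [Finite G], n₀ ≤ Nat.card G → Near N G

def S_Low : Prop :=
  ∀ (p : ℕ) (G : Type) [Group G] (x : ℕ), p.Prime → 3 ≤ p → Nat.card G = p → Rep G x →
    2 * p + 1 ≤ x

end Pool.Agent.MP_a1dcd4_co.SH

end

section

set_option autoImplicit false

namespace Pool.Agent.MP_a1dcd4_co.SH

open Function Subgroup Pool.Agent.MP_a1dcd4_co.OR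

theorem comm_B {H : Type} [CommGroup H] [Finite H] {p a : ℕ} {y : H} (hp : p.Prime)
    (ho : orderOf y = p ^ a) (ha : 1 ≤ a) : ∃ (B : Subgroup H) (x : H), x ∉ B ∧
      (∀ i : ℤ, y ^ i ∈ B → y ^ i = 1) ∧ ∀ g, ∃ n : ℤ, (x ^ n)⁻¹ * g ∈ B := by
  have hz : y ^ p ^ (a - 1) ≠ 1 := fun h => by
    have := orderOf_dvd_of_pow_eq_one h
    rw [ho, Nat.pow_dvd_pow_iff_le_right hp.one_lt] at this
    omega
  haveI : NeZero (Monoid.exponent H) := ⟨Monoid.exponent_ne_zero_of_finite⟩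
  obtain ⟨χ, hχ⟩ := CommGroup.exists_apply_ne_one_of_hasEnoughRootsOfUnity H ℂ hz
  haveI : Finite χ.range := Finite.of_surjective _ χ.rangeRestrict_surjective
  obtain ⟨⟨_, x, rfl⟩, hx⟩ := IsCyclic.exists_generator (α := χ.range)
  have h1 : ∀ g, ∃ n : ℤ, χ x ^ n = χ g := fun g => by
    obtain ⟨n, hn⟩ := hx ⟨χ g, g, rfl⟩
    exact ⟨n, congrArg Subtype.val hn⟩
  refine ⟨χ.ker, x, fun h => ?_, fun i hi => ?_, fun g => ?_⟩
  · obtain ⟨n, hn⟩ := h1 (y ^ p ^ (a - 1))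
    rw [MonoidHom.mem_ker.1 h, one_zpow] at hn
    exact hχ hn.symm
  · obtain ⟨b, hb, e⟩ := (Nat.dvd_prime_pow hp).1 (ho ▸ orderOf_map_dvd χ y)
    have h2 : b = a := by
      by_contra h
      refine hχ ?_
      rw [map_pow, ← orderOf_dvd_iff_pow_eq_one, e]
      exact pow_dvd_pow _ (by omega)
    rw [MonoidHom.mem_ker, map_zpow, ← orderOf_dvd_iff_zpow_eq_one, e, h2, ← ho] at hi
    exact orderOf_dvd_iff_zpow_eq_one.1 hi
  · obtain ⟨n, hn⟩ := h1 g
    exact ⟨n, by rw [MonoidHom.mem_ker, map_mul, map_inv, map_zpow, hn, inv_mul_cancel]⟩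

theorem exB : S_B := by
  intro G _ _ p a y A hp ho ha hy hA
  letI : CommGroup A :=
    { (inferInstance : Group A) with mul_comm := fun u v => Subtype.ext (hA _ u.2 _ v.2) }
  obtain ⟨B, x, h1, h2, h3⟩ := comm_B (y := (⟨y, hy⟩ : A)) hp
    ((Subgroup.orderOf_mk y hy).trans ho) ha
  refine ⟨B.map A.subtype, x, map_subtype_le B, x.2, ?_, ?_, fun g hg => ?_⟩
  · rintro ⟨u, hu, e⟩
    exact h1 ((Subtype.ext e : u = x) ▸ hu)
  · refine eq_bot_iff.2 ?_
    rintro _ ⟨⟨u, hu, e⟩, i, rfl⟩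
    have e' : u = (⟨y, hy⟩ : A) ^ i := Subtype.ext e
    exact congrArg Subtype.val (h2 i (e' ▸ hu))
  · obtain ⟨n, hn⟩ := h3 ⟨g, hg⟩
    have e : g = (x : G) ^ n * (((x : G) ^ n)⁻¹ * g) := by rw [mul_inv_cancel_left]
    rw [e]
    exact mul_mem (zpow_mem (subset_closure (Set.mem_insert _ _)) n)
      (subset_closure (Set.mem_insert_of_mem _ ⟨_, hn, rfl⟩))

end Pool.Agent.MP_a1dcd4_co.SH

end

section

set_option autoImplicit false

namespace Pool.Agent.MP_a1dcd4_co.SH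

open Function Subgroup Pool.Agent.MP_a1dcd4_co.OR

section

variable {G : Type} [Group G]

theorem near_BR {N c : ℕ} {W : Subgroup G} (h : Rep G (2 * Nat.card G + c * W.index))
    (hc : N * c ≤ Nat.card W) : Near N G := by
  refine ⟨_, h, ?_⟩
  have h1 := Nat.mul_le_mul_right W.index hc
  rw [W.card_mul_index] at h1
  nlinarith

theorem ord_BR {p k i : ℕ} {x : G} (hp : p.Prime) (hx : orderOf x = p ^ k) (hi : i ≤ k) :
    orderOf (x ^ p ^ i) = p ^ (k - i) := by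
  rw [orderOf_pow_of_dvd (pow_ne_zero _ hp.ne_zero) (hx ▸ pow_dvd_pow p hi), hx,
    Nat.pow_div hi hp.pos]

theorem ivt_BR {d e : G} (h : Ivt d e) (n : ℕ) : Ivt d (e ^ n) := by
  have h1 : d⁻¹ * e ^ n * d = (d⁻¹ * e * d) ^ n := by
    simpa using (conj_pow (a := d⁻¹) (b := e) (i := n)).symm
  unfold Ivt at h ⊢
  rw [h1, h, inv_pow]

theorem exc_BR [Finite G] {N c : ℕ} {y : G}
    (h : Rep G (2 * Nat.card G + c * (zpowers (y ^ 4)).index)) (hc : 4 * (N * c) ≤ orderOf y) :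
    Near N G := by
  refine near_BR h ?_
  rw [Nat.card_zpowers]
  have h1 : orderOf y ≤ 4 * orderOf (y ^ 4) :=
    orderOf_le_of_pow_eq_one (Nat.mul_pos (by norm_num) (orderOf_pos _))
      (by rw [pow_mul, pow_orderOf_eq_one])
  omega

theorem not_BR [Finite G] {p k c : ℕ} {x : G} (hp : p.Prime) (hx : orderOf x = p ^ (k + 2))
    (h0 : 0 < c) (h3 : c ≤ 3) : x ^ c ∉ zpowers (x ^ p ^ 2) := by
  intro h
  have h1 := orderOf_dvd_of_mem_zpowers h
  rw [ord_BR hp hx (by omega), Nat.add_sub_cancel, orderOf_dvd_iff_pow_eq_one, ← pow_mul,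
    ← orderOf_dvd_iff_pow_eq_one, hx, pow_add, mul_comm] at h1
  have h2 := Nat.le_of_dvd h0 (Nat.dvd_of_mul_dvd_mul_right (pow_pos hp.pos _) h1)
  have h4 := hp.two_le
  nlinarith

theorem gen_BR [Finite G] {p k : ℕ} {x : G} (hx : orderOf x = p ^ k) (w : G)
    (hw : w ∈ zpowers (x ^ p ^ 2)) : x ∈ zpowers (x * w) := by
  obtain ⟨n, rfl⟩ := mem_powers_iff_mem_zpowers.2 hw
  show x ∈ zpowers (x * (x ^ p ^ 2) ^ n)
  rw [← pow_mul, ← pow_succ', mem_zpowers_pow_iff, hx]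
  refine Nat.Coprime.pow_right _ ?_
  rw [pow_two, mul_assoc]
  simp

end

theorem br (hp : S_BRp) (hSel : S_Sel) (hW : S_Win) (hD : S_D1) (hE1 : S_E1) (hE2 : S_E2) :
    S_BR := by
  intro D N
  classical
  obtain ⟨T2, h2⟩ := hp D N
  obtain ⟨M, hM⟩ : ∃ M, M = 4 * D + 24 := ⟨_, rfl⟩
  obtain ⟨γ, hγ⟩ : ∃ γ, γ = 32 * M ^ 3 + 1 := ⟨_, rfl⟩
  obtain ⟨L, hL⟩ : ∃ L, L = (M * M + 1) * (γ + 3) := ⟨_, rfl⟩
  obtain ⟨c, hc⟩ : ∃ c, c = N * (D + 9) ^ 2 := ⟨_, rfl⟩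
  obtain ⟨T3, hT⟩ : ∃ T3, T3 = 64 + γ + 8 * c + N * 30 := ⟨_, rfl⟩
  refine ⟨T3 * (T2 + 1) ^ L, fun G _ _ p k x Z hZ hcl pp hx hk => ?_⟩
  have hc' : N * (Z.card + 9) ^ 2 ≤ c := by rw [hc]; gcongr
  rcases le_or_gt T2 p with h | h
  · have k0 : 1 ≤ k := by
      rcases k with _ | k
      · have := Nat.mul_le_mul_left T3 (Nat.one_le_pow L (T2 + 1) (by omega))
        rw [pow_zero] at hk
        omega
      · omega
    exact h2 G p (x ^ p ^ (k - 1)) Z hZ hcl pp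
      (by rw [ord_BR pp hx (by omega), Nat.sub_sub_self k0, pow_one]) h
  have h3 : T3 * p ^ L ≤ p ^ k :=
    (Nat.mul_le_mul_left _ (Nat.pow_le_pow_left (by omega) L)).trans hk
  have h4 : L ≤ k := (Nat.pow_le_pow_iff_right pp.one_lt).1
    ((Nat.le_mul_of_pos_left _ (by omega)).trans h3)
  have h5 : T3 ≤ p ^ (k - L) := by
    refine Nat.le_of_mul_le_mul_right ?_ (pow_pos pp.pos L)
    rwa [← pow_add, Nat.sub_add_cancel h4]
  have hy := ord_BR pp hx h4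
  have hy2 : (x ^ p ^ L) ^ 2 ≠ 1 := fun e => by
    have := orderOf_le_of_pow_eq_one (by norm_num) e
    omega
  rcases hSel G p _ _ Z pp hy hy2 hcl with ⟨T, t1, t2, t3, t4, -⟩ | he | ⟨y, y1, y2, he⟩
  · have t0 : T.card ≤ M := by omega
    have hF : (((T ×ˢ T).image fun q : G × G => q.1⁻¹ * q.2).card + 1) * (γ + 3) ≤ L := by
      rw [hL]
      refine Nat.mul_le_mul_right _ (Nat.succ_le_succ (Finset.card_image_le.trans ?_))
      rw [Finset.card_product]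
      exact Nat.mul_le_mul t0 t0
    obtain ⟨i, i1, i2⟩ := hW G p k γ x _ pp hx (hF.trans h4)
    have i3 : i + 3 ≤ L := i1.trans hF
    have e1 : x ^ p ^ (i + 2) = (x ^ p ^ i) ^ p ^ 2 := by rw [← pow_mul, ← pow_add]
    have e2 : x ^ p ^ L = (x ^ p ^ i) ^ p ^ (L - i) := by
      rw [← pow_mul, ← pow_add, Nat.add_sub_cancel' (by omega)]
    have o1 : orderOf (x ^ p ^ i) = p ^ (k - i - 2 + 2) := by
      rw [ord_BR pp hx (by omega), Nat.sub_add_cancel (by omega)]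
    have o2 : T3 ≤ Nat.card (zpowers ((x ^ p ^ i) ^ p ^ 2)) := by
      rw [Nat.card_zpowers, ← e1, ord_BR pp hx (by omega)]
      exact h5.trans (Nat.pow_le_pow_right pp.pos (by omega))
    rw [e1] at i2
    rw [e2] at t3 t4
    generalize x ^ p ^ i = z at i2 t3 t4 o1 o2
    refine near_BR (hD G z (zpowers (z ^ p ^ 2)) T γ
      (zpowers_le.2 (pow_mem (mem_zpowers _) _))
      (by simpa using not_BR (c := 1) pp o1 (by omega) (by omega))
      (not_BR pp o1 (by omega) (by omega)) (not_BR pp o1 (by omega) (by omega))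
      (gen_BR o1) t2 ?_ (fun t ht t' ht' => ?_) ?_ (by omega)) (by omega)
    · rw [eq_top_iff, ← t3, closure_le]
      exact Set.insert_subset (pow_mem (subset_closure (Set.mem_insert _ _)) _)
        ((Set.subset_insert _ _).trans subset_closure)
    · refine (i2 _ (Finset.mem_image.2 ⟨(t, t'), Finset.mem_product.2 ⟨ht, ht'⟩, rfl⟩)).imp
        (fun a => ⟨a, t4 t ht t' ht' (ivt_BR a _)⟩) fun a => le_trans ?_ a
      exact Nat.mul_le_mul_right _ Nat.lt_two_pow_self.le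
    · have := Nat.pow_le_pow_left t0 3
      omega
  · exact exc_BR (hE1 G p _ _ Z pp hy (by omega) hcl he) (by omega)
  · rw [hy] at y1 y2
    obtain ⟨a, -, ha⟩ := (Nat.dvd_prime_pow pp).1 y1
    exact exc_BR (hE2 G p a y Z pp ha (by omega) hcl he) (by omega)

end Pool.Agent.MP_a1dcd4_co.SH

end

section

set_option autoImplicit false

namespace Pool.Agent.MP_a1dcd4_co.SH

open Function Subgroup Pool.Agent.MP_a1dcd4_co.OR

theorem near_BRp {G : Type} [Group G] {N c : ℕ} (W : Subgroup G)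
    (h : Rep G (2 * Nat.card G + c * W.index)) (hc : N * c ≤ Nat.card W) : Near N G := by
  refine ⟨_, h, ?_⟩
  have h1 := W.card_mul_index
  have h2 := Nat.mul_le_mul_right W.index hc
  nlinarith

theorem ti_BRp {G : Type} [Group G] [Finite G] {p : ℕ} (hp : p.Prime) {K K' : Subgroup G}
    (h : Nat.card K = p) (h' : Nat.card K' = p) : K = K' ∨ K ⊓ K' = ⊥ := by
  have h1 : Nat.card (K ⊓ K' : Subgroup G) ∣ p := h ▸ card_dvd_of_le inf_le_left
  rcases (Nat.dvd_prime hp).1 h1 with e | e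
  · exact Or.inr (eq_bot_of_card_eq _ e)
  · exact Or.inl ((eq_of_le_of_card_ge inf_le_left (by rw [e, h])).symm.trans
      (eq_of_le_of_card_ge inf_le_right (by rw [e, h'])))

theorem four_BRp {G : Type} [Group G] {p : ℕ} (hp : p.Prime) (h3 : 3 ≤ p) {y : G}
    (hy : orderOf y = p) : Nat.card (zpowers (y ^ 4)) = p := by
  rw [Nat.card_zpowers, Nat.Coprime.orderOf_pow, hy]
  rw [hy, show 4 = 2 ^ 2 by norm_num]
  exact Nat.Coprime.pow_right _ ((Nat.coprime_primes hp Nat.prime_two).2 (by omega))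

theorem brp (hCH : S_CH) (hSel : S_Sel) (hD : S_D2) (hE1 : S_E1) (hE2 : S_E2) (hCy : S_Cyc)
    (hF : S_Frob) : S_BRp := by
  classical
  intro D N
  refine ⟨4 * (4 * D + 24) ^ 3 + 24 * D + 64 + N * (4 * D + 24 + 9) ^ 2,
    fun G _ _ p u Z hZ hcl hp hu hT => ?_⟩
  have hU : Nat.card (zpowers u) = p := by rw [Nat.card_zpowers, hu]
  have hn := (zpowers u).card_mul_index
  have hpn : p ≤ Nat.card G := hU ▸ card_le_card_group _
  have hN : ∀ c, c ≤ 4 * D + 24 + 9 → N * c ^ 2 ≤ p := fun c hc =>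
    (Nat.mul_le_mul_left N (Nat.pow_le_pow_left hc 2)).trans (by omega)
  have hup : u ^ p = 1 := hu ▸ pow_orderOf_eq_one u
  by_cases h1 : ∀ v : G, v ^ p = 1 → v ∈ zpowers u
  swap
  · push Not at h1
    obtain ⟨v, hv, hvU⟩ := h1
    have : Fact p.Prime := ⟨hp⟩
    have hV : Nat.card (zpowers v) = p := by
      rw [Nat.card_zpowers]
      exact orderOf_eq_prime hv fun e => hvU (e ▸ one_mem _)
    have hi : (zpowers v).index = (zpowers u).index := by
      have := (zpowers v).card_mul_index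
      rw [hV, ← hn, hU] at this
      exact Nat.eq_of_mul_eq_mul_left hp.pos this
    have hR := hCH G (Z.image fun s => (s, zpowers u, zpowers v)) (by
      rw [← hcl]
      congr 1
      ext s
      simp) ⟨fun γ hγ => by
        obtain ⟨s, -, rfl⟩ := Finset.mem_image.1 hγ
        exact (ti_BRp hp hU hV).resolve_left fun e => hvU (e ▸ mem_zpowers v),
      fun γ hγ γ' hγ' K K' hK hK' => by
        obtain ⟨s, -, rfl⟩ := Finset.mem_image.1 hγ
        obtain ⟨s', -, rfl⟩ := Finset.mem_image.1 hγ'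
        refine ti_BRp hp ?_ ?_
        · rcases hK with rfl | rfl | rfl | rfl <;> simp only [card_cj, hU, hV]
        · rcases hK' with rfl | rfl | rfl | rfl <;> simp only [card_cj, hU, hV]⟩
      (by
        have b1 : cost (Z.image fun s => (s, zpowers u, zpowers v)) ≤
            (Z.image fun s => (s, zpowers u, zpowers v)).card • (2 * (zpowers u).index) :=
          Finset.sum_le_card_nsmul _ _ _ fun γ hγ => by
            obtain ⟨s, -, rfl⟩ := Finset.mem_image.1 hγ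
            simp only [hi]
            omega
        have b2 := Nat.mul_le_mul_right (2 * (zpowers u).index)
          ((Finset.card_image_le (s := Z) (f := fun s => (s, zpowers u, zpowers v))).trans hZ)
        have b3 := Nat.mul_le_mul_right (zpowers u).index (show 24 * D ≤ p by omega)
        rw [smul_eq_mul] at b1
        rw [← hn, hU]
        nlinarith) (by omega)
    exact near_BRp (c := 0) ⊥ (by simpa using hR) (by simp)
  by_cases h2 : ∀ c, c * u = u * c → c ∈ zpowers u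
  · by_cases h3 : zpowers u = ⊤
    · refine ⟨_, hCy G u h3 (by omega), ?_⟩
      have := hN 3 (by omega)
      nlinarith
    · have hno : (zpowers u).Normal := ⟨fun x hx g => h1 _ (by
        obtain ⟨k, rfl⟩ := mem_zpowers_iff.1 hx
        rw [conj_pow, ← zpow_natCast, ← zpow_mul, mul_comm k, zpow_mul, zpow_natCast, hup]
        simp)⟩
      exact near_BRp _ (hF G p u hp hu hno h2 h3) (hU ▸ hN 9 (by omega))
  push Not at h2
  have hu2 : u ^ 2 ≠ 1 := fun e => by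
    have := Nat.le_of_dvd two_pos (hu ▸ orderOf_dvd_of_pow_eq_one e)
    omega
  have hp1 : 32 ≤ p ^ 1 := by
    rw [pow_one]
    omega
  rcases hSel G p 1 u Z hp (by rw [pow_one, hu]) hu2 hcl with ⟨T, hfr⟩ | hx | ⟨y, y1, y2, y3⟩
  · refine near_BRp _ (hD G p _ u T hp hu h1 hfr h2 ?_) (hU ▸ hN _ (by omega))
    have := Nat.pow_le_pow_left (show 4 * Z.card + 24 ≤ 4 * D + 24 by omega) 3
    omega
  · refine near_BRp _ (hE1 G p 1 u Z hp (by rw [pow_one, hu]) hp1 hcl hx) ?_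
    rw [four_BRp hp (by omega) hu]
    exact hN _ (by omega)
  · rw [hu] at y1 y2
    have hy : orderOf y = p := ((Nat.dvd_prime hp).1 y1).resolve_left fun e => by omega
    refine near_BRp _ (hE2 G p 1 y Z hp (by rw [pow_one, hy]) hp1 hcl y3) ?_
    rw [four_BRp hp (by omega) hy]
    exact hN _ (by omega)

end Pool.Agent.MP_a1dcd4_co.SH

end

section

set_option autoImplicit false

namespace Pool.Agent.MP_a1dcd4_co.SH

open Function Subgroup Pool.Agent.MP_a1dcd4_co.OR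

theorem sum_biUnion_le_BlkB {α : Type} [DecidableEq α] (B : Finset ℕ) (F : ℕ → Finset α)
    (f : α → ℕ) : ∑ x ∈ B.biUnion F, f x ≤ ∑ p ∈ B, ∑ x ∈ F p, f x := by
  induction B using Finset.induction_on with
  | empty => simp
  | insert a s ha ih =>
    rw [Finset.biUnion_insert, Finset.sum_insert ha]
    have := Finset.sum_union_inter (s₁ := F a) (s₂ := s.biUnion F) (f := f)
    omega

theorem sum_inv_sq_BlkB (B : Finset ℕ) (h : ∀ p ∈ B, 2 ≤ p) :
    ∑ p ∈ B, ((p : ℝ) ^ 2)⁻¹ ≤ 1 := by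
  obtain ⟨N, hN⟩ := B.bddAbove
  have hsub : B ⊆ Finset.Ioc 1 (N + 1) := by
    intro p hp
    have h1 := h p hp
    have h2 : p ≤ N := hN hp
    rw [Finset.mem_Ioc]
    omega
  have h1 := sum_Ioc_inv_sq_le_sub (α := ℝ) (k := 1) (n := N + 1) one_ne_zero (by omega)
  have h2 : ∑ p ∈ B, ((p : ℝ) ^ 2)⁻¹ ≤ ∑ p ∈ Finset.Ioc 1 (N + 1), ((p : ℝ) ^ 2)⁻¹ :=
    Finset.sum_le_sum_of_subset_of_nonneg hsub (fun _ _ _ => by positivity)
  have h3 : (0 : ℝ) ≤ (((N + 1 : ℕ) : ℝ))⁻¹ := by positivity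
  simp only [Nat.cast_one, inv_one] at h1
  linarith

theorem card_fam_BlkB {G : Type} [Group G] [Finite G] {γ : G × Subgroup G × Subgroup G} {n : ℕ}
    (h1 : Nat.card γ.2.1 = n) (h2 : Nat.card γ.2.2 = n) {K : Subgroup G} (hK : InFam γ K) :
    Nat.card K = n := by
  rcases hK with rfl | rfl | rfl | rfl
  · exact h1
  · exact h2
  · rw [card_cj, h1]
  · rw [card_cj, h2]

theorem cost_BlkB {G : Type} [Group G] [Finite G] (Γ : Finset (G × Subgroup G × Subgroup G))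
    (q m p : ℕ) (hq : 0 < q) (hc : Γ.card ≤ m) (hm : 48 * m * p ^ 2 ≤ q)
    (h : ∀ γ ∈ Γ, Nat.card γ.2.1 = q ∧ Nat.card γ.2.2 = q) :
    24 * p ^ 2 * cost Γ ≤ Nat.card G := by
  have e : q * cost Γ = Γ.card * (2 * Nat.card G) := by
    rw [cost, Finset.mul_sum, ← smul_eq_mul, ← Finset.sum_const]
    apply Finset.sum_congr rfl
    intro γ hγ
    have a := γ.2.1.card_mul_index
    have b := γ.2.2.card_mul_index
    rw [(h γ hγ).1] at a
    rw [(h γ hγ).2] at b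
    rw [mul_add, a, b, two_mul]
  apply Nat.le_of_mul_le_mul_left _ hq
  calc q * (24 * p ^ 2 * cost Γ) = 24 * p ^ 2 * (q * cost Γ) := by ring
    _ = 48 * Γ.card * p ^ 2 * Nat.card G := by rw [e]; ring
    _ ≤ 48 * m * p ^ 2 * Nat.card G := by gcongr
    _ ≤ q * Nat.card G := Nat.mul_le_mul_right _ hm

theorem blkB (h : S_TIE) : S_BlkB := by
  classical
  intro G _ _ B E Z r hB
  have ex : ∀ p : ℕ, ∃ Γ : Finset (G × Subgroup G × Subgroup G), p ∈ B →
      (∀ s ∈ Z p, ∃ γ ∈ Γ, γ.1 = s) ∧ Γ.card ≤ (Z p).card ∧ TI Γ ∧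
        ∀ γ ∈ Γ, Nat.card γ.2.1 = p ^ (r p / 8) ∧ Nat.card γ.2.2 = p ^ (r p / 8) := by
    intro p
    by_cases hp : p ∈ B
    · obtain ⟨h1, h2, h3, h4, h5⟩ := hB p hp
      have key : 18 * (Z p).card * p ^ (4 * (r p / 8) + 3) ≤ Nat.card (E p) := by
        rw [h3]
        calc 18 * (Z p).card * p ^ (4 * (r p / 8) + 3)
            = 18 * (Z p).card * p ^ 2 * p ^ (4 * (r p / 8) + 1) := by ring
          _ ≤ 48 * (Z p).card * p ^ 2 * p ^ (4 * (r p / 8) + 1) := by gcongr; norm_num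
          _ ≤ p ^ (r p / 8) * p ^ (4 * (r p / 8) + 1) := Nat.mul_le_mul_right _ h5
          _ = p ^ (r p / 8 + (4 * (r p / 8) + 1)) := (pow_add _ _ _).symm
          _ ≤ p ^ r p := Nat.pow_le_pow_right h1.pos (by omega)
      obtain ⟨Γ, hΓ⟩ := h G p (r p / 8) (E p) (Z p) h1 h2 key
      exact ⟨Γ, fun _ => hΓ⟩
    · exact ⟨∅, fun h' => absurd h' hp⟩
  choose F hF using ex
  refine ⟨B.biUnion F, ?_, ⟨?_, ?_⟩, ?_, ?_⟩
  · intro p hp s hs
    obtain ⟨γ, hγ, e⟩ := (hF p hp).1 s hs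
    exact ⟨γ, Finset.mem_biUnion.2 ⟨p, hp, hγ⟩, e⟩
  · intro γ hγ
    obtain ⟨p, hp, hγ⟩ := Finset.mem_biUnion.1 hγ
    exact (hF p hp).2.2.1.1 γ hγ
  · intro γ hγ γ' hγ' K K' hK hK'
    obtain ⟨p, hp, hγ⟩ := Finset.mem_biUnion.1 hγ
    obtain ⟨p', hp', hγ'⟩ := Finset.mem_biUnion.1 hγ'
    by_cases e : p = p'
    · subst e
      exact (hF p hp).2.2.1.2 γ hγ γ' hγ' K K' hK hK'
    · right
      refine disjoint_iff.1 (Subgroup.disjoint_of_coprime_natCard ?_)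
      rw [card_fam_BlkB ((hF p hp).2.2.2 γ hγ).1 ((hF p hp).2.2.2 γ hγ).2 hK,
        card_fam_BlkB ((hF p' hp').2.2.2 γ' hγ').1 ((hF p' hp').2.2.2 γ' hγ').2 hK']
      exact Nat.coprime_pow_primes _ _ (hB p hp).1 (hB p' hp').1 e
  · have h1 : cost (B.biUnion F) ≤ ∑ p ∈ B, cost (F p) :=
      sum_biUnion_le_BlkB B F (fun γ => γ.2.1.index + γ.2.2.index)
    have h2 : ∀ p ∈ B, (24 : ℝ) * cost (F p) ≤ Nat.card G * ((p : ℝ) ^ 2)⁻¹ := by
      intro p hp
      have hp0 : 0 < p := (hB p hp).1.pos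
      have h3 := cost_BlkB (F p) (p ^ (r p / 8)) (Z p).card p (pow_pos hp0 _) (hF p hp).2.1
        (hB p hp).2.2.2.2 (hF p hp).2.2.2
      have h4 : (24 : ℝ) * (p : ℝ) ^ 2 * cost (F p) ≤ Nat.card G := by exact_mod_cast h3
      have h5 : (0 : ℝ) < (p : ℝ) ^ 2 := by positivity
      rw [← div_eq_mul_inv, le_div_iff₀ h5]
      linarith
    have h3 := sum_inv_sq_BlkB B (fun p hp => (hB p hp).1.two_le)
    have h4 : (24 : ℝ) * cost (B.biUnion F) ≤ Nat.card G := by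
      calc (24 : ℝ) * cost (B.biUnion F) ≤ 24 * ∑ p ∈ B, (cost (F p) : ℝ) := by
            have : (cost (B.biUnion F) : ℝ) ≤ ∑ p ∈ B, (cost (F p) : ℝ) := by exact_mod_cast h1
            linarith
        _ = ∑ p ∈ B, (24 : ℝ) * cost (F p) := Finset.mul_sum _ _ _
        _ ≤ ∑ p ∈ B, Nat.card G * ((p : ℝ) ^ 2)⁻¹ := Finset.sum_le_sum h2
        _ = Nat.card G * ∑ p ∈ B, ((p : ℝ) ^ 2)⁻¹ := (Finset.mul_sum _ _ _).symm
        _ ≤ Nat.card G * 1 := by gcongr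
        _ = Nat.card G := mul_one _
    exact_mod_cast h4
  · intro γ hγ
    obtain ⟨p, hp, hγ⟩ := Finset.mem_biUnion.1 hγ
    exact ⟨p, hp, r p / 8, (hF p hp).2.2.2 γ hγ⟩

end Pool.Agent.MP_a1dcd4_co.SH

end

section

/-!
A cheap trivial intersection system gives a lattice with at most `2 |G|` elements.
-/

set_option autoImplicit false

namespace Pool.Agent.MP_a1dcd4_co.SH

open Function Subgroup Pool.Agent.MP_a1dcd4_co.OR

theorem sumU_CH {β : Type} [DecidableEq β] (s t : Finset β) (f : β → ℕ) :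
    ∑ b ∈ s ∪ t, f b ≤ ∑ b ∈ s, f b + ∑ b ∈ t, f b := by
  rw [← Finset.sum_union_inter]
  exact Nat.le_add_right _ _

theorem sumI_CH {α β : Type} [DecidableEq β] (s : Finset α) (g : α → β) (f : β → ℕ) :
    ∑ b ∈ s.image g, f b ≤ ∑ a ∈ s, f (g a) :=
  Finset.sum_image_le_of_nonneg fun _ _ => Nat.zero_le _

theorem idx_CH {G : Type} [Group G] [Finite G] {U V : Subgroup G} (h : U ⊓ V = ⊥) :
    4 * Nat.card G ≤ (U.index + V.index) ^ 2 := by
  have h1 : Nat.card U * Nat.card V ≤ Nat.card G := by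
    rw [← Nat.card_prod]
    exact Nat.card_le_card_of_injective _ (mul_injective_of_disjoint (disjoint_iff.2 h))
  have h2 := U.card_mul_index
  have h3 := V.card_mul_index
  have h0 : 0 < Nat.card G := Nat.card_pos
  have h4 : Nat.card G ≤ U.index * V.index := by
    refine Nat.le_of_mul_le_mul_left ?_ h0
    calc Nat.card G * Nat.card G = (Nat.card U * U.index) * (Nat.card V * V.index) := by
          rw [h2, h3]
      _ = (Nat.card U * Nat.card V) * (U.index * V.index) := by ring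
      _ ≤ _ := Nat.mul_le_mul_right _ h1
  nlinarith [sq_nonneg ((U.index : ℤ) - V.index)]

theorem num_CH {G : Type} [Group G] [Finite G] (Γ : Finset (G × Subgroup G × Subgroup G))
    (h : ∀ γ ∈ Γ, γ.2.1 ⊓ γ.2.2 = ⊥) (hc : 12 * cost Γ ≤ Nat.card G) :
    576 * Γ.card ^ 2 ≤ Nat.card G := by
  rcases Γ.eq_empty_or_nonempty with rfl | hne
  · simp
  obtain ⟨γ, hγ, hm⟩ := Γ.exists_min_image (fun γ => γ.2.1.index + γ.2.2.index) hne
  have h1 : Γ.card * (γ.2.1.index + γ.2.2.index) ≤ cost Γ := by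
    simpa [cost] using Finset.card_nsmul_le_sum Γ _ _ hm
  have h2 := idx_CH (h γ hγ)
  have h0 : 0 < Nat.card G := Nat.card_pos
  refine Nat.le_of_mul_le_mul_left ?_ h0
  calc Nat.card G * (576 * Γ.card ^ 2) = 144 * (Γ.card ^ 2 * (4 * Nat.card G)) := by ring
    _ ≤ 144 * (Γ.card ^ 2 * (γ.2.1.index + γ.2.2.index) ^ 2) := by gcongr
    _ = (12 * (Γ.card * (γ.2.1.index + γ.2.2.index))) ^ 2 := by ring
    _ ≤ (12 * cost Γ) ^ 2 := by gcongr
    _ ≤ Nat.card G ^ 2 := by gcongr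
    _ = _ := by ring

theorem ch (h : S_UM) : S_CH := by
  classical
  intro G _ _ Γ hcl hti hc hn
  let KK : Finset (Subgroup G) := (Γ.image (fun γ => γ.2.1) ∪ Γ.image (fun γ => γ.2.2)) ∪
    (Γ.image (fun γ => cj γ.2.1 γ.1) ∪ Γ.image (fun γ => cj γ.2.2 γ.1))
  let Δ : Finset (Subgroup G × G) :=
    Γ.image (fun γ => (γ.2.1, γ.1)) ∪ Γ.image (fun γ => (γ.2.2, γ.1))
  have hK : ∀ K, K ∈ KK ↔ ∃ γ ∈ Γ, InFam γ K := by
    intro K
    simp only [KK, Finset.mem_union, Finset.mem_image, InFam]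
    constructor
    · rintro ((⟨γ, a, b⟩ | ⟨γ, a, b⟩) | ⟨γ, a, b⟩ | ⟨γ, a, b⟩)
      exacts [⟨γ, a, Or.inl b.symm⟩, ⟨γ, a, Or.inr (Or.inl b.symm)⟩,
        ⟨γ, a, Or.inr (Or.inr (Or.inl b.symm))⟩, ⟨γ, a, Or.inr (Or.inr (Or.inr b.symm))⟩]
    · rintro ⟨γ, a, b | b | b | b⟩
      exacts [Or.inl (Or.inl ⟨γ, a, b.symm⟩), Or.inl (Or.inr ⟨γ, a, b.symm⟩),
        Or.inr (Or.inl ⟨γ, a, b.symm⟩), Or.inr (Or.inr ⟨γ, a, b.symm⟩)]
  have hU : ∀ γ ∈ Γ, (γ.2.1, γ.1) ∈ Δ := fun γ a =>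
    Finset.mem_union_left _ (Finset.mem_image_of_mem (fun γ => (γ.2.1, γ.1)) a)
  have hV : ∀ γ ∈ Γ, (γ.2.2, γ.1) ∈ Δ := fun γ a =>
    Finset.mem_union_right _ (Finset.mem_image_of_mem (fun γ => (γ.2.2, γ.1)) a)
  have key := h.um0 KK Δ
    (fun K a K' a' ne => by
      obtain ⟨γ, b, c⟩ := (hK K).1 a
      obtain ⟨γ', b', c'⟩ := (hK K').1 a'
      exact (hti.2 γ b γ' b' K K' c c').resolve_left ne)
    (fun δ a => by
      rcases Finset.mem_union.1 a with a | a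
      · obtain ⟨γ, b, rfl⟩ := Finset.mem_image.1 a
        exact ⟨(hK _).2 ⟨γ, b, Or.inl rfl⟩, (hK _).2 ⟨γ, b, Or.inr (Or.inr (Or.inl rfl))⟩⟩
      · obtain ⟨γ, b, rfl⟩ := Finset.mem_image.1 a
        exact ⟨(hK _).2 ⟨γ, b, Or.inr (Or.inl rfl)⟩,
          (hK _).2 ⟨γ, b, Or.inr (Or.inr (Or.inr rfl))⟩⟩)
    (fun φ _ _ hg z => by
      refine Fixes.closure (Z := {s | ∃ γ ∈ Γ, γ.1 = s}) ?_ z (hcl ▸ mem_top z)
      rintro s ⟨γ, a, rfl⟩ g
      obtain ⟨u, hu, e1⟩ := hg _ (hU γ a) g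
      obtain ⟨v, hv, e2⟩ := hg _ (hV γ a) g
      have e : u = v := mul_left_cancel (mul_right_cancel (e1.symm.trans e2))
      have hb : u ∈ γ.2.1 ⊓ γ.2.2 := ⟨hu, e ▸ hv⟩
      rw [hti.1 γ a, mem_bot] at hb
      rw [hb, mul_one] at e1
      exact e1)
  refine key.mono ?_
  have c0 : cost Γ = ∑ γ ∈ Γ, γ.2.1.index + ∑ γ ∈ Γ, γ.2.2.index := Finset.sum_add_distrib
  have s1 : ∑ K ∈ KK, K.index ≤ 2 * cost Γ := by
    have a1 := sumI_CH Γ (fun γ => γ.2.1) Subgroup.index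
    have a2 := sumI_CH Γ (fun γ => γ.2.2) Subgroup.index
    have a3 := sumI_CH Γ (fun γ => cj γ.2.1 γ.1) Subgroup.index
    have a4 := sumI_CH Γ (fun γ => cj γ.2.2 γ.1) Subgroup.index
    simp only [index_cj] at a3 a4
    refine (sumU_CH _ _ _).trans ((Nat.add_le_add (sumU_CH _ _ _) (sumU_CH _ _ _)).trans ?_)
    omega
  have s2 : ∑ δ ∈ Δ, δ.1.index ≤ cost Γ := by
    have a1 := sumI_CH Γ (fun γ => (γ.2.1, γ.1)) fun δ => δ.1.index
    have a2 := sumI_CH Γ (fun γ => (γ.2.2, γ.1)) fun δ => δ.1.index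
    refine (sumU_CH _ _ _).trans ?_
    rw [c0]
    exact Nat.add_le_add a1 a2
  have s3 : KK.card ≤ 4 * Γ.card := by
    refine (Finset.card_union_le _ _).trans
      ((Nat.add_le_add (Finset.card_union_le _ _) (Finset.card_union_le _ _)).trans ?_)
    refine (Nat.add_le_add (Nat.add_le_add Finset.card_image_le Finset.card_image_le)
      (Nat.add_le_add Finset.card_image_le Finset.card_image_le)).trans ?_
    omega
  have s4 : Δ.card ≤ 2 * Γ.card := by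
    refine (Finset.card_union_le _ _).trans
      ((Nat.add_le_add Finset.card_image_le Finset.card_image_le).trans ?_)
    omega
  have s5 := num_CH Γ hti.1 hc
  have s6 : (KK.card + Δ.card + 3) ^ 2 ≤ (6 * Γ.card + 3) ^ 2 :=
    Nat.pow_le_pow_left (by omega) 2
  have s7 : (6 * Γ.card + 3) ^ 2 ≤ 72 * Γ.card ^ 2 + 18 := by
    nlinarith [sq_nonneg (2 * (Γ.card : ℤ) - 1)]
  omega

end Pool.Agent.MP_a1dcd4_co.SH

end

section

set_option autoImplicit false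

namespace Pool.Agent.MP_a1dcd4_co.SH

open Function Subgroup Pool.Agent.MP_a1dcd4_co.OR

section

variable {G : Type} [Group G]

/-- the subgroup generated by the quotients -/
def Q_Cover (W : Finset G) : Subgroup G := closure {p | ∃ a ∈ W, ∃ b ∈ W, p = a⁻¹ * b}

theorem mono_Cover {W W' : Finset G} (h : W ⊆ W') : Q_Cover W ≤ Q_Cover W' :=
  closure_mono fun _ ⟨a, ha, b, hb, e⟩ => ⟨a, h ha, b, h hb, e⟩

theorem mem_Cover {W : Finset G} {a b : G} (ha : a ∈ W) (hb : b ∈ W) : a⁻¹ * b ∈ Q_Cover W :=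
  subset_closure ⟨a, ha, b, hb, rfl⟩

/-- disjoint translates -/
def Good_Cover (C : Subgroup G) (X : Set G) (n : ℕ) : Prop :=
  ∃ F W : Finset G, F.card = n + 1 ∧ 1 ∈ F ∧ (∀ f ∈ F, f ∈ C ∧ f ∈ Q_Cover W) ∧
    (∀ f ∈ F, ∀ f' ∈ F, ∀ a ∈ X, ∀ b ∈ X, a * f = b * f' → f = f') ∧ (∀ w ∈ W, w ∈ X) ∧
    W.card ≤ 4 * n

/-- the translates cover -/
def Done_Cover (C : Subgroup G) (X : Set G) (n : ℕ) : Prop :=
  ∃ W : Finset G, (∀ w ∈ W, w ∈ X) ∧ W.card ≤ 4 * n ∧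
    ∀ z ∈ C, ∃ a b : G, a ∈ X ∧ b ∈ X ∧ ∃ f ∈ Q_Cover W, z = a⁻¹ * b * f

theorem card_Cover [Finite G] {C : Subgroup G} {X : Set G} (hX : ∀ x ∈ X, x ∈ C) {n : ℕ}
    (h : Good_Cover C X n) : X.ncard * (n + 1) ≤ Nat.card C := by
  obtain ⟨F, W, h1, -, h3, h4, -⟩ := h
  have := Nat.card_le_card_of_injective (fun p : X × F =>
    (⟨p.1 * p.2, C.mul_mem (hX _ p.1.2) (h3 _ p.2.2).1⟩ : C)) (by
      rintro ⟨a, f⟩ ⟨b, f'⟩ e
      have e1 : (a : G) * f = b * f' := congrArg Subtype.val e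
      have e2 := h4 _ f.2 _ f'.2 _ a.2 _ b.2 e1
      rw [e2] at e1
      exact Prod.ext (Subtype.ext (mul_right_cancel e1)) (Subtype.ext e2))
  rwa [Nat.card_prod, Nat.card_coe_set_eq, Nat.card_eq_fintype_card, Fintype.card_coe, h1] at this

theorem step_Cover {C : Subgroup G} {X : Set G} (hX : ∀ x ∈ X, x ∈ C) (hne : X.Nonempty)
    (hC : closure {p | ∃ a ∈ X, ∃ b ∈ X, p = a⁻¹ * b} = C) {n : ℕ} (h : Good_Cover C X n) :
    Done_Cover C X n ∨ Good_Cover C X (n + 1) := by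
  classical
  obtain ⟨F, W, h1, h2, h3, h4, h5, h6⟩ := h
  obtain ⟨S, hS⟩ : ∃ S : G → Prop, ∀ g, S g ↔ ∃ a ∈ X, ∃ b ∈ X, ∃ f ∈ F, g = a⁻¹ * b * f :=
    ⟨_, fun _ => Iff.rfl⟩
  obtain ⟨x, hx⟩ := hne
  by_cases hc : ∀ a ∈ X, ∀ b ∈ X, ∀ g, S g → S (a⁻¹ * b * g)
  · refine Or.inl ⟨W, h5, h6, fun z hz => ?_⟩
    rw [← hC] at hz
    have : S z := by
      induction hz using closure_induction_left with
      | one => exact (hS 1).2 ⟨x, hx, x, hx, 1, h2, by simp⟩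
      | mul_left p hp y _ ih =>
        obtain ⟨a, ha, b, hb, rfl⟩ := hp
        exact hc a ha b hb y ih
      | inv_mul_cancel p hp y _ ih =>
        obtain ⟨a, ha, b, hb, rfl⟩ := hp
        rw [mul_inv_rev, inv_inv]
        exact hc b hb a ha y ih
    obtain ⟨a, ha, b, hb, f, hf, e⟩ := (hS z).1 this
    exact ⟨a, b, ha, hb, f, (h3 f hf).2, e⟩
  · push Not at hc
    obtain ⟨a, ha, b, hb, g, hg, hn⟩ := hc
    obtain ⟨a', ha', b', hb', f, hf, rfl⟩ := (hS g).1 hg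
    have sub : W ⊆ W ∪ {a, b, a', b'} := Finset.subset_union_left
    have key : ∀ f' ∈ F, ∀ c ∈ X, ∀ d ∈ X, c * (a⁻¹ * b * (a'⁻¹ * b' * f)) ≠ d * f' :=
      fun f' hf' c hc d hd e => hn ((hS _).2 ⟨c, hc, d, hd, f', hf', by
        rw [mul_assoc c⁻¹, ← e, inv_mul_cancel_left]⟩)
    refine Or.inr ⟨insert (a⁻¹ * b * (a'⁻¹ * b' * f)) F, W ∪ {a, b, a', b'}, ?_,
      Finset.mem_insert_of_mem h2, fun k hk => ?_, fun k hk k' hk' c hc d hd e => ?_,
      fun w hw => ?_, ?_⟩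
    · rw [Finset.card_insert_of_notMem fun e => key _ e x hx x hx rfl, h1]
    · rcases Finset.mem_insert.1 hk with rfl | hk
      · exact ⟨mul_mem (mul_mem (inv_mem (hX a ha)) (hX b hb))
          (mul_mem (mul_mem (inv_mem (hX a' ha')) (hX b' hb')) (h3 f hf).1),
          mul_mem (mem_Cover (by simp) (by simp))
            (mul_mem (mem_Cover (by simp) (by simp)) (mono_Cover sub (h3 f hf).2))⟩
      · exact ⟨(h3 k hk).1, mono_Cover sub (h3 k hk).2⟩
    · rcases Finset.mem_insert.1 hk with rfl | hk <;> rcases Finset.mem_insert.1 hk' with rfl | hk'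
      · rfl
      · exact absurd e (key _ hk' c hc d hd)
      · exact absurd e.symm (key _ hk d hd c hc)
      · exact h4 k hk k' hk' c hc d hd e
    · simp only [Finset.mem_union, Finset.mem_insert, Finset.mem_singleton] at hw
      rcases hw with hw | rfl | rfl | rfl | rfl
      exacts [h5 w hw, ha, hb, ha', hb']
    · have := Finset.card_union_le W {a, b, a', b'}
      have := Finset.card_le_four (a := a) (b := b) (c := a') (d := b')
      omega

end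

theorem cover : S_Cover := by
  classical
  intro G _ _ C X Z hX hc hC hZ
  have pos : 0 < X.ncard := by
    have : 0 < Nat.card C := Nat.card_pos
    omega
  have hne : X.Nonempty := Set.nonempty_of_ncard_ne_zero pos.ne'
  have main : ∀ n, (∃ m ≤ n, Done_Cover C X m) ∨ Good_Cover C X n := fun n => by
    induction n with
    | zero => exact Or.inr ⟨{1}, ∅, rfl, by simp, by simp [one_mem], by simp, by simp, by simp⟩
    | succ n ih =>
      rcases ih with ⟨m, h1, h2⟩ | h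
      · exact Or.inl ⟨m, by omega, h2⟩
      · exact (step_Cover hX hne hC h).imp_left fun h => ⟨n, by omega, h⟩
  rcases main 4 with ⟨m, h1, W, h2, h3, h4⟩ | h
  · choose! a b ha hb h5 using h4
    refine ⟨W ∪ (Z.image a ∪ Z.image b), fun w hw => ?_, ?_, fun z hz => ?_⟩
    · simp only [Finset.mem_union, Finset.mem_image] at hw
      rcases hw with hw | ⟨z, hz, rfl⟩ | ⟨z, hz, rfl⟩
      exacts [h2 w hw, ha z (hZ z hz), hb z (hZ z hz)]
    · have := Finset.card_union_le W (Z.image a ∪ Z.image b)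
      have := Finset.card_union_le (Z.image a) (Z.image b)
      have := Finset.card_image_le (s := Z) (f := a)
      have := Finset.card_image_le (s := Z) (f := b)
      omega
    · obtain ⟨f, hf, e⟩ := h5 z (hZ z hz)
      change z ∈ Q_Cover _
      rw [e]
      exact mul_mem (mem_Cover
        (Finset.mem_union_right _ (Finset.mem_union_left _ (Finset.mem_image_of_mem a hz)))
        (Finset.mem_union_right _ (Finset.mem_union_right _ (Finset.mem_image_of_mem b hz))))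
        (mono_Cover Finset.subset_union_left hf)
  · have := card_Cover hX h
    omega

end Pool.Agent.MP_a1dcd4_co.SH

end

section

set_option autoImplicit false

namespace Pool.Agent.MP_a1dcd4_co.SH

open Function Subgroup Pool.Agent.MP_a1dcd4_co.OR

section

variable {G : Type} [Group G]

theorem gen_Frob [Finite G] {p : ℕ} {u : G} (hp : p.Prime) (ho : orderOf u = p)
    (hN : (zpowers u).Normal) (hC : ∀ c, c * u = u * c → c ∈ zpowers u) :
    ∃ t : G, ∀ g : G, ∃ k : ℤ, g * (t ^ k)⁻¹ ∈ zpowers u := by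
  have hcard : Nat.card (zpowers u) = p := by rw [Nat.card_zpowers, ho]
  have : Fact (Nat.card (zpowers u)).Prime := ⟨hcard ▸ hp⟩
  have hcyc : IsCyclic (MulAut (zpowers u)) :=
    isCyclic_of_surjective (IsCyclic.mulAutMulEquiv (zpowers u)).symm
      (IsCyclic.mulAutMulEquiv (zpowers u)).symm.surjective
  let f : G →* MulAut (zpowers u) := MulAut.conjNormal
  obtain ⟨⟨σ, t, rfl⟩, hσ⟩ := IsCyclic.exists_generator (α := f.range)
  refine ⟨t, fun g => ?_⟩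
  obtain ⟨k, hk⟩ := mem_zpowers_iff.1 (hσ ⟨f g, g, rfl⟩)
  have hk' : f t ^ k = f g := by simpa using congrArg Subtype.val hk
  refine ⟨k, hC _ ?_⟩
  have h1 : f (g * (t ^ k)⁻¹) = 1 := by rw [map_mul, map_inv, map_zpow, hk', mul_inv_cancel]
  have h2 : g * (t ^ k)⁻¹ * u * (g * (t ^ k)⁻¹)⁻¹ = u := by
    have := congrArg (fun σ : MulAut (zpowers u) => (σ ⟨u, mem_zpowers u⟩ : G)) h1
    exact this
  exact mul_inv_eq_iff_eq_mul.1 h2

theorem comm_Frob {a b c : G} (h : a * b = b * a) (hc : c ∈ zpowers b) : a * c = c * a := by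
  obtain ⟨k, rfl⟩ := mem_zpowers_iff.1 hc
  exact (Commute.zpow_right h k).eq

theorem inf_Frob [Finite G] {p : ℕ} {u s : G} (hp : p.Prime) (ho : orderOf u = p)
    (hC : ∀ c, c * u = u * c → c ∈ zpowers u) (hs : s ∉ zpowers u) :
    zpowers s ⊓ zpowers u = ⊥ := by
  rw [eq_bot_iff]
  intro w hw
  by_contra hw1
  rw [mem_bot] at hw1
  have : Fact p.Prime := ⟨hp⟩
  have hcard : Nat.card (zpowers u) = p := by rw [Nat.card_zpowers, ho]
  have h1 : (⟨u, mem_zpowers u⟩ : zpowers u) ∈ zpowers (⟨w, hw.2⟩ : zpowers u) :=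
    mem_zpowers_of_prime_card hcard (fun h => hw1 (congrArg Subtype.val h))
  obtain ⟨k, hk⟩ := mem_zpowers_iff.1 h1
  have hk' : u ∈ zpowers w := mem_zpowers_iff.2 ⟨k, by simpa using congrArg Subtype.val hk⟩
  exact hs (hC s (comm_Frob (comm_Frob rfl hw.1) hk'))

theorem half_Frob [Finite G] {s : G} (hs : s ≠ 1) : 2 * (zpowers s).index ≤ Nat.card G := by
  rw [← (zpowers s).card_mul_index]
  refine Nat.mul_le_mul_right _ ?_
  have : 1 < Nat.card (zpowers s) := (zpowers s).one_lt_card_iff_ne_bot.2 (by simpa using hs)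
  omega

theorem fix_Frob {U : Subgroup G} {s : G} {φ : G → G} (h : zpowers s ⊓ U = ⊥)
    (h1 : Pres (zpowers s : Set G) φ) (h2 : Gad U s φ) : Fixes φ s := by
  intro g
  obtain ⟨k, hk, e⟩ := h1 g s (mem_zpowers s)
  obtain ⟨w, hw, e'⟩ := h2 g
  have h3 : w = k * s⁻¹ := by
    rw [e, mul_assoc] at e'
    rw [mul_left_cancel e', mul_inv_cancel_right]
  have h4 : w ∈ zpowers s ⊓ U := ⟨h3 ▸ (zpowers s).mul_mem hk ((zpowers s).inv_mem (mem_zpowers s)), hw⟩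
  rw [h, mem_bot] at h4
  rw [e', h4, mul_one]

end

theorem frob (hU : S_UM) : S_Frob := by
  classical
  intro G _ _ p u hp ho hN hC hne
  obtain ⟨t, ht⟩ := gen_Frob hp ho hN hC
  have huU : u ∈ zpowers u := mem_zpowers u
  have ht1 : t ∉ zpowers u := fun h => hne (eq_top_iff.2 fun g _ => by
    obtain ⟨k, hk⟩ := ht g
    simpa using mul_mem hk (zpow_mem h k))
  have ht2 : t * u ∉ zpowers u := fun h => ht1 ((mul_mem_cancel_right huU).1 h)
  have i1 := inf_Frob hp ho hC ht1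
  have i2 := inf_Frob hp ho hC ht2
  have i3 : zpowers t ⊓ zpowers (t * u) = ⊥ := by
    rw [eq_bot_iff, ← i1]
    intro w hw
    refine ⟨hw.1, hC w ?_⟩
    have a : t * w = w * t := comm_Frob rfl hw.1
    have b : t * u * w = w * (t * u) := comm_Frob rfl hw.2
    rw [← mul_assoc, ← a, mul_assoc, mul_assoc] at b
    exact (mul_left_cancel b).symm
  have main := hU.um0 ({zpowers t, zpowers (t * u), zpowers u} : Finset (Subgroup G))
    ({(zpowers u, t), (zpowers u, t * u)} : Finset (Subgroup G × G))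
    (by
      intro K hK K' hK' hne
      simp only [Finset.mem_insert, Finset.mem_singleton] at hK hK'
      rcases hK with rfl | rfl | rfl <;> rcases hK' with rfl | rfl | rfl <;>
        first
          | exact absurd rfl hne
          | assumption
          | (rw [inf_comm]; assumption))
    (by
      intro γ hγ
      simp only [Finset.mem_insert, Finset.mem_singleton] at hγ
      rcases hγ with rfl | rfl <;> simp [cj_eq_of_normal])
    (by
      intro φ _ hP hG z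
      have f1 : Fixes φ t := fix_Frob i1 (hP _ (by simp)) (hG (zpowers u, t) (by simp))
      have f2 : Fixes φ (t * u) :=
        fix_Frob i2 (hP _ (by simp)) (hG (zpowers u, t * u) (by simp))
      have f3 : Fixes φ u := by simpa using f1.inv.mul f2
      have hfz : ∀ v, Fixes φ v → ∀ z ∈ zpowers v, Fixes φ z := by
        intro v hv z hz
        rw [zpowers_eq_closure] at hz
        exact Fixes.closure (fun u hu => by rw [Set.mem_singleton_iff.1 hu]; exact hv) z hz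
      obtain ⟨k, hk⟩ := ht z
      simpa using (hfz u f3 _ hk).mul (hfz t f1 _ (zpow_mem (mem_zpowers t) k)))
  refine main.mono ?_
  have hpos := Nat.pos_of_ne_zero (zpowers u).index_ne_zero_of_finite
  have b1 := half_Frob (s := t) (fun h => ht1 (h ▸ one_mem _))
  have b2 := half_Frob (s := t * u) (fun h => ht2 (h ▸ one_mem _))
  have s1 : ∑ K ∈ ({zpowers t, zpowers (t * u), zpowers u} : Finset (Subgroup G)), K.index ≤
      (zpowers t).index + ((zpowers (t * u)).index + (zpowers u).index) := by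
    have hi : ∀ (a : Subgroup G) (s : Finset (Subgroup G)),
        ∑ K ∈ insert a s, K.index ≤ a.index + ∑ K ∈ s, K.index := by
      intro a s
      by_cases h : a ∈ s
      · rw [Finset.insert_eq_of_mem h]
        omega
      · rw [Finset.sum_insert h]
    refine (hi _ _).trans (Nat.add_le_add_left ((hi _ _).trans ?_) _)
    rw [Finset.sum_singleton]
  have s2 : ∑ γ ∈ ({(zpowers u, t), (zpowers u, t * u)} : Finset (Subgroup G × G)), γ.1.index ≤
      2 * (zpowers u).index := by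
    refine (Finset.sum_le_card_nsmul _ _ (zpowers u).index ?_).trans ?_
    · intro γ hγ
      simp only [Finset.mem_insert, Finset.mem_singleton] at hγ
      rcases hγ with rfl | rfl <;> exact le_rfl
    · exact Nat.mul_le_mul_right _ Finset.card_le_two
  have c1 : ({zpowers t, zpowers (t * u), zpowers u} : Finset (Subgroup G)).card ≤ 3 :=
    Finset.card_le_three
  have c2 : ({(zpowers u, t), (zpowers u, t * u)} : Finset (Subgroup G × G)).card ≤ 2 :=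
    Finset.card_le_two
  have c3 : (({zpowers t, zpowers (t * u), zpowers u} : Finset (Subgroup G)).card +
      ({(zpowers u, t), (zpowers u, t * u)} : Finset (Subgroup G × G)).card + 3) ^ 2 ≤ 8 ^ 2 :=
    Nat.pow_le_pow_left (by omega) 2
  omega

end Pool.Agent.MP_a1dcd4_co.SH

end

section

set_option autoImplicit false

namespace Pool.Agent.MP_a1dcd4_co.SH

open Function Subgroup Pool.Agent.MP_a1dcd4_co.OR

theorem pi_Num (R : ℕ) : ∃ x₀ : ℕ, ∀ x : ℕ, x₀ ≤ x → R * (Nat.primeCounting x + 1) ≤ x := by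
  have h1 := tendsto_natCast_atTop_atTop.eventually
    ((Chebyshev.eventually_primeCounting_le one_pos).and
      ((Real.tendsto_log_atTop.eventually_ge_atTop (2 * R * (Real.log 4 + 1) + 1)).and
        (Filter.eventually_ge_atTop (2 * R : ℝ))))
  obtain ⟨x₀, h⟩ := Filter.eventually_atTop.1 h1
  refine ⟨x₀, fun x hx => ?_⟩
  obtain ⟨a, b, c⟩ := h x hx
  rw [Nat.floor_natCast] at a
  have l4 : 0 ≤ Real.log 4 := Real.log_nonneg (by norm_num)
  have r0 : (0 : ℝ) ≤ R := Nat.cast_nonneg R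
  have x0 : (0 : ℝ) ≤ x := Nat.cast_nonneg x
  have p0 : (0 : ℝ) ≤ Nat.primeCounting x := Nat.cast_nonneg _
  have k0 : 0 ≤ 2 * R * (Real.log 4 + 1) := by positivity
  rw [le_div_iff₀ (by linarith)] at a
  have d : (Nat.primeCounting x : ℝ) * (2 * R) * (Real.log 4 + 1) ≤ x * (Real.log 4 + 1) := by
    have := mul_le_mul_of_nonneg_left b p0
    nlinarith
  have e := le_of_mul_le_mul_right d (by linarith)
  have f : (R : ℝ) * (Nat.primeCounting x + 1) ≤ x := by nlinarith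
  exact_mod_cast f

theorem num : S_Num := by
  intro R
  obtain ⟨x₀, h⟩ := pi_Num R
  refine ⟨x₀ + 3, fun A hA hw => ?_⟩
  have n1 : A.Nonempty := Finset.card_pos.1 (by omega)
  have m1 := A.max'_mem n1
  have c1 := Finset.card_erase_of_mem m1
  have n2 : (A.erase (A.max' n1)).Nonempty := Finset.card_pos.1 (by omega)
  have m2 := Finset.max'_mem _ n2
  set q' := (A.erase (A.max' n1)).max' n2 with hq'
  have b1 : (A.erase (A.max' n1)).card ≤ Nat.primeCounting q' := by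
    rw [← Nat.primesLE_card_eq_primeCounting]
    exact Finset.card_le_card fun p hp => Nat.mem_primesLE.2
      ⟨Finset.le_max' _ p hp, hA p (Finset.mem_of_mem_erase hp)⟩
  have b2 : (A.erase (A.max' n1)).card ≤ q' + 1 := by
    rw [← Finset.card_range (q' + 1)]
    exact Finset.card_le_card fun p hp =>
      Finset.mem_range.2 (Nat.lt_succ_of_le (Finset.le_max' _ p hp))
  have b3 : R * A.card ≤ q' :=
    (Nat.mul_le_mul_left R (by omega)).trans (h q' (by omega))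
  exact ⟨_, m1, q', Finset.mem_of_mem_erase m2, (Finset.mem_erase.1 m2).1.symm,
    b3.trans (A.le_max' _ (Finset.mem_of_mem_erase m2)), b3⟩

end Pool.Agent.MP_a1dcd4_co.SH

end

section

set_option autoImplicit false

namespace Pool.Agent.MP_a1dcd4_co.SH

open Function Subgroup Pool.Agent.MP_a1dcd4_co.OR

section

variable {G : Type} [Group G]

theorem iff_Prop {j : G} (hj : j ^ 2 = 1) (c : G) : Ivt j c ↔ (j * c) ^ 2 = 1 := by
  have h : j⁻¹ = j := inv_eq_of_mul_eq_one_right (by rw [← pow_two, hj])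
  rw [Ivt, h, pow_two, ← mul_assoc, eq_inv_iff_mul_eq_one]

theorem mul_Prop {j a b : G} (ha : Ivt j a) (hb : Ivt j b) : Ivt j (a * b) ↔ a * b = b * a := by
  unfold Ivt at *
  rw [show j⁻¹ * (a * b) * j = (j⁻¹ * a * j) * (j⁻¹ * b * j) by group, ha, hb, ← mul_inv_rev,
    inv_inj, eq_comm]

theorem inv_Prop {j a : G} (ha : Ivt j a) : Ivt j a⁻¹ := by
  unfold Ivt at *
  rw [show j⁻¹ * a⁻¹ * j = (j⁻¹ * a * j)⁻¹ by group, ha]

theorem ii_Prop {g j y : G} (hg : Ivt g y) (hj : Ivt j y) : g * j * y = y * (g * j) := by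
  have h := inv_Prop hj
  unfold Ivt at *
  rw [← hg] at h
  have h2 : y⁻¹ = g⁻¹ * y * g := hg.symm
  calc g * j * y = g * j * (j⁻¹ * (g⁻¹ * y * g) * j) := by rw [h, ← h2, inv_inv]
    _ = _ := by group

theorem cj_Prop {j c y : G} (hj : Ivt j y) (hc : c * y = y * c) : Ivt (j * c) y ∧ Ivt (c * j) y := by
  unfold Ivt at *
  have h1 : c⁻¹ * y * c = y := by rw [mul_assoc, ← hc, inv_mul_cancel_left]
  have h2 : c⁻¹ * y⁻¹ * c = y⁻¹ := by
    rw [← inv_inj]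
    refine Eq.trans (by group) (h1.trans (inv_inv y).symm)
  constructor
  · rw [show (j * c)⁻¹ * y * (j * c) = c⁻¹ * (j⁻¹ * y * j) * c by group, hj, h2]
  · rw [show (c * j)⁻¹ * y * (c * j) = j⁻¹ * (c⁻¹ * y * c) * j by group, h1, hj]

theorem fin_Prop {y j t : G} {C A : Subgroup G} (hj : j ^ 2 = 1) (hy : Ivt j y)
    (hC : ∀ g, g ∈ C ↔ g * y = y * g) (hG : ∀ g, g ∈ C ∨ Ivt g y) (hAC : A ≤ C) (yA : y ∈ A)
    (hA : ∀ a ∈ A, Ivt j a) (tC : t ∈ C) (ht : ¬ Ivt j t) (h2 : ∀ c ∈ C, c ∈ A ∨ t⁻¹ * c ∈ A) :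
    Exc2 y := by
  have tA : t ∉ A := fun h => ht (hA t h)
  have jj : j * j = 1 := by rw [← pow_two, hj]
  have ji : j⁻¹ = j := inv_eq_of_mul_eq_one_right jj
  refine ⟨A, j, t, yA, hj, hA, fun a ha => ?_, (hC t).1 tC, ?_, ?_, fun h => ht ?_, tA, ?_⟩
  · rw [mul_assoc]
    exact (h2 _ (C.mul_mem (hAC ha) tC)).resolve_left fun h => tA ((A.mul_mem_cancel_left ha).1 h)
  · refine (h2 _ (C.pow_mem tC 2)).resolve_right fun h => tA ?_
    rwa [pow_two, inv_mul_cancel_left] at h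
  · have h3 := (cj_Prop hy ((hC t).1 tC)).2
    refine (h2 _ ((hC _).2 (by rw [pow_two]; exact ii_Prop h3 h3))).resolve_right fun h => tA ?_
    have h4 := hA _ h
    rw [Ivt, show j⁻¹ * (t⁻¹ * (t * j) ^ 2) * j = t * (j * j) by rw [pow_two]; group, jj,
      mul_one] at h4
    rw [h4]
    exact A.inv_mem h
  · rw [Ivt, ji, eq_inv_iff_mul_eq_one]
    rw [pow_two, ← mul_assoc] at h
    rw [mul_assoc, mul_assoc, ← mul_assoc t]
    exact mul_eq_one_comm.1 h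
  · have h3 : C ≤ closure (insert j (insert t (A : Set G))) := fun c hc => by
      rcases h2 c hc with h | h
      · exact subset_closure (Or.inr (Or.inr h))
      · rw [← mul_inv_cancel_left t c]
        exact mul_mem (subset_closure (Or.inr (Or.inl rfl))) (subset_closure (Or.inr (Or.inr h)))
    refine eq_top_iff.2 fun g _ => ?_
    rcases hG g with h | h
    · exact h3 h
    · rw [← mul_one g, ← jj, ← mul_assoc]
      exact mul_mem (h3 ((hC _).2 (ii_Prop h hy))) (subset_closure (Or.inl rfl))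

theorem clo_Prop {j : G} {S : Set G} (h1 : ∀ a ∈ S, Ivt j a) (h2 : ∀ a ∈ S, ∀ b ∈ S, a * b = b * a) :
    ∀ a ∈ closure S, Ivt j a := by
  have h3 : closure S ≤ centralizer S := (closure_le _).2 fun a ha b hb => h2 b hb a ha
  have h4 : closure S ≤ centralizer (closure S) :=
    (closure_le _).2 fun a ha b hb => (h3 hb a ha).symm
  intro a ha
  induction ha using closure_induction with
  | mem a ha => exact h1 a ha
  | one => simp [Ivt]
  | mul a b ha hb ia ib => exact (mul_Prop ia ib).2 (h4 hb a ha)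
  | inv a _ ia => exact inv_Prop ia

theorem two_Prop [Finite G] {H A : Subgroup G} (h : H ≤ A) {c : G} (h1 : c ∈ A) (h2 : c ∉ H) :
    2 * Nat.card H ≤ Nat.card A := by
  obtain ⟨k, hk⟩ := card_dvd_of_le h
  have h3 : 0 < Nat.card A := Nat.card_pos
  have h4 : k ≠ 1 := fun e => h2 (eq_of_le_of_card_ge h (by rw [hk, e, mul_one]) ▸ h1)
  have h5 : k ≠ 0 := fun e => by rw [hk, e, mul_zero] at h3; exact lt_irrefl _ h3
  rw [hk, mul_comm]
  exact Nat.mul_le_mul_left _ (by omega)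

theorem star_Prop [Finite G] {y j t : G} {C H : Subgroup G} (hj : j ^ 2 = 1) (hy : Ivt j y)
    (hC : ∀ g, g ∈ C ↔ g * y = y * g) (hG : ∀ g, g ∈ C ∨ Ivt g y) (hHC : H ≤ C) (yH : y ∈ H)
    (hc : Nat.card C ≤ 4 * Nat.card H) (tC : t ∈ C) (tH : t ∉ H) (ht : ¬ Ivt j t)
    (h2 : ∀ c ∈ C, t⁻¹ * c ∉ H → Ivt j c) : Exc2 y := by
  have hH : ∀ a ∈ H, Ivt j a := fun a ha => h2 a (hHC ha) fun h =>
    tH (inv_mem_iff.1 ((H.mul_mem_cancel_right ha).1 h))
  by_cases h3 : ∀ c ∈ C, c ∈ H ∨ t⁻¹ * c ∈ H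
  · exact fin_Prop hj hy hC hG hHC yH hH tC ht h3
  push Not at h3
  obtain ⟨c, cC, cH, ctH⟩ := h3
  have ic := h2 c cC ctH
  have cm : ∀ a ∈ H, c * a = a * c := fun a ha => (mul_Prop ic (hH a ha)).1
    (h2 _ (C.mul_mem cC (hHC ha)) fun h => ctH (by
      rwa [← mul_assoc, H.mul_mem_cancel_right ha] at h))
  have hA := clo_Prop (j := j) (S := insert c (H : Set G))
    (by rintro a (rfl | ha); exacts [ic, hH a ha]) (by
      rintro a (rfl | ha) b (rfl | hb)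
      exacts [rfl, cm b hb, (cm a ha).symm,
        (mul_Prop (hH a ha) (hH b hb)).1 (hH _ (H.mul_mem ha hb))])
  have hAC : closure (insert c (H : Set G)) ≤ C :=
    (closure_le _).2 (by rintro a (rfl | ha); exacts [cC, hHC ha])
  have hHA : H ≤ closure (insert c (H : Set G)) := fun a ha => subset_closure (Or.inr ha)
  have cA : c ∈ closure (insert c (H : Set G)) := subset_closure (Or.inl rfl)
  generalize closure (insert c (H : Set G)) = A at hA hAC hHA cA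
  have tA : t ∉ A := fun h => ht (hA t h)
  have e1 := two_Prop hHA cA cH
  have e2 := two_Prop hAC tC tA
  have e3 := (A.subgroupOf C).card_mul_index
  rw [Nat.card_congr (subgroupOfEquivOfLe hAC).toEquiv] at e3
  have e4 : (A.subgroupOf C).index = 2 :=
    Nat.eq_of_mul_eq_mul_left (Nat.card_pos (α := A)) (by omega)
  refine fin_Prop hj hy hC hG hAC (hHA yH) hA tC ht fun g gC => or_iff_not_imp_left.2 fun gA => ?_
  exact (mul_mem_iff_of_index_two e4 (a := ⟨t⁻¹, C.inv_mem tC⟩) (b := ⟨g, gC⟩)).2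
    ⟨fun h => absurd (inv_mem_iff.1 (mem_subgroupOf.1 h)) tA,
      fun h => absurd (mem_subgroupOf.1 h) gA⟩

end

theorem prop : S_Prop := by
  intro G _ _ y j C _ hj hy hC hG ⟨m, mC, hm⟩ hc hne
  obtain ⟨H, hH⟩ : ∃ H, H = closure
    {p | ∃ a, (a ∈ C ∧ ¬ Ivt j a) ∧ ∃ b, (b ∈ C ∧ ¬ Ivt j b) ∧ p = a⁻¹ * b} := ⟨_, rfl⟩
  rw [← hH] at hne
  have hHC : H ≤ C := by
    rw [hH]
    refine (closure_le _).2 ?_
    rintro _ ⟨a, ha, b, hb, rfl⟩
    exact C.mul_mem (C.inv_mem ha.1) hb.1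
  have hN : ∀ b ∈ C, ¬ Ivt j b → m⁻¹ * b ∈ H := fun b hb hb' => by
    rw [hH]
    exact subset_closure ⟨m, ⟨mC, hm⟩, b, ⟨hb, hb'⟩, rfl⟩
  have yC : y ∈ C := (hC y).2 rfl
  have yH : y ∈ H := by
    rw [← inv_mul_cancel_left m y]
    refine hN _ (C.mul_mem mC yC) fun h => hm ?_
    have h1 := (mul_Prop h (inv_Prop hy)).2 (by
      rw [mul_inv_cancel_right, (hC m).1 mC, inv_mul_cancel_left])
    rwa [mul_inv_cancel_right] at h1
  have hc' : Nat.card C ≤ 4 * Nat.card H := by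
    refine hc.trans (Nat.mul_le_mul_left _ ?_)
    exact Set.ncard_le_ncard_of_injOn (t := (H : Set G)) (fun b => m⁻¹ * b)
      (fun b hb => hN b hb.1 hb.2) (fun _ _ _ _ h => mul_left_cancel h)
  obtain ⟨c, cC, ic, hcm⟩ : ∃ c ∈ C, Ivt j c ∧ c⁻¹ * m ∉ H := by
    by_cases mH : m ∈ H
    · obtain ⟨c, cC, cH⟩ := SetLike.exists_of_lt (lt_of_le_of_ne hHC hne)
      refine ⟨c, cC, by_contra fun h => cH ?_, fun h => cH ?_⟩
      · exact (H.mul_mem_cancel_left (H.inv_mem mH)).1 (hN c cC h)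
      · exact inv_mem_iff.1 ((H.mul_mem_cancel_right mH).1 h)
    · exact ⟨1, C.one_mem, by simp [Ivt], by simpa using mH⟩
  have j1 := (iff_Prop hj c).1 ic
  have e : ∀ x, Ivt (j * c) x ↔ Ivt j (c * x) := fun x => by
    rw [iff_Prop j1, iff_Prop hj, mul_assoc]
  refine star_Prop j1 (cj_Prop hy ((hC c).1 cC)).1 hC hG hHC yH hc'
    (C.mul_mem (C.inv_mem cC) mC) hcm (by rwa [e, mul_inv_cancel_left]) fun x xC hx => ?_
  rw [e]
  refine by_contra fun h => hx ?_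
  rw [mul_inv_rev, inv_inv, mul_assoc]
  exact hN _ (C.mul_mem cC xC) h

end Pool.Agent.MP_a1dcd4_co.SH

end

section

set_option autoImplicit false

namespace Pool.Agent.MP_a1dcd4_co.SH

open Function Subgroup Pool.Agent.MP_a1dcd4_co.OR

theorem big_Q34 {G : Type} [Group G] [Finite G] {H C : Subgroup G} (h : H ≤ C)
    (h2 : 2 * ((C : Set G) \ H).ncard < Nat.card C) : C ≤ H := by
  have h1 := Set.ncard_sdiff_add_ncard_of_subset (show (H : Set G) ⊆ C from h)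
  have e1 : (C : Set G).ncard = Nat.card C := rfl
  have e2 : (H : Set G).ncard = Nat.card H := rfl
  obtain ⟨k, hk⟩ := card_dvd_of_le h
  refine (eq_of_le_of_card_ge h ?_).ge
  rw [e1, e2] at h1
  have h3 : Nat.card H * k < Nat.card H * 2 := by omega
  have h4 := Nat.mul_le_mul_left (Nat.card H) (Nat.le_of_lt_succ (Nat.lt_of_mul_lt_mul_left h3))
  omega

theorem mul_Q34 {G : Type} [Group G] {j u v : G} (hu : Ivt j u) (hv : Ivt j v) :
    j⁻¹ * (u * v) * j = (v * u)⁻¹ := by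
  rw [mul_inv_rev, ← hu, ← hv]
  group

theorem q34 : S_Q34 := by
  intro G _ _ C j h
  have h1 : ∀ u ∈ C, Ivt j u → ∀ v ∈ C, u * v = v * u := fun u hu hj v hv => by
    have h2 : (C : Set G) \ (C ⊓ centralizer {u} : Subgroup G) ⊆
        {c | c ∈ C ∧ ¬ Ivt j c} ∪ (fun x => u⁻¹ * x) '' {c | c ∈ C ∧ ¬ Ivt j c} := by
      rintro w ⟨hw, h3⟩
      by_cases h4 : Ivt j w
      · refine Or.inr ⟨u * w, ⟨mul_mem hu hw, fun h5 => h3 ⟨hw, ?_⟩⟩, inv_mul_cancel_left u w⟩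
        exact mem_centralizer_singleton_iff.2 (inv_injective ((mul_Q34 hj h4).symm.trans h5))
      · exact Or.inl ⟨hw, h4⟩
    have h3 := (Set.ncard_le_ncard h2).trans (Set.ncard_union_le _ _)
    have h4 := Set.ncard_image_le (f := fun x => u⁻¹ * x) (s := {c | c ∈ C ∧ ¬ Ivt j c})
    exact (mem_centralizer_singleton_iff.1 (big_Q34 inf_le_left (by omega) hv).2).symm
  let H : Subgroup G :=
    { carrier := {c | c ∈ C ∧ Ivt j c}
      one_mem' := ⟨one_mem _, by simp [Ivt]⟩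
      mul_mem' := fun {u v} hu hv => ⟨mul_mem hu.1 hv.1, by
        rw [Ivt, mul_Q34 hu.2 hv.2, h1 u hu.1 hu.2 v hv.1]⟩
      inv_mem' := fun {u} hu => ⟨inv_mem hu.1, by
        rw [Ivt, ← congrArg Inv.inv hu.2]
        group⟩ }
  have h2 : (C : Set G) \ H ⊆ {c | c ∈ C ∧ ¬ Ivt j c} := fun w hw =>
    ⟨hw.1, fun h3 => hw.2 ⟨hw.1, h3⟩⟩
  have h3 := Set.ncard_le_ncard h2
  exact fun c hc => (big_Q34 (H := H) (fun _ hx => hx.1) (by omega) hc).2

end Pool.Agent.MP_a1dcd4_co.SH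

end

section

set_option autoImplicit false

namespace Pool.Agent.MP_a1dcd4_co.SH

open Function Subgroup Pool.Agent.MP_a1dcd4_co.OR

section

variable {G : Type} [Group G]

theorem not_ivt_SelC {y g : G} (hy : y ^ 2 ≠ 1) (h : g * y = y * g) : ¬ Ivt g y := fun h' => by
  unfold Ivt at h'
  rw [mul_assoc, ← h, inv_mul_cancel_left] at h'
  exact hy (by rw [pow_two]; exact mul_eq_one_iff_eq_inv.2 h')

theorem mul_ivt_SelC {y g j : G} (h : Ivt g y) (h' : Ivt j y) : g * j * y = y * (g * j) := by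
  unfold Ivt at h h'
  have h2 : j⁻¹ * y⁻¹ * j = y := by
    calc _ = (j⁻¹ * y * j)⁻¹ := by group
      _ = y := by rw [h', inv_inv]
  have : (g * j)⁻¹ * y * (g * j) = y := by
    calc _ = j⁻¹ * (g⁻¹ * y * g) * j := by group
      _ = y := by rw [h, h2]
  calc _ = g * j * ((g * j)⁻¹ * y * (g * j)) := by rw [this]
    _ = _ := by group

theorem ivt_mul_SelC {y c j : G} (h : c * y = y * c) (h' : Ivt j y) : Ivt (j * c) y := by
  unfold Ivt at h' ⊢
  calc _ = c⁻¹ * (j⁻¹ * y * j) * c := by group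
    _ = (c⁻¹ * (y * c))⁻¹ := by rw [h']; group
    _ = _ := by rw [← h, inv_mul_cancel_left]

theorem sq_SelC {c j : G} (hj : j ^ 2 = 1) (h : (c * j) ^ 2 = 1) : Ivt j c := by
  unfold Ivt
  rw [pow_two] at hj h
  rw [inv_eq_of_mul_eq_one_right hj, eq_inv_iff_mul_eq_one, ← mul_eq_one_comm, ← h]
  group

theorem ivt_inv_SelC {c j : G} (h : Ivt j c⁻¹) : Ivt j c := by
  unfold Ivt at h ⊢
  calc _ = (j⁻¹ * c⁻¹ * j)⁻¹ := by group
    _ = c⁻¹ := by rw [h, inv_inv]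

theorem gen_SelC {j : G} (hj : j * j = 1) (Z : Set G) (hZ : closure Z = ⊤) (D : Subgroup G)
    (h1 : ∀ x ∈ D, j * x * j ∈ D) (h2 : ∀ z ∈ Z, z ∈ D ∨ z * j ∈ D) (g : G) :
    g ∈ D ∨ g * j ∈ D := by
  have hg : g ∈ closure Z := by rw [hZ]; trivial
  have hi : j⁻¹ = j := inv_eq_of_mul_eq_one_right hj
  have e : ∀ x : G, j * (j * x) = x := fun x => by rw [← mul_assoc, hj, one_mul]
  induction hg using closure_induction with
  | mem z hz => exact h2 z hz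
  | one => exact Or.inl D.one_mem
  | mul a b _ _ ha hb =>
    rcases ha with ha | ha <;> rcases hb with hb | hb
    · exact Or.inl (D.mul_mem ha hb)
    · exact Or.inr (by rw [mul_assoc]; exact D.mul_mem ha hb)
    · exact Or.inr (by simpa only [mul_assoc, e] using D.mul_mem ha (h1 b hb))
    · exact Or.inl (by simpa only [mul_assoc, e, hj, mul_one] using D.mul_mem ha (h1 _ hb))
  | inv a _ ha =>
    rcases ha with ha | ha
    · exact Or.inl (D.inv_mem ha)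
    · exact Or.inr (by simpa only [mul_inv_rev, hi, mul_assoc, e] using h1 _ (D.inv_mem ha))

end

theorem selC (hQ : S_Q34) (hC : S_Cover) (hP : S_Prop) : S_SelC := by
  classical
  intro G _ _ y j Z hy hZ hj hjy hall
  obtain ⟨C, mC⟩ : ∃ C : Subgroup G, ∀ g, g ∈ C ↔ g * y = y * g :=
    ⟨centralizer {y}, fun g => mem_centralizer_singleton_iff⟩
  have hjj : j * j = 1 := by rw [← pow_two, hj]
  have hall' : ∀ g, g ∈ C ∨ g * j ∈ C := fun g =>
    (hall g).imp (mC g).2 fun h => (mC _).2 (mul_ivt_SelC h hjy)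
  have top : ∀ K : Subgroup G, C ≤ K → j ∈ K → K = ⊤ := fun K h1 h2 => by
    refine eq_top_iff.2 fun g _ => (hall' g).elim (fun h => h1 h) fun h => ?_
    exact (K.mul_mem_cancel_right h2).1 (h1 h)
  by_cases hN : ∃ c ∈ C, ¬ Ivt j c
  swap
  · refine Or.inr (Or.inl ⟨C, j, (mC y).2 rfl, hj, fun a ha => ?_, top _ (fun g hg => ?_) ?_⟩)
    · by_contra h
      exact hN ⟨a, ha, h⟩
    · exact subset_closure (Set.mem_insert_of_mem _ hg)
    · exact subset_closure (Set.mem_insert _ _)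
  have hcard : Nat.card C ≤ 4 * {c | c ∈ C ∧ ¬ Ivt j c}.ncard := by
    by_contra h
    obtain ⟨c, h1, h2⟩ := hN
    exact h2 (hQ G C j (not_le.1 h) c h1)
  by_cases hcl : closure {p | ∃ a, (a ∈ C ∧ ¬ Ivt j a) ∧ ∃ b, (b ∈ C ∧ ¬ Ivt j b) ∧
    p = a⁻¹ * b} = C
  swap
  · exact Or.inr (Or.inr (hP G y j C hy hj hjy mC (fun g => (hall g).imp_left (mC g).2) hN
      hcard hcl))
  left
  have hcj : ∀ c ∈ C, j * c * j ∈ C := fun c hc =>
    (mC _).2 (mul_ivt_SelC (ivt_mul_SelC ((mC c).1 hc) hjy) hjy)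
  let Z1 : Finset G := Z.image fun z => if z ∈ C then z else z * j
  let ZC : Finset G := Z1 ∪ Z1.image fun z => j * z * j
  have hZ1 : ∀ z ∈ Z1, z ∈ C := fun z hz => by
    obtain ⟨x, -, rfl⟩ := Finset.mem_image.1 hz
    split_ifs with h
    · exact h
    · exact (hall' x).resolve_left h
  have hZC : ∀ z ∈ ZC, z ∈ C := fun z hz => by
    rcases Finset.mem_union.1 hz with h | h
    · exact hZ1 z h
    · obtain ⟨x, hx, rfl⟩ := Finset.mem_image.1 h
      exact hcj x (hZ1 x hx)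
  have cZ : ZC.card ≤ 2 * Z.card := by
    have h1 : Z1.card ≤ Z.card := Finset.card_image_le
    have h2 : (Z1.image fun z => j * z * j).card ≤ Z1.card := Finset.card_image_le
    have h3 : ZC.card ≤ _ := Finset.card_union_le _ _
    omega
  have e : ∀ x : G, j * (j * x) = x := fun x => by rw [← mul_assoc, hjj, one_mul]
  have hC1 : C ≤ closure (ZC : Set G) := by
    intro c hc
    have h0 : closure (ZC : Set G) ≤ C := (closure_le _).2 hZC
    refine (gen_SelC hjj _ hZ (closure (ZC : Set G)) (fun x hx => ?_) (fun z hz => ?_)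
      c).resolve_right fun h => ?_
    · induction hx using closure_induction with
      | mem z hz =>
        refine subset_closure ?_
        rcases Finset.mem_union.1 hz with h | h
        · exact Finset.mem_union_right _ (Finset.mem_image_of_mem _ h)
        · obtain ⟨x, hx, rfl⟩ := Finset.mem_image.1 h
          simp only [mul_assoc, e, hjj, mul_one]
          exact Finset.mem_union_left _ hx
      | one => rw [mul_one, hjj]; exact one_mem _
      | mul a b _ _ ha hb => simpa only [mul_assoc, e] using mul_mem ha hb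
      | inv a _ ha =>
        simpa only [mul_inv_rev, inv_eq_of_mul_eq_one_right hjj, mul_assoc] using inv_mem ha
    · have : (if z ∈ C then z else z * j) ∈ closure (ZC : Set G) :=
        subset_closure (Finset.mem_union_left _ (Finset.mem_image_of_mem _ hz))
      split_ifs at this
      exacts [Or.inl this, Or.inr this]
    · exact not_ivt_SelC hy ((mC j).1 ((C.mul_mem_cancel_left hc).1 (h0 h))) hjy
  obtain ⟨W, hW, cW, gW⟩ := hC G C {c | c ∈ C ∧ ¬ Ivt j c} ZC (fun x hx => hx.1) hcard hcl hZC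
  obtain ⟨c₀, hc₀, hc₁⟩ := hN
  let T : Finset G := insert 1 (insert (c₀ * j) (W.image fun w => c₀ * w))
  have mW : ∀ w ∈ W, c₀ * w ∈ T := fun w hw =>
    Finset.mem_insert_of_mem (Finset.mem_insert_of_mem (Finset.mem_image_of_mem _ hw))
  have key : ∀ K : Subgroup G, (∀ a ∈ W, ∀ b ∈ W, (c₀ * a)⁻¹ * (c₀ * b) ∈ K) → C ≤ K := by
    intro K hK
    refine hC1.trans ((closure_le _).2 fun z hz => (closure_le K).2 ?_ (gW z hz))
    rintro _ ⟨a, ha, b, hb, rfl⟩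
    have := hK a ha b hb
    rwa [mul_inv_rev, mul_assoc, inv_mul_cancel_left] at this
  have hT : ∀ t ∈ T, (t ∈ C ∧ (t⁻¹ * (c₀ * j)) ^ 2 ≠ 1) ∨ t = c₀ * j := by
    intro t ht
    rcases Finset.mem_insert.1 ht with rfl | ht
    · exact Or.inl ⟨C.one_mem, fun h => hc₁ (sq_SelC hj (by simpa using h))⟩
    rcases Finset.mem_insert.1 ht with rfl | ht
    · exact Or.inr rfl
    obtain ⟨w, hw, rfl⟩ := Finset.mem_image.1 ht
    refine Or.inl ⟨C.mul_mem hc₀ (hW w hw).1, fun h => (hW w hw).2 (ivt_inv_SelC (sq_SelC hj ?_))⟩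
    simpa only [mul_inv_rev, mul_assoc, inv_mul_cancel_left] using h
  refine ⟨T, ?_, Finset.mem_insert_self _ _, ?_, fun t ht t' ht' h => ?_, fun ⟨c, h1, h2⟩ => ?_⟩
  · have h1 : T.card ≤ _ := Finset.card_insert_le _ _
    have h2 := Finset.card_insert_le (c₀ * j) (W.image fun w => c₀ * w)
    have h3 : (W.image fun w => c₀ * w).card ≤ W.card := Finset.card_image_le
    omega
  · have s : ∀ t ∈ T, t ∈ closure (insert y (T : Set G)) := fun t ht =>
      subset_closure (Set.mem_insert_of_mem _ ht)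
    have h1 := key _ fun a ha b hb => mul_mem (inv_mem (s _ (mW a ha))) (s _ (mW b hb))
    exact top _ h1 ((mul_mem_cancel_left (h1 hc₀)).1
      (s _ (Finset.mem_insert_of_mem (Finset.mem_insert_self _ _))))
  · rcases hT t ht with h1 | rfl <;> rcases hT t' ht' with h2 | rfl
    · exact absurd h (not_ivt_SelC hy ((mC _).1 (C.mul_mem (C.inv_mem h1.1) h2.1)))
    · exact h1.2
    · refine fun h3 => h2.2 ?_
      rw [← inv_eq_one, ← inv_pow, mul_inv_rev, inv_inv, h3]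
    · exact absurd h (not_ivt_SelC hy (by simp))
  · by_contra h
    refine h2 (key _ (fun a ha b hb => ?_) ((mC c).2 h1))
    by_contra h3
    exact h ⟨_, mW a ha, _, mW b hb, (mC _).1 (C.mul_mem (C.inv_mem (C.mul_mem hc₀ (hW a ha).1))
      (C.mul_mem hc₀ (hW b hb).1)), h3⟩

end Pool.Agent.MP_a1dcd4_co.SH

end

section

/-!
Trivial intersection systems inside a large elementary commutative subgroup.
-/

set_option autoImplicit false

namespace Pool.Agent.MP_a1dcd4_co.SH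

open Function Subgroup Pool.Agent.MP_a1dcd4_co.OR

section

variable {G : Type} [Group G] [Finite G]

theorem two_TIE (s : G) (K : Subgroup G) : ∃ B : Finset G, B.card ≤ 2 * Nat.card K ∧
    ∀ W : Subgroup G, (∀ x ∈ W, x ∈ B → x = 1) → ∀ W', W' = W ∨ W' = cj W s → W' ⊓ K = ⊥ := by
  classical
  have hc : ∀ L : Subgroup G, (Set.toFinite (L : Set G)).toFinset.card = Nat.card L := fun L => by
    rw [← Set.ncard_eq_toFinset_card (L : Set G)]
    rfl
  refine ⟨(Set.toFinite (K : Set G)).toFinset ∪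
    (Set.toFinite ((cj K s⁻¹ : Subgroup G) : Set G)).toFinset, ?_, fun W hW W' h => ?_⟩
  · refine (Finset.card_union_le _ _).trans ?_
    rw [hc, hc, card_cj, two_mul]
  · rw [eq_bot_iff]
    rintro x ⟨h1, h2⟩
    rw [mem_bot]
    rcases h with rfl | rfl
    · exact hW x h1 (Finset.mem_union_left _ ((Set.Finite.mem_toFinset _).2 h2))
    · have := hW _ (mem_cj.1 h1) (Finset.mem_union_right _ ((Set.Finite.mem_toFinset _).2
        (mem_cj.2 (by simpa [mul_assoc] using h2))))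
      simpa using this

theorem fam_TIE (s : G) (q : ℕ) (Γ : Finset (G × Subgroup G × Subgroup G))
    (h : ∀ γ ∈ Γ, Nat.card γ.2.1 = q ∧ Nat.card γ.2.2 = q) :
    ∃ B : Finset G, B.card ≤ 8 * Γ.card * q ∧
      ∀ W : Subgroup G, (∀ x ∈ W, x ∈ B → x = 1) → ∀ W', W' = W ∨ W' = cj W s →
        ∀ γ ∈ Γ, ∀ K, InFam γ K → W' ⊓ K = ⊥ := by
  classical
  choose f f1 f2 using two_TIE s
  refine ⟨Γ.biUnion fun γ => (f γ.2.1 ∪ f γ.2.2) ∪ (f (cj γ.2.1 γ.1) ∪ f (cj γ.2.2 γ.1)), ?_,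
    fun W hW W' hW' γ hγ K hK => f2 K W (fun x hx hb => hW x hx ?_) W' hW'⟩
  · refine (Finset.card_biUnion_le_card_mul _ _ (8 * q) fun γ hγ => ?_).trans (le_of_eq (by ring))
    have a1 := f1 γ.2.1
    have a2 := f1 γ.2.2
    have a3 := f1 (cj γ.2.1 γ.1)
    have a4 := f1 (cj γ.2.2 γ.1)
    rw [card_cj] at a3 a4
    rw [(h γ hγ).1] at a1 a3
    rw [(h γ hγ).2] at a2 a4
    refine (Finset.card_union_le _ _).trans
      ((Nat.add_le_add (Finset.card_union_le _ _) (Finset.card_union_le _ _)).trans ?_)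
    omega
  · refine Finset.mem_biUnion.2 ⟨γ, hγ, ?_⟩
    simp only [Finset.mem_union]
    rcases hK with rfl | rfl | rfl | rfl
    exacts [Or.inl (Or.inl hb), Or.inl (Or.inr hb), Or.inr (Or.inl hb), Or.inr (Or.inr hb)]

omit [Finite G] in
theorem pair_TIE {s : G} {W K K' : Subgroup G} (h : cj W s = W ∨ W ⊓ cj W s = ⊥)
    (h1 : K = W ∨ K = cj W s) (h2 : K' = W ∨ K' = cj W s) : K = K' ∨ K ⊓ K' = ⊥ := by
  rcases h1 with rfl | rfl <;> rcases h2 with rfl | rfl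
  · exact Or.inl rfl
  · exact h.imp Eq.symm id
  · exact h.imp id fun e => by rw [inf_comm, e]
  · exact Or.inl rfl

end

theorem tie (h : S_TI1) : S_TIE := by
  classical
  intro G _ _ p k E Z hp hE hc
  suffices H : ∀ Y : Finset G, Y.card ≤ Z.card →
      ∃ Γ : Finset (G × Subgroup G × Subgroup G), (∀ s ∈ Y, ∃ γ ∈ Γ, γ.1 = s) ∧
        Γ.card ≤ Y.card ∧ TI Γ ∧ ∀ γ ∈ Γ, Nat.card γ.2.1 = p ^ k ∧ Nat.card γ.2.2 = p ^ k from
    H Z le_rfl
  intro Y
  induction Y using Finset.induction_on with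
  | empty => exact fun _ => ⟨∅, by simp, by simp, ⟨by simp, by simp⟩, by simp⟩
  | insert s Y hs ih =>
    intro hY
    rw [Finset.card_insert_of_notMem hs] at hY ⊢
    obtain ⟨Γ, g1, g2, g3, g4⟩ := ih (by omega)
    have hq : 0 < p ^ k := pow_pos hp.pos k
    have hm : Γ.card + 1 ≤ Z.card := by omega
    have hβ : 2 * p ^ (3 * k + 3) * (8 * Z.card * p ^ k + 1) ≤ Nat.card E := by
      refine le_trans ?_ hc
      have a1 : 8 * Z.card * p ^ k + 1 ≤ 9 * Z.card * p ^ k := by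
        have : 0 < Z.card * p ^ k := Nat.mul_pos (by omega) hq
        nlinarith
      calc 2 * p ^ (3 * k + 3) * (8 * Z.card * p ^ k + 1)
          ≤ 2 * p ^ (3 * k + 3) * (9 * Z.card * p ^ k) := Nat.mul_le_mul_left _ a1
        _ = 18 * Z.card * p ^ (4 * k + 3) := by ring
    have hΓ : (Γ.card + 1) * p ^ k ≤ Z.card * p ^ k := Nat.mul_le_mul_right _ hm
    obtain ⟨B, b1, b2⟩ := fam_TIE s (p ^ k) Γ g4
    obtain ⟨U, -, u2, u3, u4⟩ := h G p k (8 * Z.card * p ^ k) E s B hp hE (by nlinarith) hβ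
    obtain ⟨C, c1, c2⟩ := two_TIE s U
    obtain ⟨D, d1, d2⟩ := two_TIE s (cj U s)
    rw [card_cj] at d1
    rw [u2] at c1 d1
    obtain ⟨V, -, v2, v3, v4⟩ := h G p k (8 * Z.card * p ^ k) E s (B ∪ (C ∪ D)) hp hE (by
      have a1 := Finset.card_union_le B (C ∪ D)
      have a2 := Finset.card_union_le C D
      nlinarith) hβ
    have vB := b2 V fun x hx hb => v3 x hx (Finset.mem_union_left _ hb)
    have vC := c2 V fun x hx hb =>
      v3 x hx (Finset.mem_union_right _ (Finset.mem_union_left _ hb))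
    have vD := d2 V fun x hx hb =>
      v3 x hx (Finset.mem_union_right _ (Finset.mem_union_right _ hb))
    have uB := b2 U u3
    have hnew : ∀ K, InFam (s, U, V) K → (K = U ∨ K = cj U s) ∨ (K = V ∨ K = cj V s) := by
      rintro K (e | e | e | e)
      exacts [Or.inl (Or.inl e), Or.inr (Or.inl e), Or.inl (Or.inr e), Or.inr (Or.inr e)]
    have hVU : ∀ K K', (K = V ∨ K = cj V s) → (K' = U ∨ K' = cj U s) → K ⊓ K' = ⊥ := by
      rintro K K' e (rfl | rfl)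
      exacts [vC K e, vD K e]
    have hold : ∀ K, InFam (s, U, V) K → ∀ γ ∈ Γ, ∀ K', InFam γ K' → K ⊓ K' = ⊥ :=
      fun K e => (hnew K e).elim (uB K) (vB K)
    refine ⟨insert (s, U, V) Γ, fun t ht => ?_, (Finset.card_insert_le _ _).trans (by omega),
      ⟨fun γ hγ => ?_, fun γ hγ γ' hγ' K K' e e' => ?_⟩, fun γ hγ => ?_⟩
    · rcases Finset.mem_insert.1 ht with rfl | ht
      · exact ⟨_, Finset.mem_insert_self _ _, rfl⟩
      · obtain ⟨γ, a, b⟩ := g1 t ht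
        exact ⟨γ, Finset.mem_insert_of_mem a, b⟩
    · rcases Finset.mem_insert.1 hγ with rfl | hγ
      · rw [inf_comm]
        exact vC V (Or.inl rfl)
      · exact g3.1 γ hγ
    · rcases Finset.mem_insert.1 hγ with rfl | hγ <;>
        rcases Finset.mem_insert.1 hγ' with rfl | hγ'
      · rcases hnew K e with a | a <;> rcases hnew K' e' with a' | a'
        · exact pair_TIE u4 a a'
        · exact Or.inr (by rw [inf_comm]; exact hVU K' K a' a)
        · exact Or.inr (hVU K K' a a')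
        · exact pair_TIE v4 a a'
      · exact Or.inr (hold K e γ' hγ' K' e')
      · exact Or.inr (by rw [inf_comm]; exact hold K' e' γ hγ K e)
      · exact g3.2 γ hγ γ' hγ' K K' e e'
    · rcases Finset.mem_insert.1 hγ with rfl | hγ
      · exact ⟨u2, v2⟩
      · exact g4 γ hγ

end Pool.Agent.MP_a1dcd4_co.SH

end

section

set_option autoImplicit false
set_option linter.style.haveILetI false

namespace Pool.Agent.MP_a1dcd4_co.SH

open Function Subgroup Pool.Agent.MP_a1dcd4_co.OR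

section

variable {G ι : Type} [Group G] {Kf : ι → Subgroup G}

/-- the line of type `i` with base `g` -/
def mkL_UM (Kf : ι → Subgroup G) (i : ι) (g : G) : Σ i, G ⧸ Kf i := ⟨i, (g : G ⧸ Kf i)⟩

theorem mkL_eq_UM {i i' : ι} {g g' : G} :
    mkL_UM Kf i g = mkL_UM Kf i' g' ↔ i = i' ∧ g⁻¹ * g' ∈ Kf i := by
  constructor
  · intro h
    obtain rfl : i = i' := congrArg Sigma.fst h
    exact ⟨rfl, QuotientGroup.eq.1 (eq_of_heq (Sigma.mk.inj_iff.1 h).2)⟩
  · rintro ⟨rfl, h⟩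
    unfold mkL_UM
    rw [QuotientGroup.eq.2 h]

theorem mkL_surj_UM (l : Σ i, G ⧸ Kf i) : ∃ i g, l = mkL_UM Kf i g := by
  obtain ⟨i, q⟩ := l
  obtain ⟨g, rfl⟩ := QuotientGroup.mk_surjective q
  exact ⟨i, g, rfl⟩

theorem smul_mkL_UM (x : G) (i : ι) (g : G) : x • mkL_UM Kf i g = mkL_UM Kf i (x * g) := rfl

/-- incidence -/
def inc_UM (Kf : ι → Subgroup G) (Sf : ι → Set G) (x : G) (l : Σ i, G ⧸ Kf i) : Prop :=
  ∃ g, l = mkL_UM Kf l.1 g ∧ g⁻¹ * x ∈ Sf l.1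

theorem inc_mkL_UM {Sf : ι → Set G} (h : ∀ i, ∀ k ∈ Kf i, ∀ s ∈ Sf i, k * s ∈ Sf i)
    {x g : G} {i : ι} : inc_UM Kf Sf x (mkL_UM Kf i g) ↔ g⁻¹ * x ∈ Sf i := by
  refine ⟨?_, fun hx => ⟨g, rfl, hx⟩⟩
  rintro ⟨g', h1, h2⟩
  have := h i _ (mkL_eq_UM.1 h1).2 _ h2
  simpa [mul_assoc] using this

end

theorem um (h : S_Abs) : S_UM := by
  classical
  intro G _ _ KK Γ K0 U S mn du c1 c2 hPW hΓ hmn hdu hrig
  let ι := PLift mn ⊕ {K // K ∈ KK}
  let Kf : ι → Subgroup G := Sum.elim (fun _ => K0) Subtype.val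
  let Sf : ι → Set G := Sum.elim (fun _ => S) fun K => (K.1 : Set G)
  let J := {γ : {γ // γ ∈ Γ} // γ.1.2 ∉ γ.1.1} ⊕ PLift du
  let src : J → ι → Prop := Sum.elim (fun γ i => i = Sum.inr ⟨γ.1.1.1, (hΓ _ γ.1.2).1⟩)
    fun _ i => ∃ a, i = Sum.inl a
  let tgt : J → ι := Sum.elim (fun γ => Sum.inr ⟨cj γ.1.1.1 γ.1.1.2, (hΓ _ γ.1.2).2⟩)
    fun a => Sum.inr ⟨U, (hdu a.down).2.1⟩
  let sh : J → G := Sum.elim (fun γ => γ.1.1.2) fun _ => 1
  haveI : Fintype (PLift mn) := Fintype.ofFinite _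
  haveI : Fintype (PLift du) := Fintype.ofFinite _
  have hKS : ∀ i, ∀ k ∈ Kf i, ∀ s ∈ Sf i, k * s ∈ Sf i := by
    rintro (a | K) k hk s hs
    · exact (hmn a.down).2.1 k hk s hs
    · exact K.1.mul_mem hk hs
  have q : ∀ a b c : G, (a⁻¹ * b)⁻¹ * (a⁻¹ * c) = b⁻¹ * c := fun a b c => by group
  have key := h G (Σ i, G ⧸ Kf i) {K // K ∈ KK} J (inc_UM Kf Sf) (fun l => l.1.getRight?)
    (fun j m => m.1 = tgt j)
    (fun j l m => ∃ g i, src j i ∧ l = mkL_UM Kf i g ∧ m = mkL_UM Kf (tgt j) (g * sh j))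
    (by
      intro g x l hl
      obtain ⟨i, a, rfl⟩ := mkL_surj_UM l
      rw [smul_mkL_UM, inc_mkL_UM hKS]
      simpa [mul_assoc] using (inc_mkL_UM hKS).1 hl)
    (fun g l => rfl) (fun g j m hm => hm)
    (by
      rintro x j l m ⟨g, i, h1, rfl, rfl⟩
      exact ⟨x * g, i, h1, rfl, by rw [smul_mkL_UM, mul_assoc]⟩)
    (by
      rintro j l m ⟨g, i, -, -, rfl⟩
      rfl)
    (by
      intro x y l m h1 h2 h3 h4
      obtain ⟨i, a, rfl⟩ := mkL_surj_UM l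
      obtain ⟨k, b, rfl⟩ := mkL_surj_UM m
      rw [inc_mkL_UM hKS] at h1 h2 h3 h4
      rcases i with i | K <;> rcases k with k | K'
      · rcases (hmn i.down).2.2.1 _ h1 _ h2 _ h3 _ h4 (by rw [q, q]) with e | e
        · exact Or.inl (mul_left_cancel e)
        · refine Or.inr (mkL_eq_UM.2 ⟨by rw [Subsingleton.elim i k], ?_⟩)
          simpa [Kf, mul_assoc] using e
      · refine Or.inl (mul_left_cancel ((hmn i.down).2.2.2.2 K'.1 K'.2 _ h1 _ h2 ?_))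
        rw [q, ← q b]
        exact K'.1.mul_mem (K'.1.inv_mem h3) h4
      · refine Or.inl (mul_left_cancel ((hmn k.down).2.2.2.2 K.1 K.2 _ h3 _ h4 ?_))
        rw [q, ← q a]
        exact K.1.mul_mem (K.1.inv_mem h1) h2
      · by_cases e : K = K'
        · subst e
          refine Or.inr (mkL_eq_UM.2 ⟨rfl, ?_⟩)
          simpa [Kf, mul_assoc] using K.1.mul_mem h1 (K.1.inv_mem h3)
        · left
          have m1 : x⁻¹ * y ∈ K.1 ⊓ K'.1 :=
            ⟨q a x y ▸ K.1.mul_mem (K.1.inv_mem h1) h2,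
              q b x y ▸ K'.1.mul_mem (K'.1.inv_mem h3) h4⟩
          rw [hPW _ K.2 _ K'.2 fun e' => e (Subtype.ext e'), mem_bot] at m1
          exact inv_mul_eq_one.1 m1)
    (by
      intro K x l m h1 h2 h3 h4
      obtain ⟨i, a, rfl⟩ := mkL_surj_UM l
      obtain ⟨k, b, rfl⟩ := mkL_surj_UM m
      obtain rfl : i = Sum.inr K := Sum.getRight?_eq_some_iff.1 h1
      obtain rfl : k = Sum.inr K := Sum.getRight?_eq_some_iff.1 h2
      rw [inc_mkL_UM hKS] at h3 h4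
      refine mkL_eq_UM.2 ⟨rfl, ?_⟩
      simpa [Kf, mul_assoc] using K.1.mul_mem h3 (K.1.inv_mem h4))
    (by
      rintro (γ | a) l m ⟨g, i, h1, rfl, rfl⟩ e
      · obtain rfl : i = Sum.inr ⟨γ.1.1.1, (hΓ _ γ.1.2).1⟩ := h1
        exact γ.2 (by simpa [Kf, sh] using (mkL_eq_UM.1 e).2)
      · obtain ⟨b, rfl⟩ := h1
        cases (mkL_eq_UM.1 e).1)
    (by
      rintro (γ | a) l l' m ⟨g, i, h1, rfl, rfl⟩ ⟨g', i', h1', rfl, e⟩
      · obtain rfl : i = Sum.inr ⟨γ.1.1.1, (hΓ _ γ.1.2).1⟩ := h1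
        obtain rfl : i' = Sum.inr ⟨γ.1.1.1, (hΓ _ γ.1.2).1⟩ := h1'
        refine Or.inl (mkL_eq_UM.2 ⟨rfl, ?_⟩)
        have e1 : (g * γ.1.1.2)⁻¹ * (g' * γ.1.1.2) ∈ cj γ.1.1.1 γ.1.1.2 := (mkL_eq_UM.1 e).2
        simpa [Kf, mul_assoc] using mem_cj.1 e1
      · obtain ⟨b, rfl⟩ := h1
        obtain ⟨b', rfl⟩ := h1'
        have e1 : (g * 1)⁻¹ * (g' * 1) ∈ U := (mkL_eq_UM.1 e).2
        rw [mul_one, mul_one] at e1
        refine or_iff_not_imp_left.2 fun hne => ⟨rfl, fun x h2 h3 => hne ?_, ?_⟩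
        · rw [inc_mkL_UM hKS] at h2 h3
          refine mkL_eq_UM.2 ⟨by rw [Subsingleton.elim b b'], ?_⟩
          simpa [Kf, mul_assoc] using
            (hdu a.down).2.2.2 _ h2 _ h3 (by simpa [mul_assoc] using e1)
        · rintro (γ | a') m' ⟨g1, i1, h2, h3, rfl⟩ -
          · obtain rfl : i1 = Sum.inr ⟨γ.1.1.1, (hΓ _ γ.1.2).1⟩ := h2
            cases (mkL_eq_UM.1 h3).1
          · refine ⟨by rw [Subsingleton.elim a a'], mkL_eq_UM.2 ⟨rfl, ?_⟩⟩
            have := (hdu a.down).2.2.1 (K0.inv_mem (mkL_eq_UM.1 h3).2)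
            change (g1 * 1)⁻¹ * (g * 1) ∈ U
            simpa using this)
    (by
      intro l
      obtain ⟨i | K, a, rfl⟩ := mkL_surj_UM l
      · obtain ⟨s, hs, t, ht, hst⟩ := (hmn i.down).2.2.2.1
        refine ⟨a * s, (inc_mkL_UM hKS).2 (by simpa [Sf] using hs), fun _ => ⟨a * t, fun e => ?_,
          (inc_mkL_UM hKS).2 (by simpa [Sf] using ht)⟩⟩
        exact hst (mul_left_cancel e).symm
      · refine ⟨a, (inc_mkL_UM hKS).2 ?_, fun e => by cases e⟩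
        rw [inv_mul_cancel]
        exact K.1.one_mem)
    (by
      intro φ ψ hφ hi ht hρ
      have hψ : ∀ (K : {K // K ∈ KK}) g,
          ψ (mkL_UM Kf (Sum.inr K) g) = mkL_UM Kf (Sum.inr K) (φ g) := by
        intro K g
        have h1 := ht (mkL_UM Kf (Sum.inr K) g)
        have h2 := hi g (mkL_UM Kf (Sum.inr K) g) ((inc_mkL_UM hKS).2 (by
          rw [inv_mul_cancel]
          exact K.1.one_mem))
        obtain ⟨i, a, e⟩ := mkL_surj_UM (ψ (mkL_UM Kf (Sum.inr K) g))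
        rw [e] at h1 h2 ⊢
        obtain rfl : i = Sum.inr K := Sum.getRight?_eq_some_iff.1 h1
        exact mkL_eq_UM.2 ⟨rfl, (inc_mkL_UM hKS).1 h2⟩
      have hP : ∀ K ∈ KK, Pres (K : Set G) φ := by
        intro K hK g s hs
        have h2 := hi (g * s) (mkL_UM Kf (Sum.inr ⟨K, hK⟩) g)
          ((inc_mkL_UM hKS).2 (by simpa [Sf] using hs))
        rw [hψ, inc_mkL_UM hKS] at h2
        exact ⟨_, h2, by simp⟩
      refine hrig φ hφ hP (fun γ hγ g => ?_) fun hm g => ?_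
      · by_cases hs : γ.2 ∈ γ.1
        · obtain ⟨w, hw, e⟩ := hP γ.1 (hΓ γ hγ).1 g γ.2 hs
          exact ⟨w * γ.2⁻¹, γ.1.mul_mem hw (γ.1.inv_mem hs), by simp [e, mul_assoc]⟩
        · obtain ⟨a, i, h1, h2, h3⟩ := hρ (Sum.inl ⟨⟨γ, hγ⟩, hs⟩) _ _ ⟨g, _, rfl, rfl, rfl⟩
          obtain rfl : i = Sum.inr ⟨γ.1, (hΓ _ hγ).1⟩ := h1
          have e1 : (φ g)⁻¹ * a ∈ γ.1 := (mkL_eq_UM.1 ((hψ _ _).symm.trans h2)).2
          have e2 : (φ (g * γ.2))⁻¹ * (a * γ.2) ∈ cj γ.1 γ.2 :=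
            (mkL_eq_UM.1 ((hψ _ _).symm.trans h3)).2
          refine ⟨_, γ.1.mul_mem e1 (γ.1.inv_mem (mem_cj.1 e2)), by group⟩
      · have hl : ∀ a, ψ (mkL_UM Kf (Sum.inl ⟨hm⟩) g) = mkL_UM Kf (Sum.inl ⟨hm⟩) a →
            ∀ s ∈ S, a⁻¹ * φ (g * s) ∈ S := by
          intro a e s hs
          have h2 := hi (g * s) (mkL_UM Kf (Sum.inl ⟨hm⟩) g)
            ((inc_mkL_UM hKS).2 (by simpa [Sf] using hs))
          rwa [e, inc_mkL_UM hKS] at h2
        by_cases hd : du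
        · obtain ⟨a, i, ⟨b, rfl⟩, h2, h3⟩ :=
            hρ (Sum.inr ⟨hd⟩) _ _ ⟨g, Sum.inl ⟨hm⟩, ⟨_, rfl⟩, rfl, rfl⟩
          refine ⟨a, hl a h2, fun _ => ?_⟩
          have e2 : (φ (g * 1))⁻¹ * (a * 1) ∈ U := (mkL_eq_UM.1 ((hψ _ _).symm.trans h3)).2
          simpa using U.inv_mem e2
        · have h1 := ht (mkL_UM Kf (Sum.inl ⟨hm⟩) g)
          obtain ⟨i | K, a, e⟩ := mkL_surj_UM (ψ (mkL_UM Kf (Sum.inl ⟨hm⟩) g))
          · exact ⟨a, hl a e, fun h => (hd h).elim⟩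
          · rw [e] at h1
            cases h1)
  refine key.mono ?_
  have p1 : ∀ (P : Prop) [Fintype (PLift P)] (a c : ℕ), (P → a ≤ c) →
      ∑ _i : PLift P, a ≤ c := by
    intro P _ a c hc
    by_cases hP : P
    · haveI : Unique (PLift P) := ⟨⟨⟨hP⟩⟩, fun _ => Subsingleton.elim _ _⟩
      simpa using hc hP
    · haveI : IsEmpty (PLift P) := ⟨fun a => hP a.down⟩
      simp
  have e1 : Nat.card (Σ i, G ⧸ Kf i) ≤ c1 + ∑ K ∈ KK, K.index := by
    rw [Nat.card_sigma, Fintype.sum_sum_type, ← Finset.sum_coe_sort KK]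
    exact add_le_add (p1 mn K0.index c1 fun a => (hmn a).1) le_rfl
  have e2 : ∑ j : J, Nat.card {m : Σ i, G ⧸ Kf i // m.1 = tgt j} ≤
      ∑ γ ∈ Γ, γ.1.index + c2 := by
    have : ∀ j : J, Nat.card {m : Σ i, G ⧸ Kf i // m.1 = tgt j} = (Kf (tgt j)).index :=
      fun j => Nat.card_congr (Equiv.sigmaSubtype (tgt j))
    simp only [this]
    rw [Fintype.sum_sum_type, ← Finset.sum_coe_sort Γ]
    refine add_le_add ?_ (p1 du U.index c2 fun a => (hdu a).1)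
    calc _ = ∑ γ : {γ : {γ // γ ∈ Γ} // γ.1.2 ∉ γ.1.1}, γ.1.1.1.index :=
          Finset.sum_congr rfl fun γ _ => index_cj _ _
      _ = ∑ γ ∈ Finset.univ.filter fun γ : {γ // γ ∈ Γ} => γ.1.2 ∉ γ.1.1, γ.1.1.index :=
          (Finset.sum_subtype _ (by simp) fun γ : {γ // γ ∈ Γ} => γ.1.1.index).symm
      _ ≤ _ := Finset.sum_le_sum_of_subset (Finset.filter_subset _ _)
  have e3 : Fintype.card J ≤ Γ.card + 1 := by
    rw [Fintype.card_sum]
    refine add_le_add ((Fintype.card_subtype_le _).trans (by simp)) ?_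
    exact Fintype.card_le_one_iff_subsingleton.2 inferInstance
  have e4 : (Fintype.card {K // K ∈ KK} + Fintype.card J + 2) ^ 2 ≤
      (KK.card + Γ.card + 3) ^ 2 := by
    rw [Fintype.card_coe]
    exact Nat.pow_le_pow_left (by omega) 2
  omega

end Pool.Agent.MP_a1dcd4_co.SH

end

section

/-! A window of exponents that no element of a finite set crosses. -/

set_option autoImplicit false

namespace Pool.Agent.MP_a1dcd4_co.SH

open Function Subgroup Pool.Agent.MP_a1dcd4_co.OR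

theorem pow_Win {G : Type} [Group G] {d e : G} (h : Ivt d e) (c : ℕ) : Ivt d (e ^ c) := by
  unfold Ivt at *
  have h1 : (d⁻¹ * e * d⁻¹⁻¹) ^ c = d⁻¹ * e ^ c * d⁻¹⁻¹ := conj_pow
  rw [inv_inv] at h1
  rw [← h1, h, inv_pow]

theorem mono_Win {G : Type} [Group G] {d x : G} {p i j : ℕ} (h : Ivt d (x ^ p ^ i)) (hij : i ≤ j) :
    Ivt d (x ^ p ^ j) := by
  obtain ⟨c, rfl⟩ := Nat.exists_eq_add_of_le hij
  rw [pow_add, pow_mul]
  exact pow_Win h _

theorem card_Win {G : Type} [Group G] {x : G} {p k j : ℕ} (hp : p.Prime) (hx : orderOf x = p ^ k)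
    (hj : j ≤ k) : Nat.card (zpowers (x ^ p ^ j)) = p ^ (k - j) := by
  rw [Nat.card_zpowers, orderOf_pow_of_dvd (pow_ne_zero _ hp.ne_zero) (hx ▸ pow_dvd_pow p hj), hx,
    Nat.pow_div hj hp.pos]

theorem sub_Win {G : Type} [Group G] [Finite G] {d x e : G} {p k i g : ℕ} (hp : p.Prime)
    (hx : orderOf x = p ^ k) (hd : ¬ Ivt d (x ^ p ^ (i + g))) (he : e ∈ zpowers (x ^ p ^ i))
    (hi : Ivt d e) : e ∈ zpowers (x ^ p ^ (i + g + 1)) := by
  obtain ⟨c, rfl⟩ := mem_powers_iff_mem_zpowers.2 he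
  simp only at hi ⊢
  by_cases hc : p ^ (g + 1) ∣ c
  · obtain ⟨b, rfl⟩ := hc
    rw [pow_mul, ← pow_mul x, ← pow_add, ← add_assoc]
    exact npow_mem_zpowers _ _
  · exfalso
    have h0 : c ≠ 0 := by
      rintro rfl
      exact hc (dvd_zero _)
    obtain ⟨v, b, hb, rfl⟩ := Nat.exists_eq_pow_mul_and_not_dvd h0 p hp.ne_one
    have hv : v ≤ g := by
      by_contra h
      exact hc (dvd_mul_of_dvd_left (pow_dvd_pow p (by omega)) _)
    rw [pow_mul, ← pow_mul x, ← pow_add] at hi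
    have h1 : b.Coprime (orderOf (x ^ p ^ (i + v))) :=
      Nat.Coprime.coprime_dvd_right (hx ▸ orderOf_pow_dvd _)
        (Nat.Coprime.pow_right k ((Nat.Prime.coprime_iff_not_dvd hp).2 hb).symm)
    obtain ⟨m, hm⟩ := exists_pow_eq_self_of_coprime h1
    have h2 := pow_Win hi m
    rw [hm] at h2
    exact hd (mono_Win h2 (by omega))

theorem win : S_Win := by
  intro G _ _ p k g x F hp hx hk
  have key : ∃ w ∈ Finset.range (F.card + 1), ∀ d ∈ F,
      Ivt d (x ^ p ^ (w * (g + 3))) ∨ ¬ Ivt d (x ^ p ^ (w * (g + 3) + 2 + g)) := by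
    by_contra hc
    push Not at hc
    choose! f hf using hc
    have lt : ∀ a ∈ Finset.range (F.card + 1), ∀ b ∈ Finset.range (F.card + 1), a < b →
        f a ≠ f b := by
      intro a ha b hb hab e
      refine (hf b hb).2.1 (mono_Win (e ▸ (hf a ha).2.2) ?_)
      have := Nat.mul_le_mul_right (g + 3) (Nat.succ_le_of_lt hab)
      rw [Nat.succ_mul] at this
      omega
    obtain ⟨a, ha, b, hb, hab, e⟩ := Finset.exists_ne_map_eq_of_card_lt_of_maps_to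
      (s := Finset.range (F.card + 1)) (t := F) (by simp) (f := f) fun a ha => (hf a ha).1
    rcases lt_or_gt_of_ne hab with h | h
    · exact lt a ha b hb h e
    · exact lt b hb a ha h e.symm
  obtain ⟨w, hw, h⟩ := key
  have h1 := Nat.mul_le_mul_right (g + 3) (Nat.succ_le_of_lt (Finset.mem_range.1 hw))
  rw [Nat.succ_mul] at h1
  generalize w * (g + 3) = i at h h1
  refine ⟨i, by omega, fun d hd => (h d hd).imp id fun h2 => ?_⟩
  have h3 : {e | e ∈ zpowers (x ^ p ^ (i + 2)) ∧ Ivt d e}.ncard ≤ p ^ (k - (i + 2 + g + 1)) := by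
    rw [← card_Win hp hx (by omega)]
    exact Set.ncard_le_ncard (t := (zpowers (x ^ p ^ (i + 2 + g + 1)) : Set G))
      (fun e he => sub_Win hp hx h2 he.1 he.2) (Set.toFinite _)
  rw [card_Win hp hx (by omega)]
  calc _ ≤ p ^ g * p ^ (k - (i + 2 + g + 1)) :=
        Nat.mul_le_mul (Nat.pow_le_pow_left hp.two_le g) h3
    _ ≤ _ := by
        rw [← pow_add]
        exact Nat.pow_le_pow_right hp.pos (by omega)

end Pool.Agent.MP_a1dcd4_co.SH

end
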