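import Pool.Agent.Mg.Fa1dcd4a.G60ef6f

set_option linter.all false

section

/-! Cyclic groups. -/

set_option autoImplicit false

namespace Pool.Agent.MP_a1dcd4_co.SH

open Function Subgroup Pool.Agent.MP_a1dcd4_co.OR

lemma fix_Cyc {G : Type} [Group G] (x : G)
    (inj : ∀ i k : ℤ, x ^ i = x ^ k → -13 < i - k → i - k < 13 → i = k) (φ : G → G)
    (hφ : Injective φ) (hl : ∀ g, ∃ g', ∀ i : ℤ, i = 0 ∨ i = 1 ∨ i = 3 →
      ∃ a : ℤ, (a = 0 ∨ a = 1 ∨ a = 3) ∧ φ (g * x ^ i) = g' * x ^ a) : Fixes φ x := by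
  have adj0 : ∀ g (s t : ℤ), s = 0 ∨ s = 1 ∨ s = 3 → t = 0 ∨ t = 1 ∨ t = 3 → s ≠ t →
      ∃ e : ℤ, (-3 ≤ e ∧ e ≤ 3 ∧ e ≠ 0) ∧ φ (g * x ^ (t - s)) = φ g * x ^ e := by
    intro g s t hs ht hst
    obtain ⟨g', h⟩ := hl (g * x ^ (-s))
    obtain ⟨a, a1, a2⟩ := h s hs
    obtain ⟨b, b1, b2⟩ := h t ht
    rw [mul_assoc, ← zpow_add, neg_add_cancel, zpow_zero, mul_one] at a2
    rw [mul_assoc, ← zpow_add, neg_add_eq_sub] at b2
    refine ⟨b - a, ⟨by omega, by omega, fun e => hst ?_⟩, ?_⟩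
    · rw [← sub_eq_zero.1 e, ← b2] at a2
      have := inj (t - s) 0 (by simpa using hφ a2) (by omega) (by omega)
      omega
    · rw [a2, b2, mul_assoc, ← zpow_add, add_sub_cancel]
  have adj : ∀ g (d : ℤ), -3 ≤ d → d ≤ 3 → d ≠ 0 →
      ∃ e : ℤ, (-3 ≤ e ∧ e ≤ 3 ∧ e ≠ 0) ∧ φ (g * x ^ d) = φ g * x ^ e := by
    intro g d h1 h2 h3
    interval_cases d
    · exact adj0 g 3 0 (by simp) (by simp) (by simp)
    · exact adj0 g 3 1 (by simp) (by simp) (by simp)
    · exact adj0 g 1 0 (by simp) (by simp) (by simp)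
    · exact absurd rfl h3
    · exact adj0 g 0 1 (by simp) (by simp) (by simp)
    · exact adj0 g 1 3 (by simp) (by simp) (by simp)
    · exact adj0 g 0 3 (by simp) (by simp) (by simp)
  have one : ∀ g, ∃ d : ℤ, (d = 1 ∨ d = -1) ∧ φ (g * x) = φ g * x ^ d := by
    intro g
    obtain ⟨d, d1, d2⟩ := adj g 1 (by simp) (by simp) (by simp)
    rw [zpow_one] at d2
    have cm : ∀ j : ℤ, -2 ≤ j → j ≤ 3 → j ≠ 0 → j ≠ 1 → ∃ e : ℤ, (-3 ≤ e ∧ e ≤ 3 ∧ e ≠ 0) ∧
        (-3 ≤ e - d ∧ e - d ≤ 3 ∧ e - d ≠ 0) ∧ φ (g * x ^ j) = φ g * x ^ e := by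
      intro j j1 j2 j3 j4
      obtain ⟨e, e1, e2⟩ := adj g j (by omega) j2 j3
      obtain ⟨f, f1, f2⟩ := adj (g * x) (j - 1) (by omega) (by omega) (by omega)
      rw [mul_assoc, ← zpow_one_add, add_sub_cancel, e2, d2, mul_assoc, ← zpow_add] at f2
      have := inj _ _ (mul_left_cancel f2) (by omega) (by omega)
      exact ⟨e, e1, by omega, e2⟩
    have ne : ∀ j k e f : ℤ, φ (g * x ^ j) = φ g * x ^ e → φ (g * x ^ k) = φ g * x ^ f →
        -13 < j - k → j - k < 13 → j ≠ k → e ≠ f := fun j k e f a b c c' h h' =>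
      h (inj j k (mul_left_cancel (hφ (by rw [a, b, h']))) c c')
    obtain ⟨e1, a1, b1, c1⟩ := cm (-2) (by simp) (by simp) (by simp) (by simp)
    obtain ⟨e2, a2, b2, c2⟩ := cm (-1) (by simp) (by simp) (by simp) (by simp)
    obtain ⟨e3, a3, b3, c3⟩ := cm 2 (by simp) (by simp) (by simp) (by simp)
    obtain ⟨e4, a4, b4, c4⟩ := cm 3 (by simp) (by simp) (by simp) (by simp)
    have n12 := ne _ _ _ _ c1 c2 (by simp) (by simp) (by simp)
    have n13 := ne _ _ _ _ c1 c3 (by simp) (by simp) (by simp)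
    have n14 := ne _ _ _ _ c1 c4 (by simp) (by simp) (by simp)
    have n23 := ne _ _ _ _ c2 c3 (by simp) (by simp) (by simp)
    have n24 := ne _ _ _ _ c2 c4 (by simp) (by simp) (by simp)
    have n34 := ne _ _ _ _ c3 c4 (by simp) (by simp) (by simp)
    refine ⟨d, ?_, d2⟩
    clear c1 c2 c3 c4 ne cm d2 adj adj0 hl inj
    obtain ⟨u1, u2, u3⟩ := d1
    interval_cases d <;> omega
  choose d d1 d2 using one
  have same : ∀ g, d (g * x) = d g := fun g => by
    by_contra h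
    have e : d g + d (g * x) = 0 := by
      have := d1 g
      have := d1 (g * x)
      omega
    have a := d2 (g * x)
    rw [d2 g, mul_assoc (φ g), ← zpow_add, e, zpow_zero, mul_one] at a
    have b : x ^ (2 : ℤ) = x ^ (0 : ℤ) := by
      have := hφ a
      rw [mul_assoc, mul_eq_left] at this
      rw [zpow_two, this, zpow_zero]
    have := inj _ _ b (by simp) (by simp)
    omega
  intro g
  obtain ⟨g', h⟩ := hl g
  obtain ⟨a, a1, a2⟩ := h 0 (by simp)
  obtain ⟨b, b1, b2⟩ := h 1 (by simp)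
  obtain ⟨c, c1, c2⟩ := h 3 (by simp)
  rw [zpow_zero, mul_one] at a2
  rw [zpow_one, d2, a2, mul_assoc, ← zpow_add] at b2
  rw [show g * x ^ (3 : ℤ) = g * x * x * x by
    rw [show (3 : ℤ) = 1 + 1 + 1 from rfl, zpow_add, zpow_add, zpow_one, ← mul_assoc, ← mul_assoc],
    d2, same, same, d2, same, d2, a2, mul_assoc, mul_assoc, mul_assoc, ← zpow_add, ← zpow_add,
    ← zpow_add] at c2
  have := d1 g
  have e1 := inj _ _ (mul_left_cancel b2) (by omega) (by omega)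
  have e2 := inj _ _ (mul_left_cancel c2) (by omega) (by omega)
  rw [d2, show d g = 1 by omega, zpow_one]

theorem cyc (hU : S_UM) : S_Cyc := by
  intro G _ _ x hx hn
  have ho : orderOf x = Nat.card G := by rw [← Nat.card_zpowers, hx, Subgroup.card_top]
  have inj : ∀ i k : ℤ, x ^ i = x ^ k → -13 < i - k → i - k < 13 → i = k := fun i k h a b => by
    have := Int.eq_zero_of_abs_lt_dvd (orderOf_dvd_sub_iff_zpow_eq_zpow.2 h) (by
      rw [abs_lt]
      omega)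
    omega
  have h := hU.um1 (G := G) ∅ ∅ ⊥ {s | ∃ i : ℤ, (i = 0 ∨ i = 1 ∨ i = 3) ∧ s = x ^ i}
    (fun K hK => absurd hK (by simp)) (fun γ hγ => absurd hγ (by simp))
    (fun k hk s hs => by rwa [mem_bot.1 hk, one_mul]) (sidonMod_bot ?_)
    ⟨_, ⟨0, by simp, rfl⟩, _, ⟨1, by simp, rfl⟩, fun e => by
      have := inj _ _ e (by simp) (by simp)
      omega⟩ (fun K hK => absurd hK (by simp)) ?_
  · refine h.mono ?_
    simp [two_mul]
  · rintro _ ⟨a, ha, rfl⟩ _ ⟨b, hb, rfl⟩ _ ⟨c, hc, rfl⟩ _ ⟨d, hd, rfl⟩ e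
    simp only [← zpow_neg, ← zpow_add] at e ⊢
    have := inj _ _ e (by omega) (by omega)
    by_cases h : a = c
    · exact Or.inr (by rw [h])
    · exact Or.inl (by rw [show -a + b = 0 by omega, zpow_zero])
  · intro φ hφ _ _ hl z
    have f := fix_Cyc x inj φ hφ fun g => by
      obtain ⟨g', h⟩ := hl g
      refine ⟨g', fun i hi => ?_⟩
      obtain ⟨a, a1, a2⟩ := h _ ⟨i, hi, rfl⟩
      exact ⟨a, a1, inv_mul_eq_iff_eq_mul.1 a2⟩
    refine Fixes.closure (Z := {x}) (fun w hw => (Set.mem_singleton_iff.1 hw).symm ▸ f) z ?_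
    rw [← zpowers_eq_closure, hx]
    exact mem_top z

end Pool.Agent.MP_a1dcd4_co.SH

end

section

set_option autoImplicit false

namespace Pool.Agent.MP_a1dcd4_co.SH

open Function Subgroup Pool.Agent.MP_a1dcd4_co.OR

section

variable {G : Type} [Group G]

theorem gen_D2 {p : ℕ} {u e : G} (hp : p.Prime) (ho : orderOf u = p) (he : e ∈ zpowers u)
    (h1 : e ≠ 1) : u ∈ zpowers e := by
  have : Fact p.Prime := ⟨hp⟩
  have hc : Nat.card (zpowers u) = p := by rw [Nat.card_zpowers, ho]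
  have h2 : (⟨e, he⟩ : zpowers u) ≠ 1 := fun h => h1 (congrArg Subtype.val h)
  obtain ⟨k, hk⟩ := mem_zpowers_iff.1
    (mem_zpowers_of_prime_card hc (g' := (⟨u, mem_zpowers u⟩ : zpowers u)) h2)
  exact mem_zpowers_iff.2 ⟨k, by simpa using congrArg Subtype.val hk⟩

theorem ivt_D2 {d u e : G} (h : Ivt d u) (he : e ∈ zpowers u) : Ivt d e := by
  obtain ⟨k, rfl⟩ := mem_zpowers_iff.1 he
  have e1 : d⁻¹ * u ^ k * d = (d⁻¹ * u * d) ^ k := by
    have := conj_zpow (i := k) (a := d⁻¹) (b := u)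
    rw [inv_inv] at this
    exact this.symm
  rw [Ivt, e1, h, inv_zpow]

theorem comm_D2 {d u e : G} (h : d * u = u * d) (he : e ∈ zpowers u) : d * e = e * d := by
  obtain ⟨k, rfl⟩ := mem_zpowers_iff.1 he
  exact (Commute.zpow_right (show Commute d u from h) k).eq

theorem pow_D2 {p : ℕ} {u e : G} (ho : orderOf u = p) (he : e ∈ zpowers u) : e ^ p = 1 := by
  obtain ⟨k, rfl⟩ := mem_zpowers_iff.1 he
  rw [← zpow_natCast, ← zpow_mul, mul_comm, zpow_mul, zpow_natCast, ← ho, pow_orderOf_eq_one,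
    one_zpow]

theorem fix_D2 {φ : G → G} {v x : G} (h : Fixes φ v) (hx : x ∈ zpowers v) : Fixes φ x := by
  rw [zpowers_eq_closure] at hx
  exact Fixes.closure (fun z hz => by rw [Set.mem_singleton_iff.1 hz]; exact h) x hx

theorem fpow_D2 {φ : G → G} {v : G} (h : Fixes φ v) (k : ℕ) : Fixes φ (v ^ k) :=
  fix_D2 h (pow_mem (mem_zpowers v) k)

theorem bad_D2 {p : ℕ} {u b e : G} (hp : p.Prime) (ho : orderOf u = p) (he : e ∈ zpowers u)
    (h1 : b * u = u * b) (h2 : ¬ p ∣ orderOf b) (h3 : ¬ p ∣ orderOf (b * e)) : e = 1 := by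
  have hc : Commute b e := comm_D2 h1 he
  have e1 : e ^ (orderOf b * orderOf (b * e)) = 1 := by
    have e2 : (b * e) ^ (orderOf b * orderOf (b * e)) = 1 := by
      rw [mul_comm (orderOf b), pow_mul, pow_orderOf_eq_one, one_pow]
    rwa [hc.mul_pow, pow_mul, pow_orderOf_eq_one, one_pow, one_mul] at e2
  have e3 : orderOf e ∣ p := orderOf_dvd_of_pow_eq_one (pow_D2 ho he)
  rcases (Nat.dvd_prime hp).1 e3 with h | h
  · exact orderOf_eq_one_iff.1 h
  · have e4 := orderOf_dvd_of_pow_eq_one e1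
    rw [h] at e4
    exact ((hp.dvd_mul.1 e4).elim h2 h3).elim

end

theorem d2 (hU : S_UM) (hS : S_SL) : S_D2 := by
  classical
  rintro G _ _ p M u T hp ho hall ⟨hTM, h1T, hcl, hJ, hC⟩ hc hM
  obtain ⟨t0, ht0, t0', ht0', hc1, hc2⟩ := hC hc
  set U := zpowers u with hUd
  have hcard : Nat.card U = p := by rw [hUd, Nat.card_zpowers, ho]
  have UN : U.Normal := ⟨fun x hx g => hall _ (by
    rw [conj_pow, pow_D2 ho hx, mul_one, mul_inv_cancel])⟩
  have uU : u ∈ U := mem_zpowers u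
  obtain ⟨T1, hT1, hinj, him⟩ := Finset.exists_subset_injOn_image_eq_of_surjOn
    (f := (QuotientGroup.mk : G → G ⧸ U)) (T : Set G) (T.image QuotientGroup.mk)
    (by rw [Finset.coe_image]; exact Set.surjOn_image _ _)
  have hT1' : T1 ⊆ T := fun t ht => hT1 ht
  have hM1 : T1.card ≤ M := (Finset.card_le_card hT1').trans hTM
  have hrep : ∀ t ∈ T, ∃ t1 ∈ T1, t⁻¹ * t1 ∈ U := fun t ht => by
    have : (QuotientGroup.mk t : G ⧸ U) ∈ T1.image QuotientGroup.mk := by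
      rw [him]
      exact Finset.mem_image_of_mem _ ht
    obtain ⟨t1, h1, e⟩ := Finset.mem_image.1 this
    exact ⟨t1, h1, QuotientGroup.eq.1 e.symm⟩
  have hdis : ∀ t ∈ T1, ∀ t' ∈ T1, t⁻¹ * t' ∈ U → t = t' := fun t ht t' ht' h =>
    hinj ht ht' (QuotientGroup.eq.2 h)
  have one_le : ∀ X : Set G, X.Subsingleton → p * X.ncard ≤ Nat.card U := fun X hX => by
    rw [hcard]
    have := (Set.ncard_le_one (Set.toFinite X)).2 fun a ha b hb => hX ha hb
    calc p * X.ncard ≤ p * 1 := Nat.mul_le_mul_left _ this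
      _ = p := mul_one p
  obtain ⟨y, hy, hSid, hBad⟩ := hS G U T1 {d | d * u = u * d ∧ ¬ p ∣ orderOf d} p
    (fun a ha b hb => comm_D2 (comm_D2 rfl ha).symm hb)
    (fun b hb => ⟨(Commute.inv_left (show Commute b u from hb.1)).eq, by
      rw [orderOf_inv]; exact hb.2⟩)
    (lt_of_le_of_lt (Nat.mul_le_mul_left 4 (Nat.pow_le_pow_left hM1 3)) hM) hcard.ge
    (fun t ht t' ht' hne => ⟨fun h => hne (hdis t ht t' ht' h), by
      by_cases hI : Ivt (t⁻¹ * t') u
      · exact Or.inl ⟨fun e he => ivt_D2 hI he, hJ t (hT1' ht) t' (hT1' ht') hI⟩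
      · refine Or.inr (one_le _ ?_)
        have k : ∀ e, e ∈ U ∧ Ivt (t⁻¹ * t') e → e = 1 := fun e he => by
          by_contra h
          exact hI (ivt_D2 he.2 (gen_D2 hp ho he.1 h))
        intro a ha b hb
        rw [k a ha, k b hb], fun z hz => one_le _ (by
      rintro a ⟨ha, ha1, ha2⟩ b ⟨hb, -, hb2⟩
      have e : z⁻¹ * (t⁻¹ * t') * b = z⁻¹ * (t⁻¹ * t') * a * (a⁻¹ * b) := by group
      rw [e] at hb2
      exact inv_mul_eq_one.1 (bad_D2 hp ho (U.mul_mem (U.inv_mem ha) hb) ha1 ha2 hb2))⟩)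
  set S : Set G := {s | ∃ t ∈ T1, s = t * y t} with hSd
  have k4 : ∀ s ∈ S, ∀ s' ∈ S, s⁻¹ * s' ∈ U → s = s' := by
    rintro _ ⟨t, ht, rfl⟩ _ ⟨t', ht', rfl⟩ h
    have e : t⁻¹ * t' = y t * ((t * y t)⁻¹ * (t' * y t')) * (y t')⁻¹ := by group
    rw [hdis t ht t' ht' (e ▸ U.mul_mem (U.mul_mem (hy t) h) (U.inv_mem (hy t')))]
  have k6 : ∀ s ∈ S, ∀ s' ∈ S, s * s'⁻¹ ∈ U → s = s' := fun s hs s' hs' h =>
    (k4 s' hs' s hs (UN.mem_comm h)).symm
  have hrepS : ∀ t ∈ T, ∃ t1 ∈ T1, ∃ a ∈ U, t1 * y t1 = t * a := fun t ht => by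
    obtain ⟨t1, h1, e⟩ := hrep t ht
    exact ⟨t1, h1, t⁻¹ * t1 * y t1, U.mul_mem e (hy t1), by group⟩
  obtain ⟨t1, ht1, a, ha, ea⟩ := hrepS t0 ht0
  obtain ⟨t1', ht1', b, hb, eb⟩ := hrepS t0' ht0'
  have ed : (t1 * y t1)⁻¹ * (t1' * y t1') = a⁻¹ * (t0⁻¹ * t0') * b := by
    rw [ea, eb]
    group
  have hne : t1 ≠ t1' := by
    rintro rfl
    rw [inv_mul_cancel] at ed
    have e : t0⁻¹ * t0' = a * (a⁻¹ * (t0⁻¹ * t0') * b) * b⁻¹ := by group
    rw [← ed, mul_one] at e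
    exact hc2 (e ▸ U.mul_mem ha (U.inv_mem hb))
  have hdv : p ∣ orderOf ((t1 * y t1)⁻¹ * (t1' * y t1')) := by
    by_contra h
    refine hBad t1 ht1 t1' ht1' hne ⟨?_, h⟩
    rw [ed]
    have c1 : Commute a u := (comm_D2 rfl ha).symm
    have c2 : Commute b u := (comm_D2 rfl hb).symm
    have c3 : Commute (t0⁻¹ * t0') u := hc1
    exact ((c1.inv_left.mul_left c3).mul_left c2).eq
  refine (hU.um2 {U} (T1.image fun t => (U, t * y t)) U S ?_ ?_ hSid ?_ ?_
    (Finset.mem_singleton_self U) k6 ?_).mono ?_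
  · intro K hK K' hK' h
    exact (h ((Finset.mem_singleton.1 hK).trans (Finset.mem_singleton.1 hK').symm)).elim
  · intro γ hγ
    obtain ⟨t, -, rfl⟩ := Finset.mem_image.1 hγ
    exact ⟨Finset.mem_singleton_self U, Finset.mem_singleton.2 (cj_eq_of_normal U _)⟩
  · refine ⟨_, ⟨t1, ht1, rfl⟩, _, ⟨t1', ht1', rfl⟩, fun h => hne (hdis _ ht1 _ ht1' ?_)⟩
    have e : t1⁻¹ * t1' = y t1 * ((t1 * y t1)⁻¹ * (t1' * y t1')) * (y t1')⁻¹ := by group
    rw [e, ← h, inv_mul_cancel, mul_one]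
    exact U.mul_mem (hy _) (U.inv_mem (hy _))
  · intro K hK
    rw [Finset.mem_singleton.1 hK]
    exact k4
  · intro φ _ _ hG hL
    have key : ∀ g, ∃ g', ∀ s ∈ S, φ (g * s) = g' * s := fun g => by
      obtain ⟨g', h1, h2⟩ := hL g
      refine ⟨g', fun s hs => ?_⟩
      have hs' := hs
      obtain ⟨t, ht, rfl⟩ := hs'
      obtain ⟨w, hw, e⟩ := hG (U, t * y t) (Finset.mem_image_of_mem _ ht) g
      have e1 : g'⁻¹ * φ (g * (t * y t)) * (t * y t)⁻¹ ∈ U := by
        have e2 : g'⁻¹ * φ (g * (t * y t)) * (t * y t)⁻¹ = g'⁻¹ * φ g * w := by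
          rw [show φ (g * (t * y t)) = φ g * w * (t * y t) from e]
          group
        rw [e2]
        exact U.mul_mem h2 hw
      exact inv_mul_eq_iff_eq_mul.1 (k6 _ (h1 _ hs) _ hs e1)
    have hq : ∀ s ∈ S, ∀ s' ∈ S, Fixes φ (s⁻¹ * s') := fun s hs s' hs' g => by
      obtain ⟨g', h⟩ := key (g * s⁻¹)
      have e1 := h s hs
      rw [inv_mul_cancel_right] at e1
      rw [← mul_assoc, h s' hs', e1]
      group
    have fu : Fixes φ u := by
      set d := (t1 * y t1)⁻¹ * (t1' * y t1') with hd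
      have fd : Fixes φ d := hq _ ⟨t1, ht1, rfl⟩ _ ⟨t1', ht1', rfl⟩
      have o1 : orderOf (d ^ (orderOf d / p)) = p := orderOf_pow_orderOf_div (orderOf_pos d).ne' hdv
      have v1 : d ^ (orderOf d / p) ≠ 1 := fun h => by
        rw [h, orderOf_one] at o1
        exact hp.one_lt.ne o1
      have v2 : d ^ (orderOf d / p) ∈ U := hall _ (by
        have := pow_orderOf_eq_one (d ^ (orderOf d / p))
        rwa [o1] at this)
      exact fix_D2 (fpow_D2 fd _) (gen_D2 hp ho v2 v1)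
    have fU : ∀ x ∈ U, Fixes φ x := fun x hx => fix_D2 fu hx
    obtain ⟨r, hr, c, hcU, ec⟩ := hrepS 1 h1T
    have fS : ∀ s ∈ S, Fixes φ s := fun s hs => by
      have := (fU c hcU).mul (hq _ ⟨r, hr, rfl⟩ s hs)
      rwa [ec, one_mul, mul_inv_cancel_left] at this
    intro z
    refine Fixes.closure (Z := insert u (T : Set G)) ?_ z (hcl ▸ mem_top z)
    rintro x (rfl | hx)
    · exact fu
    · obtain ⟨q, hq1, c', hc', e⟩ := hrepS x hx
      have := (fS _ ⟨q, hq1, rfl⟩).mul (fU c' hc').inv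
      rwa [e, mul_inv_cancel_right] at this
  · have i1 : 1 ≤ U.index := Nat.pos_of_ne_zero U.index_ne_zero_of_finite
    have c1 : (T1.image fun t => (U, t * y t)).card ≤ M := Finset.card_image_le.trans hM1
    have c2 : ∑ γ ∈ T1.image (fun t => (U, t * y t)), γ.1.index =
        (T1.image fun t => (U, t * y t)).card * U.index := by
      rw [← smul_eq_mul, ← Finset.sum_const]
      refine Finset.sum_congr rfl fun γ hγ => ?_
      obtain ⟨t, -, rfl⟩ := Finset.mem_image.1 hγ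
      rfl
    rw [c2, Finset.sum_singleton, Finset.card_singleton]
    generalize (T1.image fun t => (U, t * y t)).card = m at c1
    generalize U.index = i at i1
    have c3 : m * i ≤ M * i := Nat.mul_le_mul_right _ c1
    have c4 : (1 + m + 3) ^ 2 ≤ (M + 4) ^ 2 := Nat.pow_le_pow_left (by omega) 2
    have c5 : (M + 4) ^ 2 ≤ (M + 4) ^ 2 * i := Nat.le_mul_of_pos_right _ i1
    nlinarith [Nat.zero_le (M * i), Nat.zero_le i]

end Pool.Agent.MP_a1dcd4_co.SH

end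

section

set_option autoImplicit false

namespace Pool.Agent.MP_a1dcd4_co.SH

open Function Subgroup Pool.Agent.MP_a1dcd4_co.OR

section

variable {G : Type} [Group G]

/-- the data of the second exceptional case -/
def Ex_E2 (y : G) (A : Subgroup G) (j t : G) : Prop :=
  y ∈ A ∧ j ^ 2 = 1 ∧ (∀ a ∈ A, Ivt j a) ∧
    (∀ a ∈ A, t⁻¹ * a * t ∈ A) ∧ t * y = y * t ∧ t ^ 2 ∈ A ∧ (t * j) ^ 2 ∈ A ∧
    (t * j) ^ 2 ≠ 1 ∧ t ∉ A ∧ closure (insert j (insert t (A : Set G))) = ⊤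

theorem cm_E2 {A : Subgroup G} {j : G} (h : ∀ a ∈ A, Ivt j a) : Cm A := by
  intro a ha b hb
  have h1 : j⁻¹ * (a * b) * j = (a * b)⁻¹ := h _ (A.mul_mem ha hb)
  have h2 : j⁻¹ * a * j = a⁻¹ := h a ha
  have h3 : j⁻¹ * b * j = b⁻¹ := h b hb
  have h4 : j⁻¹ * (a * b) * j = (b * a)⁻¹ := by
    rw [mul_inv_rev, ← h2, ← h3]; group
  exact inv_injective (h1.symm.trans h4)

theorem ext_E2 (B : Subgroup G) (i : G) (h1 : i * i = 1) (h2 : ∀ b ∈ B, i * b * i ∈ B) :
    ∃ K : Subgroup G, ∀ g, g ∈ K ↔ g ∈ B ∨ g * i ∈ B := by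
  have hi : i⁻¹ = i := inv_eq_of_mul_eq_one_right h1
  have e : ∀ g, g * i * i = g := fun g => by rw [mul_assoc, h1, mul_one]
  refine ⟨⟨⟨⟨{g | g ∈ B ∨ g * i ∈ B}, ?_⟩, Or.inl B.one_mem⟩, ?_⟩, fun _ => Iff.rfl⟩
  · rintro g h (hg | hg) (hh | hh)
    · exact Or.inl (B.mul_mem hg hh)
    · exact Or.inr (by rw [mul_assoc]; exact B.mul_mem hg hh)
    · have := B.mul_mem hg (h2 h hh)
      simp only [← mul_assoc, e] at this
      exact Or.inr this
    · have := B.mul_mem hg (h2 _ hh)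
      simp only [← mul_assoc, e] at this
      exact Or.inl this
  · rintro g (hg | hg)
    · exact Or.inl (B.inv_mem hg)
    · have := h2 _ (B.inv_mem hg)
      rw [mul_inv_rev, hi, ← mul_assoc, h1, one_mul] at this
      exact Or.inr this

theorem gad_E2 {Y : Subgroup G} [hY : Y.Normal] {Z : Set G} (hZ : closure Z = ⊤) {φ : G → G}
    (h : ∀ z ∈ Z, Gad Y z φ) (s : G) : ∀ g, ∃ w ∈ Y, φ (g * s) = φ g * s * w := by
  have hs : s ∈ closure Z := hZ ▸ mem_top s
  induction hs using closure_induction with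
  | mem z hz =>
    intro g
    obtain ⟨w, hw, e⟩ := h z hz g
    exact ⟨z⁻¹ * w * z⁻¹⁻¹, hY.conj_mem w hw _, by rw [e]; group⟩
  | one => exact fun g => ⟨1, Y.one_mem, by simp⟩
  | mul a b _ _ ha hb =>
    intro g
    obtain ⟨w, hw, e⟩ := ha g
    obtain ⟨w', hw', e'⟩ := hb (g * a)
    exact ⟨b⁻¹ * w * b⁻¹⁻¹ * w', Y.mul_mem (hY.conj_mem w hw _) hw',
      by rw [← mul_assoc, e', e]; group⟩
  | inv a _ ha =>
    intro g
    obtain ⟨w, hw, e⟩ := ha (g * a⁻¹)
    rw [inv_mul_cancel_right] at e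
    exact ⟨a * w⁻¹ * a⁻¹, hY.conj_mem _ (Y.inv_mem hw) _, by rw [e]; group⟩

theorem comm_E2 {y t a : G} (h : t * y = y * t) (ha : a ∈ zpowers y) : t * a = a * t := by
  obtain ⟨m, rfl⟩ := ha
  exact (Commute.zpow_right (a := t) (b := y) h m).eq

theorem shift_E2 {y : G} {A : Subgroup G} {j t a : G} (h : Ex_E2 y A j t) (ha : a ∈ zpowers y) :
    Ex_E2 y A j (t * a) ∧ (t * a * j) ^ 2 = (t * j) ^ 2 ∧ (t * a) ^ 2 = t ^ 2 * a ^ 2 ∧
      (t * a)⁻¹ * j * (t * a) = t⁻¹ * j * t * a ^ 2 := by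
  obtain ⟨h1, h2, h3, h4, h5, h6, h7, h8, h9, h10⟩ := h
  have haA : a ∈ A := zpowers_le.2 h1 ha
  have hc : t * a = a * t := comm_E2 h5 ha
  have hi : j⁻¹ * a * j = a⁻¹ := h3 a haA
  have hi1 : a * j = j * a⁻¹ := by rw [← hi]; group
  have hi2 : a⁻¹ * j = j * a := by
    have : j⁻¹ * a⁻¹ * j = a⁻¹⁻¹ := h3 _ (A.inv_mem haA)
    rw [inv_inv] at this
    rw [← mul_right_inj j⁻¹, ← mul_assoc, this]; group
  have e1 : (t * a * j) ^ 2 = (t * j) ^ 2 := by
    calc (t * a * j) ^ 2 = t * (a * j) * (t * a) * j := by rw [sq]; group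
      _ = (t * j) ^ 2 := by rw [hi1, hc, sq]; group
  have e2 : (t * a) ^ 2 = t ^ 2 * a ^ 2 := Commute.mul_pow hc 2
  have e3 : (t * a)⁻¹ * j * (t * a) = t⁻¹ * j * t * a ^ 2 := by
    calc (t * a)⁻¹ * j * (t * a) = (a * t)⁻¹ * j * (t * a) := by rw [← hc]
      _ = t⁻¹ * (a⁻¹ * j) * (t * a) := by group
      _ = t⁻¹ * j * (a * t) * a := by rw [hi2]; group
      _ = _ := by rw [← hc, sq]; group
  refine ⟨⟨h1, h2, h3, fun b hb => ?_, ?_, ?_, e1 ▸ h7, e1 ▸ h8, fun hta => h9 ?_, ?_⟩, e1, e2, e3⟩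
  · have : (t * a)⁻¹ * b * (t * a) = a⁻¹ * (t⁻¹ * b * t) * a := by group
    rw [this]
    exact A.mul_mem (A.mul_mem (A.inv_mem haA) (h4 b hb)) haA
  · rw [mul_assoc, cm_E2 h3 a haA y h1, ← mul_assoc, h5, mul_assoc]
  · rw [e2]; exact A.mul_mem h6 (A.pow_mem haA 2)
  · simpa using A.mul_mem hta (A.inv_mem haA)
  · rw [eq_top_iff, ← h10, closure_le]
    rintro g (rfl | rfl | hg)
    · exact subset_closure (Or.inl rfl)
    · have := mul_mem (subset_closure (k := insert j (insert (g * a) (A : Set G)))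
        (Or.inr (Or.inl rfl))) (subset_closure (Or.inr (Or.inr (A.inv_mem haA))))
      simpa using this
    · exact subset_closure (Or.inr (Or.inr hg))

theorem le_E2 (y : G) : zpowers (y ^ 4) ≤ zpowers y := zpowers_le.2 (pow_mem (mem_zpowers y) 4)

theorem normal_E2 {y : G} {A : Subgroup G} {j t : G} (h : Ex_E2 y A j t) :
    (zpowers (y ^ 4)).Normal := by
  obtain ⟨h1, h2, h3, h4, h5, h6, h7, h8, h9, h10⟩ := h
  have hj : j⁻¹ = j := inv_eq_of_mul_eq_one_right (by rw [← sq, h2])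
  have key : ∀ g ∈ closure (insert j (insert t (A : Set G))), ∀ n ∈ zpowers (y ^ 4),
      g * n * g⁻¹ ∈ zpowers (y ^ 4) ∧ g⁻¹ * n * g ∈ zpowers (y ^ 4) := by
    intro g hg
    induction hg using closure_induction with
    | mem g hg =>
      intro n hn
      have hnA : n ∈ A := zpowers_le.2 h1 (le_E2 y hn)
      have hc : g * n = n * g → g * n * g⁻¹ ∈ zpowers (y ^ 4) ∧ g⁻¹ * n * g ∈ zpowers (y ^ 4) := by
        intro e
        refine ⟨by rw [e]; simpa using hn, by rw [mul_assoc, ← e]; simpa using hn⟩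
      rcases hg with rfl | rfl | hg
      · have e : g⁻¹ * n * g = n⁻¹ := h3 n hnA
        have e' : g * n * g⁻¹ = n⁻¹ := by rw [← e, hj]
        rw [e, e']
        exact ⟨inv_mem hn, inv_mem hn⟩
      · exact hc (comm_E2 h5 (le_E2 y hn))
      · exact hc (cm_E2 h3 g hg n hnA)
    | one => intro n hn; simpa using hn
    | mul a b _ _ ha hb =>
      intro n hn
      have e1 : a * b * n * (a * b)⁻¹ = a * (b * n * b⁻¹) * a⁻¹ := by group
      have e2 : (a * b)⁻¹ * n * (a * b) = b⁻¹ * (a⁻¹ * n * a) * b := by group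
      rw [e1, e2]
      exact ⟨(ha _ (hb n hn).1).1, (hb _ (ha n hn).2).2⟩
    | inv a _ ha =>
      intro n hn
      rw [inv_inv]
      exact ⟨(ha n hn).2, (ha n hn).1⟩
  exact ⟨fun n hn g => (key g (h10 ▸ mem_top g) n hn).1⟩

theorem step1_E2 {p a : ℕ} {y : G} {A : Subgroup G} {j t : G} (hp : p.Prime)
    (ho : orderOf y = p ^ a) (h32 : 32 ≤ p ^ a) (h : Ex_E2 y A j t) :
    ∃ t', Ex_E2 y A j t' ∧ (t' ^ 2 ∉ zpowers (y ^ 4) ∨ (t' * j) ^ 2 ∉ zpowers (y ^ 4)) := by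
  by_cases hb : (t * j) ^ 2 ∈ zpowers (y ^ 4)
  swap
  · exact ⟨t, h, Or.inr hb⟩
  by_cases ht : t ^ 2 ∈ zpowers (y ^ 4)
  swap
  · exact ⟨t, h, Or.inl ht⟩
  obtain ⟨e0, -, e2, -⟩ := shift_E2 h (mem_zpowers y)
  refine ⟨t * y, e0, Or.inl fun hc => ?_⟩
  obtain ⟨h1, h2, h3, h4, h5, h6, h7, h8, h9, h10⟩ := h
  obtain ⟨b, hbe⟩ : ∃ b, b = (t * j) ^ 2 := ⟨_, rfl⟩
  have c1 : t * j * b = b * (t * j) := by rw [hbe, ← pow_succ, ← pow_succ']
  rw [← hbe] at hb h7 h8
  have c2 : t * b = b * t := comm_E2 h5 (le_E2 y hb)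
  have c3 : j * b = b * j := by
    rw [← mul_right_inj t, ← mul_assoc, c1, ← mul_assoc, ← mul_assoc, c2]
  have c4 : j⁻¹ * b * j = b⁻¹ := h3 b h7
  have c5 : b ^ 2 = 1 := by
    rw [mul_assoc, ← c3, inv_mul_cancel_left] at c4
    rw [sq]
    exact mul_eq_one_iff_eq_inv.2 c4
  have c6 : 2 ∣ p ^ a := by
    rw [← ho, ← orderOf_eq_prime c5 h8]
    exact orderOf_dvd_of_mem_zpowers (le_E2 y hb)
  have c7 : 2 = p := (Nat.prime_dvd_prime_iff_eq Nat.prime_two hp).1 (Nat.prime_two.dvd_of_dvd_pow c6)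
  subst c7
  have c8 : 2 ^ 2 ∣ orderOf y := by
    rw [ho]
    refine pow_dvd_pow 2 ?_
    by_contra hlt
    have : a ≤ 1 := by omega
    interval_cases a <;> omega
  rw [e2] at hc
  obtain ⟨m, hm⟩ := (mul_mem_cancel_left ht).1 hc
  have c9 : y ^ (4 * m - 2) = 1 := by
    have hm' : (y ^ 4) ^ m = y ^ 2 := hm
    rw [zpow_sub, zpow_mul, zpow_ofNat, zpow_ofNat, hm', mul_inv_cancel]
  have c10 := (Int.natCast_dvd_natCast.2 c8).trans (orderOf_dvd_iff_zpow_eq_one.2 c9)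
  omega

theorem pick_E2 (P Q R : ℕ → Prop) (hP : ∀ i i', i < i' → i' < 4 → P i → ¬ P i')
    (hQ : ∀ i i', i < i' → i' < 4 → Q i → ¬ Q i') (hR : ∀ i i', i < i' → i' < 4 → R i → ¬ R i') :
    ∃ i, ¬ P i ∧ ¬ Q i ∧ ¬ R i := by
  by_contra h
  have k : ∀ i, P i ∨ Q i ∨ R i := fun i => by
    by_contra h'
    exact h ⟨i, by tauto⟩
  have := k 0; have := k 1; have := k 2; have := k 3
  grind

theorem one_E2 {y : G} (ho : 32 ≤ orderOf y) (c : G) (K : Subgroup G)
    (hK : ∀ g ∈ K, g ∈ zpowers y → g = 1) (i i' : ℕ) (h : i < i') (h' : i' < 4)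
    (h1 : c * (y ^ (4 * i)) ^ 2 ∈ K) : ¬ c * (y ^ (4 * i')) ^ 2 ∈ K := by
  intro h2
  have h3 := hK _ (K.mul_mem (K.inv_mem h1) h2) (by
    rw [mul_inv_rev, mul_assoc, inv_mul_cancel_left]
    exact mul_mem (inv_mem (pow_mem (pow_mem (mem_zpowers y) _) _))
      (pow_mem (pow_mem (mem_zpowers y) _) _))
  rw [inv_mul_eq_one, mul_right_inj, ← pow_mul, ← pow_mul] at h3
  have := pow_injOn_Iio_orderOf (x := y) (Set.mem_Iio.2 (by omega)) (Set.mem_Iio.2 (by omega)) h3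
  omega

theorem idx_E2 [Finite G] {K : Subgroup G} {g : G} (hg : g ∈ K) (h1 : g ≠ 1) :
    2 * K.index ≤ Nat.card G := by
  rw [← K.card_mul_index]
  exact Nat.mul_le_mul_right _ ((one_lt_card_iff_ne_bot K).2 fun e => h1 (mem_bot.1 (e ▸ hg)))

end

theorem e2 (hU : S_UM) (hB : S_B) : S_E2 := by
  classical
  rintro G _ _ p a y Z hp ho h32 hZ ⟨A, j, t0, h0⟩
  have ha : 1 ≤ a := by
    by_contra hlt
    have : a = 0 := by omega
    subst this
    simp at h32
  have hy2 : y ^ 2 ≠ 1 := pow_ne_one_of_lt_orderOf (by norm_num) (by omega)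
  obtain ⟨B, x, hBA, hxA, hxB, hBy, hAB⟩ := hB G p a y A hp ho ha h0.1 (cm_E2 h0.2.2.1)
  have hjj : j * j = 1 := by rw [← sq, h0.2.1]
  have hj : j⁻¹ = j := inv_eq_of_mul_eq_one_right hjj
  have hjl : ∀ g, j * (j * g) = g := fun g => by rw [← mul_assoc, hjj, one_mul]
  have hiv : ∀ b ∈ A, j * b * j = b⁻¹ := fun b hb => by
    have : j⁻¹ * b * j = b⁻¹ := h0.2.2.1 b hb
    rwa [hj] at this
  have hcm := cm_E2 h0.2.2.1
  have hjy : j * y ≠ y * j := fun e => hy2 (by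
    have := hiv y h0.1
    rw [e, mul_assoc, hjj, mul_one] at this
    rw [sq]; exact mul_eq_one_iff_eq_inv.2 this)
  have hjA : j ∉ A := fun h => hjy (hcm j h y h0.1)
  obtain ⟨K, hK⟩ := ext_E2 B (j * x) (by rw [← mul_assoc, hiv x hxA, inv_mul_cancel]) (fun b hb => by
    have : j * x * b * (j * x) = j * (x * b) * j * x := by group
    rw [this, hiv _ (A.mul_mem hxA (hBA hb)), mul_inv_rev, inv_mul_cancel_right]
    exact B.inv_mem hb)
  have hKA : ∀ g ∈ K, g ∈ A ∨ g * j ∈ A := fun g hg => ((hK g).1 hg).imp (fun h => hBA h) fun h => by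
    simpa [mul_assoc] using A.mul_mem (hBA h) (A.inv_mem hxA)
  have hKy : ∀ g ∈ K, g ∈ zpowers y → g = 1 := by
    intro g hg hgy
    rcases (hK g).1 hg with h | h
    · exact mem_bot.1 (hBy ▸ mem_inf.2 ⟨h, hgy⟩)
    · exact absurd (by simpa [mul_assoc] using (A.mul_mem (A.mul_mem
        (A.inv_mem (zpowers_le.2 h0.1 hgy)) (hBA h)) (A.inv_mem hxA))) hjA
  obtain ⟨t1, h1, hY1⟩ := step1_E2 hp ho h32 h0
  have hbot : ∀ g ∈ (⊥ : Subgroup G), g ∈ zpowers y → g = 1 := fun g hg _ => mem_bot.1 hg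
  obtain ⟨i, p1, p2, p3⟩ := pick_E2 _ _ _ (one_E2 (ho ▸ h32) (t1 ^ 2) ⊥ hbot)
    (one_E2 (ho ▸ h32) (j⁻¹ * (t1⁻¹ * j * t1)) ⊥ hbot) (one_E2 (ho ▸ h32) (t1⁻¹ * j * t1) K hKy)
  have hw : y ^ (4 * i) ∈ zpowers (y ^ 4) := by rw [pow_mul]; exact pow_mem (mem_zpowers _) _
  obtain ⟨h2, e1, e2, e3⟩ := shift_E2 h1 (le_E2 y hw)
  obtain ⟨t, ht⟩ : ∃ t, t = t1 * y ^ (4 * i) := ⟨_, rfl⟩
  rw [← ht] at h2 e1 e2 e3
  rw [← e2, mem_bot] at p1
  rw [mul_assoc, ← e3, mem_bot, inv_mul_eq_one] at p2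
  rw [← e3] at p3
  have hY : t ^ 2 ∉ zpowers (y ^ 4) ∨ (t * j) ^ 2 ∉ zpowers (y ^ 4) := by
    rw [e1, e2, mul_mem_cancel_right (pow_mem hw 2)]
    exact hY1
  have hN := normal_E2 h2
  have hYy := le_E2 y
  generalize zpowers (y ^ 4) = Y at hY hN hYy ⊢
  obtain ⟨q1, -, -, q4, q5, q6, q7, q8, q9, q10⟩ := h2
  have hYA : Y ≤ A := hYy.trans (zpowers_le.2 q1)
  have hcj : ∀ g, j * g * j ∈ A → g ∈ A := fun g hg => by
    have h := A.inv_mem hg
    rwa [← hiv _ hg, mul_assoc j g j, hjl, mul_assoc, hjj, mul_one] at h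
  have n1 : t * j ∉ A := fun h => hjy (by
    have := hcm _ h y q1
    rwa [← mul_assoc, ← q5, mul_assoc, mul_assoc, mul_right_inj] at this)
  have n2 : j * t ∉ A := fun h => n1 (hcj _ (by rwa [mul_assoc, mul_assoc, hjj, mul_one]))
  have n3 : t⁻¹ * j * t ∉ A := fun h => n2 (by
    have e : j * t = t⁻¹ * (t * j) * t := by group
    have h' := hcm _ h y q1
    refine absurd ?_ hjy
    rw [mul_assoc, q5, ← mul_assoc, ← mul_assoc, mul_left_inj, ← mul_right_inj t] at h'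
    simp only [← mul_assoc, q5, mul_inv_cancel, one_mul, mul_inv_cancel_right] at h'
    exact h')
  have hS : ∀ s, s ∈ ({1, j, t, j * t} : Set G) ↔ s = 1 ∨ s = j ∨ s = t ∨ s = j * t :=
    fun _ => Iff.rfl
  generalize ({1, j, t, j * t} : Set G) = S at hS
  have s1 : (1 : G) ∈ S := (hS _).2 (Or.inl rfl)
  have sj : j ∈ S := (hS _).2 (Or.inr (Or.inl rfl))
  have st : t ∈ S := (hS _).2 (Or.inr (Or.inr (Or.inl rfl)))
  have sjt : j * t ∈ S := (hS _).2 (Or.inr (Or.inr (Or.inr rfl)))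
  have hjS : ∀ s ∈ S, j * s ∈ S := by
    intro s hs
    rcases (hS s).1 hs with rfl | rfl | rfl | rfl
    · rwa [mul_one]
    · rwa [hjj]
    · exact sjt
    · rwa [hjl]
  have k1 : ∀ k ∈ zpowers j, ∀ s ∈ S, k * s ∈ S := by
    rintro k ⟨m, rfl⟩ s hs
    have h2 : j ^ (2 : ℤ) = 1 := by rw [zpow_two, hjj]
    obtain ⟨b, rfl | rfl⟩ := Int.even_or_odd' m
    · simpa [zpow_mul, h2] using hs
    · simpa [zpow_add, zpow_mul, h2] using hjS s hs
  have dec : ∀ s ∈ S, ∃ k ∈ zpowers j, s = k ∨ s = k * t := by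
    intro s hs
    rcases (hS s).1 hs with rfl | rfl | rfl | rfl
    · exact ⟨1, one_mem _, Or.inl rfl⟩
    · exact ⟨s, mem_zpowers _, Or.inl rfl⟩
    · exact ⟨1, one_mem _, Or.inr (one_mul _).symm⟩
    · exact ⟨j, mem_zpowers _, Or.inr rfl⟩
  have sA : ∀ s ∈ S, s ∈ A → s = 1 := by
    intro s hs h
    rcases (hS s).1 hs with rfl | rfl | rfl | rfl
    exacts [rfl, absurd h hjA, absurd h q9, absurd h n2]
  have t1' : t ≠ 1 := fun e => q9 (e ▸ A.one_mem)
  have tS : ∀ s ∈ S, t * s ∈ S → s = 1 := by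
    intro s hs h
    rcases (hS s).1 hs with rfl | rfl | rfl | rfl
    · rfl
    · rcases (hS _).1 h with e | e | e | e
      · exact absurd (e ▸ A.one_mem) n1
      · exact absurd (mul_eq_right.1 e) t1'
      · exact mul_eq_left.1 e
      · exact absurd (by rw [mul_assoc, ← e, inv_mul_cancel_left]) p2
    · exact absurd (sA _ h (by rwa [← sq])) (by rwa [← sq])
    · have := sA _ (hjS _ h) (hcj _ (by rw [hjl, ← mul_assoc, mul_assoc, ← sq]; exact q7))
      refine absurd ?_ q8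
      have e : (t * j) ^ 2 = j * (j * (t * (j * t))) * j := by rw [hjl, sq]; group
      rw [e, this, mul_one, hjj]
  have k2 : SidonMod (zpowers j) S := by
    intro s hs r hr s' hs' r' hr' e
    obtain ⟨k, hk, rfl | rfl⟩ := dec s hs <;> obtain ⟨k', hk', rfl | rfl⟩ := dec s' hs'
    · exact Or.inr (mul_mem hk (inv_mem hk'))
    · refine Or.inl (inv_mul_eq_one.1 (tS _ (k1 _ (inv_mem hk) r hr) ?_))
      rw [e, mul_inv_rev, mul_assoc, mul_inv_cancel_left]
      exact k1 _ (inv_mem hk') r' hr'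
    · refine Or.inl (inv_mul_eq_one.1 (e.trans (tS _ (k1 _ (inv_mem hk') r' hr') ?_)))
      rw [← e, mul_inv_rev, mul_assoc, mul_inv_cancel_left]
      exact k1 _ (inv_mem hk) r hr
    · refine Or.inr ?_
      rw [mul_inv_rev, mul_assoc, mul_inv_cancel_left]
      exact mul_mem hk (inv_mem hk')
  have k4 : ∀ L : Subgroup G, j ∉ L → t ∉ L → j * t ∉ L → t⁻¹ * j * t ∉ L →
      ∀ s ∈ S, ∀ r ∈ S, s⁻¹ * r ∈ L → s = r := by
    intro L l1 l2 l3 l4 s hs r hr e
    obtain ⟨k, hk, rfl | rfl⟩ := dec s hs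
    · rcases (hS _).1 (k1 _ (inv_mem hk) r hr) with h | h | h | h
      · exact inv_mul_eq_one.1 h
      all_goals rw [h] at e; contradiction
    · rw [mul_inv_rev, mul_assoc] at e
      rcases (hS _).1 (k1 _ (inv_mem hk) r hr) with h | h | h | h
      · rw [h, mul_one, inv_mem_iff] at e; contradiction
      · rw [h, ← inv_mem_iff, mul_inv_rev, inv_inv, hj] at e; contradiction
      · rw [← h, mul_inv_cancel_left]
      · rw [h, ← mul_assoc] at e; contradiction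
  have kY := k4 Y (fun h => hjA (hYA h)) (fun h => q9 (hYA h)) (fun h => n2 (hYA h))
    (fun h => n3 (hYA h))
  have kK := k4 K (fun h => ((hK j).1 h).elim (fun h => hjA (hBA h)) fun h => hxB (by rwa [hjl] at h))
    (fun h => (hKA t h).elim q9 n1) (fun h => (hKA _ h).elim n2 fun h => q9 (hcj t h)) p3
  have hKY : ∀ g ∈ K, g ∈ Y → g = 1 := fun g hg h => hKy g hg (hYy h)
  have hjx : j * x ∈ K := (hK _).2 (Or.inr (by
    rw [← mul_assoc, hiv x hxA, inv_mul_cancel]; exact B.one_mem))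
  have hR := hU.um1 {K, Y} (Z.image fun z => (Y, z)) (zpowers j) S (by
      intro L hL L' hL' hne
      rw [eq_bot_iff]
      intro g hg
      simp only [Finset.mem_insert, Finset.mem_singleton] at hL hL'
      rcases hL with rfl | rfl <;> rcases hL' with rfl | rfl
      exacts [absurd rfl hne, hKY g hg.1 hg.2, hKY g hg.2 hg.1, absurd rfl hne]) (by
      intro γ hγ
      obtain ⟨z, -, rfl⟩ := Finset.mem_image.1 hγ
      simp [cj_eq_of_normal]) k1 k2 ⟨1, s1, t, st, t1'.symm⟩ (by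
      intro L hL
      rcases Finset.mem_insert.1 hL with rfl | hL
      · exact kK
      · exact Finset.mem_singleton.1 hL ▸ kY) (by
      intro φ _ hP hG hL z
      have hg := gad_E2 hZ (fun z hz => hG (Y, z) (Finset.mem_image.2 ⟨z, hz, rfl⟩))
      have fK : ∀ k ∈ K, Fixes φ k := by
        intro k hk g
        obtain ⟨k', hk', e⟩ := hP K (Finset.mem_insert_self _ _) g k hk
        obtain ⟨w, hw, e'⟩ := hg k g
        have : w = k⁻¹ * k' := by
          rw [e, mul_assoc, mul_right_inj] at e'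
          rw [e', inv_mul_cancel_left]
        rw [e', hKY w (this ▸ K.mul_mem (K.inv_mem hk) hk') hw, mul_one]
      have fS : ∀ s ∈ S, Fixes φ s := by
        intro s hs g
        obtain ⟨g', hg'⟩ := hL g
        have key : ∀ k ∈ zpowers j, ∀ u, g'⁻¹ * φ g = k * u → ∀ r ∈ S,
            ∃ w ∈ Y, φ (g * r) = φ g * r * w ∧ u * r * w ∈ S := by
          intro k hk u e r hr
          obtain ⟨w, hw, e'⟩ := hg r g
          refine ⟨w, hw, e', ?_⟩
          have := k1 _ (inv_mem hk) _ (hg' r hr)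
          rwa [e', mul_assoc (φ g), ← mul_assoc g'⁻¹, e, mul_assoc k, inv_mul_cancel_left,
            ← mul_assoc] at this
        obtain ⟨k, hk, e | e⟩ := dec _ (by simpa using hg' 1 s1)
        · obtain ⟨w, hw, e1, e2⟩ := key k hk 1 (by rw [e, mul_one]) s hs
          rw [one_mul] at e2
          have := kY s hs _ e2 (by rwa [inv_mul_cancel_left])
          rw [e1, mul_assoc, ← this]
        · exfalso
          obtain ⟨w, hw, -, e2⟩ := key k hk t e t st
          obtain ⟨w', hw', -, e3⟩ := key k hk t e _ sjt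
          have c1 := sA _ e2 (A.mul_mem (by rwa [← sq]) (hYA hw))
          have c0 : j * (t * (j * t)) = j * (t * j) ^ 2 * j := by
            rw [sq, mul_assoc, mul_assoc, mul_assoc t j j, hjj, mul_one, mul_assoc]
          have c2 := sA _ (hjS _ e3) (by
            rw [← mul_assoc, c0, hiv _ q7]; exact A.mul_mem (A.inv_mem q7) (hYA hw'))
          rw [← mul_assoc, c0, hiv _ q7, inv_mul_eq_one] at c2
          rw [← sq, mul_eq_one_iff_eq_inv] at c1
          exact hY.elim (fun h => h (c1 ▸ Y.inv_mem hw)) fun h => h (c2 ▸ hw')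
      refine Fixes.closure ?_ z (q10 ▸ mem_top z)
      rintro u (rfl | rfl | hu)
      · exact fS _ sj
      · exact fS _ st
      · refine Fixes.closure ?_ u (hAB hu)
        rintro v (rfl | hv)
        · exact hjl v ▸ (fS j sj).mul (fK _ hjx)
        · exact fK v ((hK v).2 (Or.inl hv)))
  refine hR.mono ?_
  have i1 := idx_E2 (mem_zpowers j) (fun e => hjA (e ▸ A.one_mem))
  have i2 := idx_E2 hjx (fun e => hjA (by rw [mul_eq_one_iff_eq_inv.1 e]; exact A.inv_mem hxA))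
  have i3 : ∑ L ∈ ({K, Y} : Finset (Subgroup G)), L.index ≤ K.index + Y.index := by
    by_cases e : K = Y
    · simp [e]
    · rw [Finset.sum_pair e]
  have i4 : (Z.image fun z => (Y, z)).card ≤ Z.card := Finset.card_image_le
  have i5 : ∑ γ ∈ Z.image fun z => (Y, z), γ.1.index ≤ Z.card * Y.index := by
    refine (Finset.sum_le_card_nsmul _ _ Y.index fun γ hγ => ?_).trans (Nat.mul_le_mul_right _ i4)
    obtain ⟨z, -, rfl⟩ := Finset.mem_image.1 hγ
    exact le_rfl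
  have i6 : ({K, Y} : Finset (Subgroup G)).card ≤ 2 := Finset.card_le_two
  have i7 : 1 ≤ Y.index := Nat.pos_of_ne_zero Y.index_ne_zero_of_finite
  have i8 : (({K, Y} : Finset (Subgroup G)).card + (Z.image fun z => (Y, z)).card + 3) ^ 2 ≤
      (Z.card + 5) ^ 2 * Y.index :=
    (Nat.pow_le_pow_left (by omega) 2).trans (Nat.le_mul_of_pos_right _ i7)
  nlinarith

end Pool.Agent.MP_a1dcd4_co.SH

end

section

set_option autoImplicit false

namespace Pool.Agent.MP_a1dcd4_co.SH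

open Function Subgroup Pool.Agent.MP_a1dcd4_co.OR

section

variable {G : Type} [Group G]

theorem good_SL [Finite G] {ι : Type} (U : Subgroup G) (γ c : ℕ) (s : Finset ι) (B : ι → Set G)
    (h : ∀ i ∈ s, γ * (B i).ncard ≤ c * Nat.card U) (hs : s.card * c < γ) :
    ∃ y ∈ U, ∀ i ∈ s, y ∉ B i := by
  classical
  by_contra hc
  push Not at hc
  have h1 : (U : Set G).ncard ≤ ∑ i ∈ s, (B i).ncard := by
    refine le_trans (Set.ncard_le_ncard (t := ⋃ i ∈ s, B i) ?_) (Finset.set_ncard_biUnion_le s B)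
    intro y hy
    obtain ⟨i, hi, hy'⟩ := hc y hy
    exact Set.mem_biUnion hi hy'
  have h2 : γ * ∑ i ∈ s, (B i).ncard ≤ s.card * (c * Nat.card U) := by
    rw [Finset.mul_sum, ← smul_eq_mul]
    exact Finset.sum_le_card_nsmul _ _ _ h
  have h3 : (U : Set G).ncard = Nat.card U := rfl
  have h4 : 0 < Nat.card U := Nat.card_pos
  rw [h3] at h1
  have := Nat.mul_le_mul_left γ h1
  nlinarith

theorem single_SL [Finite G] (U : Subgroup G) {γ : ℕ} (hγ : γ ≤ Nat.card U) (B : Set G)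
    (h : B.Subsingleton) : γ * B.ncard ≤ Nat.card U := by
  have := Set.ncard_le_one_iff_subsingleton.2 h
  nlinarith

theorem sidon_insert_SL {S : Set G} {z : G} (hS : Sidon S)
    (ha : ∀ u ∈ S, ∀ v ∈ S, ∀ w ∈ S, z ≠ u * v⁻¹ * w)
    (hb : ∀ u ∈ S, ∀ v ∈ S, z * u⁻¹ * z ≠ v) : Sidon (insert z S) := by
  intro s hs t ht s' hs' t' ht' e
  rcases hs with rfl | hs <;> rcases ht with h | ht
  · left; rw [h, inv_mul_cancel]
  · rcases hs' with h | hs'
    · exact Or.inr h.symm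
    rcases ht' with rfl | ht'
    · exact (hb _ hs' _ ht (by rw [mul_assoc, ← e]; group)).elim
    · refine (ha _ ht _ ht' _ hs' ?_).elim
      calc s = t * (s⁻¹ * t)⁻¹ := by group
        _ = _ := by rw [e]; group
  · subst h
    rcases hs' with rfl | hs' <;> rcases ht' with h | ht'
    · left; rw [e, h, inv_mul_cancel]
    · exact (hb _ hs _ ht' (by rw [mul_assoc, e]; group)).elim
    · subst h
      exact Or.inr (inv_injective (mul_right_cancel e))
    · exact (ha _ hs _ hs' _ ht' (by rw [mul_assoc, ← e]; group)).elim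
  · rcases hs' with rfl | hs' <;> rcases ht' with h | ht'
    · left; rw [e, h, inv_mul_cancel]
    · refine (ha _ ht' _ ht _ hs ?_).elim
      calc s' = t' * (s'⁻¹ * t')⁻¹ := by group
        _ = _ := by rw [← e]; group
    · subst h
      exact (ha _ hs' _ hs _ ht (by rw [mul_assoc, e]; group)).elim
    · exact hS s hs t ht s' hs' t' ht' e

end

theorem sl : S_SL := by
  classical
  intro G _ _ U T Bad γ hU hB hγ hγU hT
  suffices H : ∀ T1 : Finset G, T1 ⊆ T → ∃ y : G → G, (∀ t, y t ∈ U) ∧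
      Sidon {s | ∃ t ∈ T1, s = t * y t} ∧
      (∀ t ∈ T1, ∀ t' ∈ T1, t ≠ t' → (t * y t)⁻¹ * (t' * y t') ∉ Bad) ∧
      ∀ t ∈ T, ∀ a ∈ T1, ∀ b ∈ T1, a ≠ b → b * y b ≠ t * (a * y a)⁻¹ * t by
    obtain ⟨y, h1, h2, h3, -⟩ := H T (Finset.Subset.refl T)
    exact ⟨y, h1, h2, h3⟩
  intro T1
  induction T1 using Finset.induction_on with
  | empty => exact fun _ => ⟨fun _ => 1, fun _ => U.one_mem, by simp [Sidon], by simp, by simp⟩
  | insert t T1 ht ih =>
  intro hsub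
  have hT1 : T1 ⊆ T := (Finset.subset_insert _ _).trans hsub
  have htT : t ∈ T := hsub (Finset.mem_insert_self _ _)
  obtain ⟨y, h1, h2, h3, h4⟩ := ih hT1
  have hne : ∀ a ∈ T1, a ≠ t := fun a ha e => ht (e ▸ ha)
  obtain ⟨w, hw, hgood⟩ := good_SL U γ 4 (T ×ˢ T ×ˢ T) (fun i =>
      {w | t * w = i.1 * y i.1 * (i.2.1 * y i.2.1)⁻¹ * (i.2.2 * y i.2.2)} ∪
      {w | w ∈ U ∧ i.1 ∈ T1 ∧ i.2.1 ∈ T1 ∧ t * w * (i.1 * y i.1)⁻¹ * (t * w) = i.2.1 * y i.2.1} ∪
      {w | t * w = i.2.1 * (i.1 * y i.1)⁻¹ * i.2.1} ∪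
      {w | w ∈ U ∧ i.1 ∈ T1 ∧ (i.1 * y i.1)⁻¹ * (t * w) ∈ Bad})
    (by
      rintro ⟨a, b, c⟩ -
      have k1 := single_SL U hγU {w | t * w = a * y a * (b * y b)⁻¹ * (c * y c)}
        fun u hu v hv => mul_left_cancel (hu.trans hv.symm)
      have k3 := single_SL U hγU {w | t * w = b * (a * y a)⁻¹ * b}
        fun u hu v hv => mul_left_cancel (hu.trans hv.symm)
      have k4 : γ * {w | w ∈ U ∧ a ∈ T1 ∧ (a * y a)⁻¹ * (t * w) ∈ Bad}.ncard ≤ Nat.card U := by
        by_cases ha : a ∈ T1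
        · simpa [ha, mul_assoc] using (hT a (hT1 ha) t htT (hne a ha)).2.2 (y a) (h1 a)
        · simp [ha]
      have k2 : γ * {w | w ∈ U ∧ a ∈ T1 ∧ b ∈ T1 ∧
          t * w * (a * y a)⁻¹ * (t * w) = b * y b}.ncard ≤ Nat.card U := by
        rcases Set.eq_empty_or_nonempty {w | w ∈ U ∧ a ∈ T1 ∧ b ∈ T1 ∧
          t * w * (a * y a)⁻¹ * (t * w) = b * y b} with h | ⟨w0, hw0, ha, hb, e0⟩
        · rw [h, Set.ncard_empty]
          exact Nat.zero_le _
        rcases (hT a (hT1 ha) t htT (hne a ha)).2.1 with ⟨hi, hsq⟩ | hfew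
        · exfalso
          have i1 : ∀ e ∈ U, e * (a⁻¹ * t) = a⁻¹ * t * e⁻¹ := fun e he => by
            rw [← hi e he]
            group
          have e1 : t * (a * y a)⁻¹ * t = b * y b := by
            rw [← e0]
            calc t * (a * y a)⁻¹ * t = t * ((y a)⁻¹ * (a⁻¹ * t)) := by group
              _ = t * ((y a)⁻¹ * (w0 * (a⁻¹ * t)) * w0) := by rw [i1 w0 hw0]; group
              _ = t * ((y a)⁻¹ * w0 * (a⁻¹ * t) * w0) := by group
              _ = _ := by rw [hU _ (U.inv_mem (h1 a)) _ hw0]; group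
          by_cases hab : a = b
          · subst hab
            apply hsq
            calc (a⁻¹ * t) ^ 2 = a⁻¹ * t * (y a)⁻¹ * (y a * (a⁻¹ * t)) := by rw [pow_two]; group
              _ = a⁻¹ * t * (y a)⁻¹ * (a⁻¹ * t * (y a)⁻¹) * (y a * (y a)⁻¹) := by
                rw [i1 _ (h1 a)]; group
              _ = a⁻¹ * (t * (a * y a)⁻¹ * t) * (y a)⁻¹ := by group
              _ = 1 := by rw [e1]; group
          · exact h4 t htT a ha b hb hab e1.symm
        · refine le_trans (Nat.mul_le_mul_left γ ?_) hfew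
          refine Set.ncard_le_ncard_of_injOn (fun w => w0⁻¹ * w) ?_
            (fun u _ v _ e => mul_left_cancel e)
          rintro w ⟨hw, -, -, e⟩
          have hm := U.mul_mem (U.inv_mem hw0) hw
          refine ⟨hm, ?_⟩
          have e2 : w * ((y a)⁻¹ * (a⁻¹ * t)) * w = w0 * ((y a)⁻¹ * (a⁻¹ * t)) * w0 := by
            apply mul_left_cancel (a := t)
            calc _ = t * w * (a * y a)⁻¹ * (t * w) := by group
              _ = t * w0 * (a * y a)⁻¹ * (t * w0) := by rw [e, e0]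
              _ = _ := by group
          calc (a⁻¹ * t)⁻¹ * (w0⁻¹ * w) * (a⁻¹ * t)
              = (a⁻¹ * t)⁻¹ * (y a * (w0⁻¹ * w)) * ((y a)⁻¹ * (a⁻¹ * t)) := by
                rw [hU _ (h1 a) _ hm]; group
            _ = (a⁻¹ * t)⁻¹ * y a * w0⁻¹ * (w * ((y a)⁻¹ * (a⁻¹ * t)) * w) * w⁻¹ := by group
            _ = w0 * w⁻¹ := by rw [e2]; group
            _ = (w0⁻¹ * w)⁻¹ := by rw [hU _ hw0 _ (U.inv_mem hw)]; group
      have u1 := fun A B : Set G => Set.ncard_union_le A B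
      refine le_trans (Nat.mul_le_mul_left γ ((u1 _ _).trans (Nat.add_le_add_right
        ((u1 _ _).trans (Nat.add_le_add_right (u1 _ _) _)) _))) ?_
      simp only [mul_add]
      omega)
    (by simp only [Finset.card_product]; nlinarith)
  simp only [Finset.mem_product, Set.mem_union, Set.mem_ofPred_eq, not_or, Prod.forall] at hgood
  have hy : ∀ a ∈ T1, update y t w a = y a := fun a ha => update_of_ne (hne a ha) _ _
  have hset : {s | ∃ a ∈ insert t T1, s = a * update y t w a} =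
      insert (t * w) {s | ∃ a ∈ T1, s = a * y a} := by
    ext s
    simp only [Finset.mem_insert, exists_eq_or_imp, update_self, Set.mem_ofPred_eq,
      Set.mem_insert_iff]
    exact or_congr Iff.rfl ⟨fun ⟨a, ha, e⟩ => ⟨a, ha, by rw [e, hy a ha]⟩,
      fun ⟨a, ha, e⟩ => ⟨a, ha, by rw [e, hy a ha]⟩⟩
  refine ⟨update y t w, fun a => ?_, ?_, ?_, ?_⟩
  · by_cases e : a = t
    · rwa [e, update_self]
    · rw [update_of_ne e]
      exact h1 a
  · rw [hset]
    refine sidon_insert_SL h2 ?_ ?_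
    · rintro _ ⟨a, ha, rfl⟩ _ ⟨b, hb, rfl⟩ _ ⟨c, hc, rfl⟩
      exact (hgood a b c ⟨hT1 ha, hT1 hb, hT1 hc⟩).1.1.1
    · rintro _ ⟨a, ha, rfl⟩ _ ⟨b, hb, rfl⟩ e
      exact (hgood a b b ⟨hT1 ha, hT1 hb, hT1 hb⟩).1.1.2 ⟨hw, ha, hb, e⟩
  · intro a ha b hb hab
    rw [Finset.mem_insert] at ha hb
    rcases ha with rfl | ha <;> rcases hb with rfl | hb
    · exact (hab rfl).elim
    · rw [update_self, hy b hb]
      intro e
      exact (hgood b b b ⟨hT1 hb, hT1 hb, hT1 hb⟩).2 ⟨hw, hb, by simpa using hB _ e⟩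
    · rw [update_self, hy a ha]
      intro e
      exact (hgood a a a ⟨hT1 ha, hT1 ha, hT1 ha⟩).2 ⟨hw, ha, e⟩
    · rw [hy a ha, hy b hb]
      exact h3 a ha b hb hab
  · intro t' ht' a ha b hb hab
    rw [Finset.mem_insert] at ha hb
    rcases ha with rfl | ha <;> rcases hb with rfl | hb
    · exact (hab rfl).elim
    · rw [update_self, hy b hb]
      intro e
      exact (hgood b t' b ⟨hT1 hb, ht', hT1 hb⟩).1.2 (by rw [e]; group)
    · rw [update_self, hy a ha]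
      exact (hgood a t' a ⟨hT1 ha, ht', hT1 ha⟩).1.2
    · rw [hy a ha, hy b hb]
      exact h4 t' ht' a ha b hb hab

end Pool.Agent.MP_a1dcd4_co.SH

end

section

set_option autoImplicit false

namespace Pool.Agent.MP_a1dcd4_co.SH

open Function Subgroup Pool.Agent.MP_a1dcd4_co.OR

section

variable {G : Type} [Group G] {y a b : G}

theorem cv_Sel : a ∈ centralizer {y} ↔ a⁻¹ * y * a = y := by
  rw [mem_centralizer_singleton_iff, mul_assoc, inv_mul_eq_iff_eq_mul, eq_comm]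

theorem ii_Sel (ha : Ivt a y) (hb : Ivt b y) : a * b ∈ centralizer {y} :=
  cv_Sel.2 <| calc
    (a * b)⁻¹ * y * (a * b) = b⁻¹ * (a⁻¹ * y * a) * b := by group
    _ = (b⁻¹ * y * b)⁻¹ := by rw [ha]; group
    _ = y := by rw [hb, inv_inv]

theorem ci_Sel (ha : a ∈ centralizer {y}) (hb : Ivt b y) : Ivt (a * b) y :=
  calc (a * b)⁻¹ * y * (a * b) = b⁻¹ * (a⁻¹ * y * a) * b := by group
    _ = y⁻¹ := by rw [cv_Sel.1 ha, hb]

theorem ic_Sel (ha : Ivt a y) (hb : b ∈ centralizer {y}) : Ivt (a * b) y :=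
  calc (a * b)⁻¹ * y * (a * b) = b⁻¹ * (a⁻¹ * y * a) * b := by group
    _ = (b⁻¹ * y * b)⁻¹ := by rw [ha]; group
    _ = y⁻¹ := by rw [cv_Sel.1 hb]

theorem iv_Sel (ha : Ivt a y) : Ivt a⁻¹ y :=
  calc a⁻¹⁻¹ * y * a⁻¹ = (a * y⁻¹ * a⁻¹)⁻¹ := by group
    _ = (a * (a⁻¹ * y * a) * a⁻¹)⁻¹ := by rw [ha]
    _ = y⁻¹ := by group

theorem ne_Sel (hy : y ^ 2 ≠ 1) (ha : a ∈ centralizer {y}) : ¬ Ivt a y := fun h =>
  hy (by rw [sq]; exact mul_eq_one_iff_eq_inv.2 ((cv_Sel.1 ha).symm.trans h))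

/-- the elements that fix or invert `y` -/
def H_Sel (y : G) : Subgroup G where
  carrier := {g | g ∈ centralizer {y} ∨ Ivt g y}
  one_mem' := .inl (one_mem _)
  mul_mem' := by
    rintro a b (ha | ha) (hb | hb)
    exacts [.inl (mul_mem ha hb), .inr (ci_Sel ha hb), .inr (ic_Sel ha hb), .inl (ii_Sel ha hb)]
  inv_mem' := by
    rintro a (ha | ha)
    exacts [.inl (inv_mem ha), .inr (iv_Sel ha)]

theorem c0_Sel (y : G) : ∃ c ∈ centralizer {y},
    (∃ c, c * y = y * c ∧ c ∉ zpowers y) → c ∉ zpowers y := by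
  by_cases h : ∃ c, c * y = y * c ∧ c ∉ zpowers y
  · obtain ⟨c, h1, h2⟩ := h
    exact ⟨c, mem_centralizer_singleton_iff.2 h1, fun _ => h2⟩
  · exact ⟨1, one_mem _, fun h' => absurd h' h⟩

theorem subA_Sel (hy : y ^ 2 ≠ 1) {Z : Finset G} (hZ : closure (Z : Set G) = ⊤) {i t : G}
    (hi : Ivt i y) (hi2 : i ^ 2 ≠ 1) (ht : t ∉ H_Sel y)
    (hn : ∀ b c, c ∈ centralizer {y} → b⁻¹ * c * b ∈ centralizer {y})
    (h2 : ∀ g, g ∉ H_Sel y → t⁻¹ * g ∈ H_Sel y) : ∃ T, Free y (4 * Z.card + 24) T := by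
  classical
  obtain ⟨c, hc, hc'⟩ := c0_Sel y
  have hw : ∀ z : G, ∃ w ∈ closure {i, t}, t⁻¹ * (z * w) ∈ centralizer {y} := fun z => by
    have m1 : i ∈ closure {i, t} := subset_closure (.inl rfl)
    have m2 : t ∈ closure {i, t} := subset_closure (.inr rfl)
    by_cases h : z ∈ H_Sel y
    · rcases h with h | h
      · exact ⟨t, m2, by simpa only [mul_assoc] using hn t z h⟩
      · exact ⟨i * t, mul_mem m1 m2, by simpa only [mul_assoc] using hn t _ (ii_Sel h hi)⟩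
    · rcases h2 z h with h | h
      · exact ⟨1, one_mem _, by rwa [mul_one]⟩
      · exact ⟨i, m1, by simpa only [mul_assoc] using ii_Sel h hi⟩
  choose w w1 w2 using hw
  obtain ⟨T, hT⟩ : ∃ T : Finset G, T = insert 1 (insert i (insert t (insert (t * c)
      (Z.image fun z => z * w z)))) := ⟨_, rfl⟩
  have m : ∀ x ∈ T, x = 1 ∨ x = i ∨ t⁻¹ * x ∈ centralizer {y} := fun x hx => by
    simp only [hT, Finset.mem_insert, Finset.mem_image] at hx
    rcases hx with h | h | rfl | rfl | ⟨z, -, rfl⟩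
    exacts [.inl h, .inr (.inl h), .inr (.inr (by simp)), .inr (.inr (by simpa using hc)),
      .inr (.inr (w2 z))]
  have o : ∀ x x' : G, x ∈ H_Sel y → t⁻¹ * x' ∈ centralizer {y} → x⁻¹ * x' ∉ H_Sel y :=
    fun x x' h h' e => ht (by
      have := mul_mem (mul_mem h e) (inv_mem (show t⁻¹ * x' ∈ H_Sel y from .inl h'))
      simpa using this)
  have iH : i ∈ H_Sel y := .inr hi
  refine ⟨T, ?_, by simp [hT], ?_, fun x hx x' hx' h => ?_, fun h => ⟨t, by simp [hT], t * c,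
    by simp [hT], by simpa using mem_centralizer_singleton_iff.1 hc, by simpa using hc' h⟩⟩
  · rw [hT]
    iterate 4 refine (Finset.card_insert_le _ _).trans (Nat.add_le_of_le_sub (by omega) ?_)
    exact Finset.card_image_le.trans (by omega)
  · rw [eq_top_iff, ← hZ, closure_le]
    intro z hz
    have s : ∀ x ∈ T, x ∈ closure (insert y (T : Set G)) := fun x hx => subset_closure (.inr hx)
    have e : closure {i, t} ≤ closure (insert y (T : Set G)) := (closure_le _).2 (by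
      rintro x (rfl | rfl) <;> exact s _ (by simp [hT]))
    have := mul_mem (s (z * w z) (by
      simp only [hT, Finset.mem_insert, Finset.mem_image]
      exact .inr (.inr (.inr (.inr ⟨z, hz, rfl⟩))))) (inv_mem (e (w1 z)))
    simpa using this
  · rcases m x hx with rfl | rfl | h1 <;> rcases m x' hx' with rfl | rfl | h3
    · exact absurd h (ne_Sel hy (by simp))
    · simpa using hi2
    · exact absurd (.inr h) (o _ _ (one_mem _) h3)
    · simpa using hi2
    · exact absurd h (ne_Sel hy (by simp))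
    · exact absurd (.inr h) (o _ _ iH h3)
    · exact absurd (.inr (by simpa using iv_Sel h)) (o 1 x (one_mem _) h1)
    · exact absurd (.inr (by simpa using iv_Sel h)) (o x' x iH h1)
    · refine absurd h (ne_Sel hy ?_)
      simpa [mul_assoc] using mul_mem (inv_mem h1) h3

theorem exc_Sel {j t y' : G} (hj : Ivt j y) (hj2 : j ^ 2 = 1)
    (hA : ∀ c ∈ centralizer {y}, Ivt j c) (ht : t ∉ H_Sel y)
    (hn : ∀ b c, c ∈ centralizer {y} → b⁻¹ * c * b ∈ centralizer {y})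
    (h1 : ∀ g, g ∉ H_Sel y → g ^ 2 ∈ centralizer {y})
    (h2 : ∀ g, g ∉ H_Sel y → t⁻¹ * g ∈ H_Sel y) (hy' : y' ∈ centralizer {y})
    (h3 : t * y' = y' * t) (h4 : (t * j) ^ 2 ≠ 1) : Exc2 y' := by
  refine ⟨centralizer {y}, j, t, hy', hj2, hA, fun a => hn t a, h3, h1 t ht,
    h1 _ fun h => ht ((mul_mem_cancel_right (show j ∈ H_Sel y from .inr hj)).1 h), h4,
    fun h => ht (.inl h), eq_top_iff.2 fun g _ => ?_⟩
  have e : ∀ g ∈ H_Sel y, g ∈ closure (insert j (insert t (centralizer {y} : Set G))) := by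
    rintro g (h | h)
    · exact subset_closure (.inr (.inr h))
    · exact (mul_mem_cancel_right (subset_closure (.inl rfl))).1
        (subset_closure (.inr (.inr (ii_Sel h hj))))
  by_cases h : g ∈ H_Sel y
  · exact e g h
  · exact (mul_mem_cancel_left (inv_mem (subset_closure (.inr (.inl rfl))))).1 (e _ (h2 g h))

end

theorem sel (hS : S_Seed) (hC : S_SelC) : S_Sel := by
  intro G _ _ p a y Z hp ho hy hZ
  classical
  by_cases h0 : ∃ j, j ^ 2 = 1 ∧ Ivt j y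
  swap
  · obtain ⟨c, hc, hc'⟩ := c0_Sel y
    refine .inl ⟨insert 1 (insert c Z), ?_, by simp, ?_, fun _ _ _ _ h h' => h0 ⟨_, h', h⟩,
      fun h => ⟨1, by simp, c, by simp, by simpa using mem_centralizer_singleton_iff.1 hc,
        by simpa using hc' h⟩⟩
    · iterate 2 refine (Finset.card_insert_le _ _).trans (Nat.add_le_of_le_sub (by omega) ?_)
      omega
    · rw [eq_top_iff, ← hZ]
      exact closure_mono fun z hz => .inr (by simp [show z ∈ Z from hz])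
  obtain ⟨j, hj2, hj⟩ := h0
  rcases hS G y j Z hy hZ hj with ⟨T, h1, h2⟩ | h | ⟨-, hn, ⟨t, t1, t2⟩, h4⟩
  · exact .inl ⟨T, by omega, h2⟩
  · exact (hC G y j Z hy hZ hj2 hj h).imp_right fun h => h.imp_right fun h =>
      ⟨y, dvd_rfl, by omega, h⟩
  simp only [Ne, ← mem_centralizer_singleton_iff] at hn t1 h4
  have ht : t ∉ H_Sel y := fun h => h.elim t1 t2
  have h1 : ∀ g, g ∉ H_Sel y → g ^ 2 ∈ centralizer {y} := fun g hg => by
    rw [sq]
    exact (h4 g g (fun h => hg (.inl h)) (fun h => hg (.inr h)) (fun h => hg (.inl h))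
      fun h => hg (.inr h)).resolve_left (ne_Sel hy (by simp))
  have h2 : ∀ u, u ∉ H_Sel y → ∀ g, g ∉ H_Sel y → u⁻¹ * g ∈ H_Sel y := fun u hu g hg =>
    (h4 u g (fun h => hu (.inl h)) (fun h => hu (.inr h)) (fun h => hg (.inl h))
      fun h => hg (.inr h)).elim .inr fun h => .inl (by
        simpa [sq, mul_assoc] using mul_mem (inv_mem (h1 u hu)) h)
  by_cases h5 : ∃ i, Ivt i y ∧ i ^ 2 ≠ 1
  · obtain ⟨i, hi, hi2⟩ := h5
    exact .inl (subA_Sel hy hZ hi hi2 ht hn (h2 t ht))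
  refine .inr (.inr ?_)
  have jj : j⁻¹ = j := inv_eq_of_mul_eq_one_right (by rwa [← sq])
  have hA : ∀ c ∈ centralizer {y}, Ivt j c := fun c hc => by
    have e : (c * j) ^ 2 = 1 := not_not.1 fun h => h5 ⟨_, ci_Sel hc hj, h⟩
    rw [sq, mul_assoc] at e
    rw [Ivt, jj, mul_assoc]
    exact eq_inv_of_mul_eq_one_right e
  have cm : ∀ c ∈ centralizer {y}, ∀ d ∈ centralizer {y}, Commute c d := fun c hc d hd => by
    have e : (c * d)⁻¹ = c⁻¹ * d⁻¹ := by
      rw [← hA _ (mul_mem hc hd), ← hA c hc, ← hA d hd]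
      group
    rw [← mul_inv_rev, inv_inj] at e
    exact e
  have yy : y ∈ centralizer {y} := mem_centralizer_singleton_iff.2 rfl
  have jH : j ∈ H_Sel y := .inr hj
  have od : ∀ u : G, orderOf (y * (u⁻¹ * y * u)) ∣ p ^ a := fun u => by
    rw [orderOf_dvd_iff_pow_eq_one, (cm _ yy _ (hn u y yy)).mul_pow,
      show u⁻¹ * y * u = u⁻¹ * y * u⁻¹⁻¹ by rw [inv_inv], conj_pow, ← ho, pow_orderOf_eq_one]
    simp
  obtain ⟨u, hu, ou⟩ : ∃ u, u ∉ H_Sel y ∧ (y ^ 2) ^ orderOf (y * (u⁻¹ * y * u)) = 1 := by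
    have e : y ^ 2 = y * (t⁻¹ * y * t) * (y * ((t * j)⁻¹ * y * (t * j))) := by
      rw [show (t * j)⁻¹ * y * (t * j) = j⁻¹ * (t⁻¹ * y * t) * j by group, hA _ (hn t y yy),
        mul_assoc, ← mul_assoc (t⁻¹ * y * t) y, ← (cm _ yy _ (hn t y yy)).eq,
        mul_inv_cancel_right, sq]
    have c := cm _ (mul_mem yy (hn t y yy)) _ (mul_mem yy (hn (t * j) y yy))
    obtain ⟨k, -, hk⟩ := (Nat.dvd_prime_pow hp).1 (od t)
    obtain ⟨l, -, hl⟩ := (Nat.dvd_prime_pow hp).1 (od (t * j))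
    rcases le_total l k with h | h
    · refine ⟨t, ht, ?_⟩
      rw [e, c.mul_pow, pow_orderOf_eq_one, one_mul, ← orderOf_dvd_iff_pow_eq_one, hk, hl]
      exact pow_dvd_pow p h
    · refine ⟨t * j, fun h => ht ((mul_mem_cancel_right jH).1 h), ?_⟩
      rw [e, c.mul_pow, pow_orderOf_eq_one, mul_one, ← orderOf_dvd_iff_pow_eq_one, hk, hl]
      exact pow_dvd_pow p h
  have ym := mul_mem yy (hn u y yy)
  have uy : Commute u (y * (u⁻¹ * y * u)) := by
    have e := cv_Sel.1 (h1 u hu)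
    rw [sq] at e
    calc u * (y * (u⁻¹ * y * u)) = u * (u⁻¹ * y * u * y) := by rw [(cm _ yy _ (hn u y yy)).eq]
      _ = y * u * ((u * u)⁻¹ * y * (u * u)) := by rw [e]; group
      _ = _ := by group
  refine ⟨_, ho ▸ od u, Nat.le_of_dvd (Nat.mul_pos two_pos (orderOf_pos _))
    (orderOf_dvd_iff_pow_eq_one.2 (by rw [pow_mul, ou])), ?_⟩
  by_cases h6 : (u * j) ^ 2 = 1
  · have hu' : u * y ∉ H_Sel y := fun h =>
      hu ((mul_mem_cancel_right (show y ∈ H_Sel y from .inl yy)).1 h)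
    refine exc_Sel hj hj2 hA hu' hn h1 (h2 _ hu') ym (uy.mul_left (cm _ yy _ ym)) fun h => ?_
    refine hu ((mul_mem_cancel_right jH).1 (.inr ?_))
    have e : u * y * j = u * j * y⁻¹ := by rw [← hj]; group
    rw [e, sq] at h
    have e1 : (u * j)⁻¹ = u * j := inv_eq_of_mul_eq_one_right (by rwa [← sq])
    rw [Ivt, e1]
    generalize u * j = v at h e1
    have e2 : v * y⁻¹ * v = y := by
      rw [← mul_assoc] at h
      exact mul_inv_eq_one.1 h
    calc v * y * v = (v⁻¹ * y⁻¹ * v⁻¹)⁻¹ := by group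
      _ = y⁻¹ := by rw [e1, e2]
  · exact exc_Sel hj hj2 hA hu hn h1 (h2 u hu) ym uy h6

end Pool.Agent.MP_a1dcd4_co.SH

end
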