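import Pool.Agent.Mg.Fa1dcd4.G04b7df
import Pool.Agent.Mg.Fa1dcd4a.G60ef6f

set_option linter.all false

section



end

section

set_option autoImplicit false
set_option linter.style.haveILetI false

namespace Pool.Agent.MP_a1dcd4_co.SH

open Function Subgroup Pool.Agent.MP_a1dcd4_co.OR

/-- main points, lines, fixed points, and the two points and the link line of a gadget -/
inductive Vx_Abs (G Λ I J : Type) (tg : J → Λ → Prop) : Type
  | pt (x : G) : Vx_Abs G Λ I J tg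
  | ln (l : Λ) : Vx_Abs G Λ I J tg
  | fx (i : I ⊕ J) : Vx_Abs G Λ I J tg
  | gp (a : {a : J × Λ // tg a.1 a.2}) : Vx_Abs G Λ I J tg
  | ga (a : {a : J × Λ // tg a.1 a.2}) : Vx_Abs G Λ I J tg
  | lk (a : {a : J × Λ // tg a.1 a.2}) : Vx_Abs G Λ I J tg

namespace Vx_Abs

variable {G Λ I J : Type} {tg : J → Λ → Prop}

def eqv_Abs : Vx_Abs G Λ I J tg ≃ G ⊕ Λ ⊕ (I ⊕ J) ⊕ {a : J × Λ // tg a.1 a.2} ⊕
    {a : J × Λ // tg a.1 a.2} ⊕ {a : J × Λ // tg a.1 a.2} where
  toFun
    | pt x => Sum.inl x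
    | ln l => Sum.inr (Sum.inl l)
    | fx i => Sum.inr (Sum.inr (Sum.inl i))
    | gp a => Sum.inr (Sum.inr (Sum.inr (Sum.inl a)))
    | ga a => Sum.inr (Sum.inr (Sum.inr (Sum.inr (Sum.inl a))))
    | lk a => Sum.inr (Sum.inr (Sum.inr (Sum.inr (Sum.inr a))))
  invFun
    | Sum.inl x => pt x
    | Sum.inr (Sum.inl l) => ln l
    | Sum.inr (Sum.inr (Sum.inl i)) => fx i
    | Sum.inr (Sum.inr (Sum.inr (Sum.inl a))) => gp a
    | Sum.inr (Sum.inr (Sum.inr (Sum.inr (Sum.inl a)))) => ga a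
    | Sum.inr (Sum.inr (Sum.inr (Sum.inr (Sum.inr a)))) => lk a
  left_inv v := by cases v <;> rfl
  right_inv v := by rcases v with _ | _ | _ | _ | _ | _ <;> rfl

/-- colours -/
def col_Abs (e : I ⊕ J → ℕ) : Vx_Abs G Λ I J tg → ℕ
  | fx i => e i + 2
  | ga _ => 1
  | _ => 0

/-- incidence -/
def rel_Abs (inc : G → Λ → Prop) (ty : Λ → Option I) (ρ : J → Λ → Λ → Prop) :
    Vx_Abs G Λ I J tg → Vx_Abs G Λ I J tg → Prop
  | pt x, ln l => inc x l
  | fx (Sum.inl i), ln l => ty l = some i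
  | gp a, ln l => ρ a.1.1 l a.1.2
  | ga a, ln l => l = a.1.2
  | fx (Sum.inr j), lk b => b.1.1 = j
  | gp a, lk b => a = b
  | ga a, lk b => a = b
  | _, _ => False

variable {inc : G → Λ → Prop} {ty : Λ → Option I} {ρ : J → Λ → Λ → Prop}

theorem rel_ln_Abs {u : Vx_Abs G Λ I J tg} {l : Λ} (h : rel_Abs inc ty ρ u (ln l)) :
    (∃ x, u = pt x ∧ inc x l) ∨ (∃ i, u = fx (Sum.inl i) ∧ ty l = some i) ∨
      (∃ a, u = gp a ∧ ρ a.1.1 l a.1.2) ∨ ∃ a, u = ga a ∧ l = a.1.2 := by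
  rcases u with x | l | (i | j) | a | a | a
  · exact Or.inl ⟨x, rfl, h⟩
  · exact h.elim
  · exact Or.inr (Or.inl ⟨i, rfl, h⟩)
  · exact h.elim
  · exact Or.inr (Or.inr (Or.inl ⟨a, rfl, h⟩))
  · exact Or.inr (Or.inr (Or.inr ⟨a, rfl, h⟩))
  · exact h.elim

theorem rel_lk_Abs {u : Vx_Abs G Λ I J tg} {b : {a : J × Λ // tg a.1 a.2}}
    (h : rel_Abs inc ty ρ u (lk b)) : u = fx (Sum.inr b.1.1) ∨ u = gp b ∨ u = ga b := by
  rcases u with x | l | (i | j) | a | a | a
  · exact h.elim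
  · exact h.elim
  · exact h.elim
  · exact Or.inl (by rw [show b.1.1 = j from h])
  · exact Or.inr (Or.inl (by rw [show a = b from h]))
  · exact Or.inr (Or.inr (by rw [show a = b from h]))
  · exact h.elim

theorem rel_top_Abs {u v : Vx_Abs G Λ I J tg} (h : rel_Abs inc ty ρ u v) :
    (∃ l, v = ln l) ∨ ∃ b, v = lk b := by
  rcases v with x | l | i | a | a | a
  · rcases u with _ | _ | (_ | _) | _ | _ | _ <;> exact h.elim
  · exact Or.inl ⟨l, rfl⟩
  · rcases u with _ | _ | (_ | _) | _ | _ | _ <;> exact h.elim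
  · rcases u with _ | _ | (_ | _) | _ | _ | _ <;> exact h.elim
  · rcases u with _ | _ | (_ | _) | _ | _ | _ <;> exact h.elim
  · exact Or.inr ⟨a, rfl⟩

theorem hlin_Abs
    (H1 : ∀ x y l m, inc x l → inc y l → inc x m → inc y m → x = y ∨ l = m)
    (H2 : ∀ i x l m, ty l = some i → ty m = some i → inc x l → inc x m → l = m)
    (H3 : ∀ j l m, ρ j l m → l ≠ m)
    (H4 : ∀ j l l' m, ρ j l m → ρ j l' m → l = l' ∨ (ty l = none ∧
      (∀ x, inc x l → ¬ inc x l') ∧ ∀ j' m', ρ j' l m' → ρ j' l' m' → j' = j ∧ m' = m))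
    (x y l m : Vx_Abs G Λ I J tg) (h1 : rel_Abs inc ty ρ x l) (h2 : rel_Abs inc ty ρ y l)
    (h3 : rel_Abs inc ty ρ x m) (h4 : rel_Abs inc ty ρ y m) : x = y ∨ l = m := by
  have mixed : ∀ (x y : Vx_Abs G Λ I J tg) l b, rel_Abs inc ty ρ x (ln l) →
      rel_Abs inc ty ρ y (ln l) → rel_Abs inc ty ρ x (lk b) → rel_Abs inc ty ρ y (lk b) →
      x = y := by
    intro x y l b h1 h2 h3 h4
    rcases rel_lk_Abs h3 with rfl | rfl | rfl <;> rcases rel_lk_Abs h4 with rfl | rfl | rfl <;>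
      first
        | rfl
        | exact h1.elim
        | exact h2.elim
        | exact (H3 _ _ _ h1 h2).elim
        | exact (H3 _ _ _ h2 h1).elim
  rcases rel_top_Abs h1 with ⟨l, rfl⟩ | ⟨b, rfl⟩ <;>
    rcases rel_top_Abs h3 with ⟨m, rfl⟩ | ⟨c, rfl⟩
  · by_cases hlm : l = m
    · exact Or.inr (by rw [hlm])
    left
    rcases rel_ln_Abs h1 with ⟨x, rfl, a1⟩ | ⟨i, rfl, a1⟩ | ⟨a, rfl, a1⟩ | ⟨a, rfl, a1⟩ <;>
      rcases rel_ln_Abs h2 with ⟨y, rfl, a2⟩ | ⟨k, rfl, a2⟩ | ⟨b, rfl, a2⟩ | ⟨b, rfl, a2⟩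
    · rw [(H1 x y l m a1 a2 h3 h4).resolve_right hlm]
    · exact (hlm (H2 k x l m a2 h4 a1 h3)).elim
    · exact (((H4 _ _ _ _ a2 h4).resolve_left hlm).2.1 x a1 h3).elim
    · exact (hlm (a2.trans (show m = b.1.2 from h4).symm)).elim
    · exact (hlm (H2 i y l m a1 h3 a2 h4)).elim
    · rw [a1] at a2
      rw [Option.some.inj a2]
    · have := ((H4 _ _ _ _ a2 h4).resolve_left hlm).1
      rw [a1] at this
      cases this
    · exact (hlm (a2.trans (show m = b.1.2 from h4).symm)).elim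
    · exact (((H4 _ _ _ _ a1 h3).resolve_left hlm).2.1 y a2 h4).elim
    · have := ((H4 _ _ _ _ a1 h3).resolve_left hlm).1
      rw [a2] at this
      cases this
    · have := ((H4 _ _ _ _ a1 h3).resolve_left hlm).2.2 _ _ a2 h4
      rw [show a = b from Subtype.ext (Prod.ext this.1.symm this.2.symm)]
    · exact (hlm (a2.trans (show m = b.1.2 from h4).symm)).elim
    all_goals exact (hlm (a1.trans (show m = a.1.2 from h3).symm)).elim
  · exact Or.inl (mixed x y l c h1 h2 h3 h4)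
  · exact Or.inl (mixed x y m b h3 h4 h1 h2)
  · rcases rel_lk_Abs h1 with rfl | rfl | rfl
    · rcases rel_lk_Abs h2 with rfl | rfl | rfl
      · exact Or.inl rfl
      · exact Or.inr (by rw [show b = c from h4])
      · exact Or.inr (by rw [show b = c from h4])
    · exact Or.inr (by rw [show b = c from h3])
    · exact Or.inr (by rw [show b = c from h3])

theorem hline_Abs (H5 : ∀ l, ∃ x, inc x l ∧ (ty l = none → ∃ y, y ≠ x ∧ inc y l))
    (x l : Vx_Abs G Λ I J tg) (h : rel_Abs inc ty ρ x l) :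
    ∃ y, y ≠ x ∧ rel_Abs inc ty ρ y l := by
  rcases rel_top_Abs h with ⟨l, rfl⟩ | ⟨b, rfl⟩
  · obtain ⟨z, hz, hz'⟩ := H5 l
    by_cases e : pt z = x
    · subst e
      cases ht : ty l with
      | none =>
        obtain ⟨y, hy, hy'⟩ := hz' ht
        exact ⟨pt y, fun e => hy (by injection e), hy'⟩
      | some i => exact ⟨fx (Sum.inl i), fun e => (by cases e), ht⟩
    · exact ⟨pt z, e, hz⟩
  · by_cases e : gp b = x
    · subst e
      exact ⟨ga b, fun e => (by cases e), rfl⟩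
    · exact ⟨gp b, e, rfl⟩

variable [Group G] [MulAction G Λ]

/-- the action -/
def sm_Abs (htg : ∀ (g : G) j m, tg j m → tg j (g • m)) (g : G) :
    Vx_Abs G Λ I J tg → Vx_Abs G Λ I J tg
  | pt x => pt (g * x)
  | ln l => ln (g • l)
  | fx i => fx i
  | gp a => gp ⟨(a.1.1, g • a.1.2), htg g _ _ a.2⟩
  | ga a => ga ⟨(a.1.1, g • a.1.2), htg g _ _ a.2⟩
  | lk a => lk ⟨(a.1.1, g • a.1.2), htg g _ _ a.2⟩

@[reducible]
def act_Abs (htg : ∀ (g : G) j m, tg j m → tg j (g • m)) :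
    MulAction G (Vx_Abs G Λ I J tg) where
  smul := sm_Abs htg
  one_smul v := by
    change sm_Abs htg 1 v = v
    cases v <;> simp [sm_Abs]
  mul_smul g g' v := by
    change sm_Abs htg _ v = sm_Abs htg _ (sm_Abs htg _ v)
    cases v <;> simp [sm_Abs, mul_assoc, mul_smul]

theorem rel_sm_Abs (htg : ∀ (g : G) j m, tg j m → tg j (g • m))
    (hinc : ∀ g x l, inc x l → inc (g * x) (g • l)) (hty : ∀ (g : G) l, ty (g • l) = ty l)
    (hρ : ∀ (g : G) j l m, ρ j l m → ρ j (g • l) (g • m)) (g : G) (u v : Vx_Abs G Λ I J tg)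
    (h : rel_Abs inc ty ρ u v) : rel_Abs inc ty ρ (sm_Abs htg g u) (sm_Abs htg g v) := by
  rcases rel_top_Abs h with ⟨l, rfl⟩ | ⟨b, rfl⟩
  · rcases rel_ln_Abs h with ⟨x, rfl, a1⟩ | ⟨i, rfl, a1⟩ | ⟨a, rfl, a1⟩ | ⟨a, rfl, a1⟩
    · exact hinc g x l a1
    · exact (hty g l).trans a1
    · exact hρ g _ _ _ a1
    · exact congrArg (g • ·) a1
  · rcases rel_lk_Abs h with rfl | rfl | rfl <;> rfl

omit [Group G] [MulAction G Λ] in
theorem shape_Abs {e : I ⊕ J → ℕ} (he : Injective e)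
    (H5 : ∀ l, ∃ x, inc x l ∧ (ty l = none → ∃ y, y ≠ x ∧ inc y l))
    (f f' : Vx_Abs G Λ I J tg → Vx_Abs G Λ I J tg) (h1 : ∀ v, f' (f v) = v)
    (h3 : ∀ u v, rel_Abs inc ty ρ u v → rel_Abs inc ty ρ (f u) (f v))
    (h4 : ∀ u v, rel_Abs inc ty ρ u v → rel_Abs inc ty ρ (f' u) (f' v))
    (h5 : ∀ v, col_Abs e (f v) = col_Abs e v) :
    (∀ i, f (fx i) = fx i) ∧ (∀ x, ∃ y, f (pt x) = pt y) ∧
      (∀ l, ∃ m, f (ln l) = ln m ∧ ty m = ty l) ∧
      ∀ a, ∃ b, b.1.1 = a.1.1 ∧ f (lk a) = lk b ∧ f (gp a) = gp b ∧ f (ga a) = ga b := by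
  have hfx : ∀ i, f (fx i) = fx i := by
    intro i
    have := h5 (fx i)
    cases h : f (fx i) with
    | fx k =>
      rw [h] at this
      rw [he (Nat.add_right_cancel (show e k + 2 = e i + 2 from this))]
    | _ =>
      rw [h] at this
      simp only [col_Abs] at this
      omega
  have hfx' : ∀ i, f' (fx i) = fx i := fun i => by rw [← hfx i, h1, hfx]
  have hlk : ∀ a, ∃ b, b.1.1 = a.1.1 ∧ f (lk a) = lk b := by
    intro a
    have r1 := h3 (fx (Sum.inr a.1.1)) (lk a) rfl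
    rw [hfx] at r1
    rcases rel_top_Abs r1 with ⟨l, h⟩ | ⟨b, h⟩ <;> rw [h] at r1
    · exact r1.elim
    · exact ⟨b, r1, h⟩
  refine ⟨hfx, ?_, ?_, ?_⟩
  · intro x
    have c := h5 (pt x)
    have low : ∀ u, ¬ rel_Abs inc ty ρ u (f (pt x)) := by
      intro u hu
      have := h4 _ _ hu
      rw [h1] at this
      rcases rel_top_Abs this with ⟨_, h⟩ | ⟨_, h⟩ <;> cases h
    cases h : f (pt x) with
    | pt y => exact ⟨y, rfl⟩
    | ln l =>
      obtain ⟨z, hz, -⟩ := H5 l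
      rw [h] at low
      exact (low (pt z) hz).elim
    | fx i => rw [h] at c; simp [col_Abs] at c
    | ga a => rw [h] at c; simp [col_Abs] at c
    | lk a =>
      rw [h] at low
      exact (low (gp a) rfl).elim
    | gp a =>
      have r1 := h4 (gp a) (lk a) rfl
      have r2 := h4 (fx (Sum.inr a.1.1)) (lk a) rfl
      rw [← h, h1] at r1
      rw [hfx'] at r2
      rcases rel_top_Abs r1 with ⟨l, h'⟩ | ⟨b, h'⟩
      · rw [h'] at r2
        exact r2.elim
      · rw [h'] at r1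
        exact r1.elim
  · intro l
    obtain ⟨z, hz, -⟩ := H5 l
    rcases rel_top_Abs (h3 (pt z) (ln l) hz) with ⟨m, h⟩ | ⟨b, h⟩
    · refine ⟨m, h, Option.ext fun i => ⟨fun hi => ?_, fun hi => ?_⟩⟩
      · have r1 := h4 (fx (Sum.inl i)) (ln m) hi
        rw [hfx', ← h, h1] at r1
        exact r1
      · have r1 := h3 (fx (Sum.inl i)) (ln l) hi
        rw [hfx, h] at r1
        exact r1
    · have r1 := h4 (fx (Sum.inr b.1.1)) (lk b) rfl
      rw [hfx', ← h, h1] at r1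
      exact r1.elim
  · intro a
    obtain ⟨b, hb, h⟩ := hlk a
    refine ⟨b, hb, h, ?_, ?_⟩
    · have r1 := h3 (gp a) (lk a) rfl
      have c := h5 (gp a)
      rw [h] at r1
      rcases rel_lk_Abs r1 with h' | h' | h'
      · rw [h'] at c; simp [col_Abs] at c
      · exact h'
      · rw [h'] at c; simp [col_Abs] at c
    · have r1 := h3 (ga a) (lk a) rfl
      have c := h5 (ga a)
      rw [h] at r1
      rcases rel_lk_Abs r1 with h' | h' | h'
      · rw [h'] at c; simp [col_Abs] at c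
      · rw [h'] at c; simp [col_Abs] at c
      · exact h'

end Vx_Abs

open Vx_Abs in
theorem abs : S_Abs := by
  classical
  intro G Λ I J _ _ _ _ _ _ inc ty tg ρ hinc hty htg hρ hρt H1 H2 H3 H4 H5 hrig
  haveI := Fintype.ofFinite G
  haveI := Fintype.ofFinite Λ
  letI : Fintype (Vx_Abs G Λ I J tg) := Fintype.ofEquiv _ eqv_Abs.symm
  letI := act_Abs (I := I) htg
  let e : I ⊕ J → ℕ := fun i => (Fintype.equivFin (I ⊕ J) i : ℕ)
  have he : Injective e := fun a b h => (Fintype.equivFin (I ⊕ J)).injective (Fin.ext h)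
  let Γ : Geo (Vx_Abs G Λ I J tg) :=
    { r := rel_Abs inc ty ρ
      c := col_Abs e
      h2 := by
        intro u v w h1 h2
        rcases rel_top_Abs h1 with ⟨l, rfl⟩ | ⟨b, rfl⟩ <;> cases w <;> exact h2
      hlin := hlin_Abs H1 H2 H3 H4
      hline := hline_Abs H5 }
  obtain ⟨L, i1, i2, hc, hA⟩ := lattice_of_geo (G := G) Γ
    (fun g v => by cases v <;> rfl)
    (fun g u v => ⟨fun h => by
        have := rel_sm_Abs htg hinc hty hρ g⁻¹ _ _ h
        change rel_Abs inc ty ρ (g⁻¹ • g • u) (g⁻¹ • g • v) at this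
        rwa [inv_smul_smul, inv_smul_smul] at this,
      rel_sm_Abs htg hinc hty hρ g u v⟩)
    (fun g hg => by
      have : pt (g * 1) = pt 1 := hg (pt 1)
      injection this with h
      simpa using h)
    (by
      intro f f' h1 _ h3 h4 h5
      obtain ⟨s1, s2, s3, s4⟩ := shape_Abs he H5 f f' h1 h3 h4 h5
      choose φ hφ using s2
      choose ψ hψ hψ' using s3
      choose χ c1 c2 c3 c4 using s4
      have hi : ∀ x l, inc x l → inc (φ x) (ψ l) := fun x l h => by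
        have := h3 (pt x) (ln l) h
        rwa [hφ, hψ] at this
      have hχ : ∀ a, (χ a).1.2 = ψ a.1.2 := fun a => by
        have := h3 (ga a) (ln a.1.2) rfl
        rw [c4, hψ] at this
        exact (show ψ a.1.2 = (χ a).1.2 from this).symm
      have hfix := hrig φ ψ
        (fun x y h => by
          have : f (pt x) = f (pt y) := by rw [hφ, hφ, h]
          have := (LeftInverse.injective h1) this
          injection this)
        hi hψ'
        (fun j l m h => by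
          have := h3 (gp ⟨(j, m), hρt j l m h⟩) (ln l) h
          rw [c3, hψ] at this
          have r : ρ (χ ⟨(j, m), hρt j l m h⟩).1.1 (ψ l) (χ ⟨(j, m), hρt j l m h⟩).1.2 := this
          rwa [c1, hχ] at r)
      have hφ1 : ∀ x, φ x = φ 1 * x := fun x => by simpa using hfix x 1
      have hψ1 : ∀ l, ψ l = φ 1 • l := by
        intro l
        obtain ⟨x, hx, hx'⟩ := H5 l
        have a1 := hi x l hx
        have a2 := hinc (φ 1) x l hx
        rw [hφ1] at a1
        cases ht : ty l with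
        | none =>
          obtain ⟨y, hy, hy'⟩ := hx' ht
          have a3 := hi y l hy'
          rw [hφ1] at a3
          exact (H1 _ _ _ _ a3 a1 (hinc (φ 1) y l hy') a2).resolve_left
            fun h => hy (mul_left_cancel h)
        | some i => exact H2 i _ _ _ ((hψ' l).trans ht) ((hty _ l).trans ht) a1 a2
      have hχ1 : ∀ a, χ a = ⟨(a.1.1, φ 1 • a.1.2), htg _ _ _ a.2⟩ := fun a =>
        Subtype.ext (Prod.ext (c1 a) ((hχ a).trans (hψ1 _)))
      refine ⟨φ 1, fun v => ?_⟩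
      cases v with
      | pt x => rw [hφ, hφ1]; rfl
      | ln l => rw [hψ, hψ1]; rfl
      | fx i => rw [s1]; rfl
      | gp a => rw [c3, hχ1]; rfl
      | ga a => rw [c4, hχ1]; rfl
      | lk a => rw [c2, hχ1]; rfl)
  refine ⟨L, i1, i2, hA, ?_⟩
  rw [hc, ← eqv_Abs.symm.sum_comp]
  have hT : Fintype.card {a : J × Λ // tg a.1 a.2} = ∑ j, Nat.card {m // tg j m} := by
    rw [Fintype.card_congr (Equiv.subtypeProdEquivSigmaSubtype tg), Fintype.card_sigma]
    simp only [Nat.card_eq_fintype_card]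
  have hE : ∑ i : I ⊕ J, (e i + 2 + 1) ≤
      Fintype.card (I ⊕ J) * (Fintype.card (I ⊕ J) + 2) := by
    rw [← smul_eq_mul, ← Finset.card_univ]
    refine Finset.sum_le_card_nsmul _ _ _ fun i _ => ?_
    have := (Fintype.equivFin (I ⊕ J) i).2
    simp only [e, Finset.card_univ]
    omega
  rw [Fintype.card_sum] at hE
  have hS : ∑ v, (Γ.c (eqv_Abs.symm v) + 1) = Fintype.card G + (Fintype.card Λ +
      (∑ i : I ⊕ J, (e i + 2 + 1) + (Fintype.card {a : J × Λ // tg a.1 a.2} +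
      (Fintype.card {a : J × Λ // tg a.1 a.2} * 2 +
        Fintype.card {a : J × Λ // tg a.1 a.2})))) := by
    rw [Fintype.sum_sum_type, Fintype.sum_sum_type, Fintype.sum_sum_type, Fintype.sum_sum_type,
      Fintype.sum_sum_type]
    simp [Γ, eqv_Abs, col_Abs]
  rw [hS, hT, Nat.card_eq_fintype_card, Nat.card_eq_fintype_card]
  nlinarith

end Pool.Agent.MP_a1dcd4_co.SH

end

section

/-!
Either cheap coset systems represent `G` with `2 |G|` elements, or `G` has few generators and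
small elementary abelian subgroups.
-/

set_option autoImplicit false

namespace Pool.Agent.MP_a1dcd4_co.SH

open Function Subgroup Pool.Agent.MP_a1dcd4_co.OR

theorem two_pow_Cheap (m : ℕ) : 24576 * (m + 33) ^ 2 ≤ 2 ^ (m + 30) := by
  induction m with
  | zero => norm_num
  | succ m ih =>
    have h : 2 * (m + 33) ^ 2 = (m + 1 + 33) ^ 2 + (m ^ 2 + 64 * m + 1022) := by ring
    have e : 2 ^ (m + 1 + 30) = 2 * 2 ^ (m + 30) := by ring
    omega

theorem num_Cheap {p r : ℕ} (hp : 2 ≤ p) (hr : 256 ≤ r) : 384 * r ^ 2 * p ^ 2 ≤ p ^ (r / 8) := by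
  obtain ⟨m, hm⟩ : ∃ m, r / 8 = m + 32 := ⟨r / 8 - 32, by omega⟩
  have h1 : r ≤ 8 * (m + 33) := by omega
  have h2 : r ^ 2 ≤ (8 * (m + 33)) ^ 2 := Nat.pow_le_pow_left h1 2
  have h3 := two_pow_Cheap m
  have h4 : 2 ^ (m + 30) ≤ p ^ (m + 30) := Nat.pow_le_pow_left hp _
  have h5 : 384 * r ^ 2 ≤ p ^ (m + 30) := by nlinarith
  rw [hm, show m + 32 = m + 30 + 2 from rfl, pow_add p (m + 30) 2]
  exact Nat.mul_le_mul_right _ h5

theorem num2_Cheap {p r c : ℕ} (hp : 2 ≤ p) (hr : 256 ≤ r) (h : c ^ 16 ≤ p ^ r) :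
    c * p ^ 2 ≤ p ^ (r / 8) := by
  obtain ⟨m, hm⟩ : ∃ m, r / 8 = m + 2 := ⟨r / 8 - 2, by omega⟩
  have h1 : p ^ r ≤ (p ^ m) ^ 16 := by
    rw [← pow_mul]
    exact Nat.pow_le_pow_right (by omega) (by omega)
  have h2 : c ≤ p ^ m := (Nat.pow_le_pow_iff_left (by norm_num)).1 (h.trans h1)
  rw [hm, pow_add]
  exact Nat.mul_le_mul_right _ h2

theorem prime_inf_Cheap {G : Type} [Group G] [Finite G] {K : Subgroup G} (K' : Subgroup G)
    (h : (Nat.card K).Prime) : K ⊓ K' = ⊥ ∨ K ≤ K' := by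
  rcases (Nat.dvd_prime h).1 (Subgroup.card_dvd_of_le (inf_le_left : K ⊓ K' ≤ K)) with e | e
  · exact Or.inl (Subgroup.card_eq_one.1 e)
  · exact Or.inr (inf_eq_left.1 (Subgroup.eq_of_le_of_card_ge inf_le_left e.ge))

theorem card_fam_Cheap {G : Type} [Group G] [Finite G] {γ : G × Subgroup G × Subgroup G}
    {K : Subgroup G} (h : InFam γ K) :
    Nat.card K = Nat.card γ.2.1 ∨ Nat.card K = Nat.card γ.2.2 := by
  rcases h with rfl | rfl | rfl | rfl
  · exact Or.inl rfl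
  · exact Or.inr rfl
  · exact Or.inl (card_cj _ _)
  · exact Or.inr (card_cj _ _)

open Classical in
theorem ti_union_Cheap {G : Type} [Group G] [Finite G] (B : Finset ℕ) (hB : ∀ p ∈ B, p.Prime)
    (Γ₁ Γ₂ : Finset (G × Subgroup G × Subgroup G))
    (h1 : ∀ γ ∈ Γ₁, (Nat.card γ.2.1).Prime ∧ (Nat.card γ.2.2).Prime ∧
      Nat.card γ.2.1 ≠ Nat.card γ.2.2 ∧ Nat.card γ.2.1 ∉ B ∧ Nat.card γ.2.2 ∉ B)
    (h2 : TI Γ₂) (h3 : ∀ γ ∈ Γ₂, ∃ p ∈ B, ∃ k, Nat.card γ.2.1 = p ^ k ∧ Nat.card γ.2.2 = p ^ k) :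
    TI (Γ₁ ∪ Γ₂) := by
  have pp : ∀ K K' : Subgroup G, (Nat.card K).Prime → (Nat.card K').Prime →
      K = K' ∨ K ⊓ K' = ⊥ := by
    intro K K' a b
    rcases prime_inf_Cheap K' a with e | e
    · exact Or.inr e
    · exact Or.inl (Subgroup.eq_of_le_of_card_ge e
        ((Nat.prime_dvd_prime_iff_eq a b).1 (Subgroup.card_dvd_of_le e)).ge)
  have f1 : ∀ γ ∈ Γ₁, ∀ K, InFam γ K → (Nat.card K).Prime ∧ Nat.card K ∉ B := by
    intro γ hγ K hK
    obtain ⟨a, b, _, c, d⟩ := h1 γ hγ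
    rcases card_fam_Cheap hK with e | e <;> rw [e]
    exacts [⟨a, c⟩, ⟨b, d⟩]
  have f2 : ∀ γ ∈ Γ₁, ∀ γ' ∈ Γ₂, ∀ K K', InFam γ K → InFam γ' K' → K ⊓ K' = ⊥ := by
    intro γ hγ γ' hγ' K K' hK hK'
    obtain ⟨a, b⟩ := f1 γ hγ K hK
    obtain ⟨p, hp, k, c, d⟩ := h3 γ' hγ'
    have e : Nat.card K' = p ^ k := by
      rcases card_fam_Cheap hK' with e | e <;> rw [e]
      exacts [c, d]
    refine (prime_inf_Cheap K' a).resolve_right fun hle => b ?_
    have := Subgroup.card_dvd_of_le hle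
    rw [e] at this
    rw [(Nat.prime_dvd_prime_iff_eq a (hB p hp)).1 (a.dvd_of_dvd_pow this)]
    exact hp
  refine ⟨fun γ hγ => ?_, fun γ hγ γ' hγ' K K' hK hK' => ?_⟩
  · rcases Finset.mem_union.1 hγ with h | h
    · obtain ⟨a, b, c, _⟩ := h1 γ h
      exact (pp _ _ a b).resolve_left fun e => c (by rw [e])
    · exact h2.1 γ h
  · rcases Finset.mem_union.1 hγ with h | h <;> rcases Finset.mem_union.1 hγ' with h' | h'
    · exact pp _ _ (f1 γ h K hK).1 (f1 γ' h' K' hK').1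
    · exact Or.inr (f2 γ h γ' h' K K' hK hK')
    · exact Or.inr (by rw [inf_comm]; exact f2 γ' h' γ h K' K hK' hK)
    · exact h2.2 γ h γ' h' K K' hK hK'

open Classical in
theorem cost_union_Cheap {G : Type} [Group G] (Γ₁ Γ₂ : Finset (G × Subgroup G × Subgroup G)) :
    cost (Γ₁ ∪ Γ₂) ≤ cost Γ₁ + cost Γ₂ := by
  unfold cost
  rw [← Finset.sum_union_inter]
  exact Nat.le_add_right _ _

theorem exists_sub_Cheap (G : Type) [Group G] [Finite G] {q : ℕ}
    (hq : q ∈ (Nat.card G).primeFactors) : ∃ U : Subgroup G, Nat.card U = q := by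
  have : Fact q.Prime := ⟨Nat.prime_of_mem_primeFactors hq⟩
  obtain ⟨x, hx⟩ := exists_prime_orderOf_dvd_card' q (Nat.dvd_of_mem_primeFactors hq)
  exact ⟨zpowers x, by rw [Nat.card_zpowers, hx]⟩

theorem cheap (hC : S_CH) (hB : S_BlkB) (hN : S_Num) (hS : S_Syl) : S_Cheap := by
  classical
  obtain ⟨R, hR⟩ : ∃ R : ℕ, R = 4 * 256 ^ 2 := ⟨_, rfl⟩
  obtain ⟨w, hw⟩ := hN (48 * R)
  obtain ⟨T, hT⟩ : ∃ T : ℕ, T = (96 * (R * w)) ^ 16 := ⟨_, rfl⟩
  refine ⟨R * w + T * (4 * T ^ 2), T, fun G _ _ hG => ?_⟩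
  obtain ⟨r, E, Y, hcl, hE⟩ := hS G
  obtain ⟨A, hA⟩ : ∃ A, A = (Nat.card G).primeFactors.filter fun p => r p < 256 := ⟨_, rfl⟩
  obtain ⟨B, hB'⟩ : ∃ B, B = (Nat.card G).primeFactors.filter fun p => 256 ≤ r p := ⟨_, rfl⟩
  have mA : ∀ p, p ∈ A ↔ p ∈ (Nat.card G).primeFactors ∧ r p < 256 := by
    intro p
    rw [hA, Finset.mem_filter]
  have mB : ∀ p, p ∈ B ↔ p ∈ (Nat.card G).primeFactors ∧ 256 ≤ r p := by
    intro p
    rw [hB', Finset.mem_filter]
  have pA : ∀ p ∈ A, p.Prime := fun p hp => Nat.prime_of_mem_primeFactors ((mA p).1 hp).1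
  have pB : ∀ p ∈ B, p.Prime := fun p hp => Nat.prime_of_mem_primeFactors ((mB p).1 hp).1
  have hZA : (A.biUnion Y).card ≤ R * A.card := by
    rw [mul_comm]
    refine Finset.card_biUnion_le_card_mul _ _ _ fun p hp => (hE p (pA p hp)).2.2.1.trans ?_
    rw [hR]
    exact Nat.mul_le_mul_left _ (Nat.pow_le_pow_left ((mA p).1 hp).2.le 2)
  have hY : ∀ p ∈ B, 96 * (Y p).card * p ^ 2 ≤ p ^ (r p / 8) := by
    intro p hp
    refine le_trans (Nat.mul_le_mul_right _ ?_) (num_Cheap (pB p hp).two_le ((mB p).1 hp).2)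
    have := (hE p (pB p hp)).2.2.1
    omega
  have hgen : ∀ S : Set G, (∀ s ∈ A.biUnion Y, s ∈ S) → (∀ p ∈ B, ∀ s ∈ Y p, s ∈ S) →
      closure S = ⊤ := by
    intro S h1 h2
    refine top_unique (hcl.ge.trans (closure_mono ?_))
    rintro s ⟨p, hp, hs⟩
    rcases lt_or_ge (r p) 256 with h | h
    · exact h1 s (Finset.mem_biUnion.2 ⟨p, (mA p).2 ⟨hp, h⟩, hs⟩)
    · exact h2 p ((mB p).2 ⟨hp, h⟩) s hs
  have hBl : ∀ Z : ℕ → Finset G, (∀ p ∈ B, 48 * (Z p).card * p ^ 2 ≤ p ^ (r p / 8)) → _ :=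
    fun Z hZ => hB G B E Z r fun p hp => ⟨pB p hp, (hE p (pB p hp)).1, (hE p (pB p hp)).2.1,
      le_trans (by norm_num) ((mB p).1 hp).2, hZ p hp⟩
  rcases le_or_gt w A.card with hwA | hwA
  · left
    obtain ⟨q, hq, q', hq', hne, h1, h2⟩ := hw A pA hwA
    obtain ⟨U, hU⟩ := exists_sub_Cheap G ((mA q).1 hq).1
    obtain ⟨V, hV⟩ := exists_sub_Cheap G ((mA q').1 hq').1
    obtain ⟨Γ, g1, g2, g3, g4⟩ := hBl Y fun p hp =>
      le_trans (Nat.mul_le_mul_right _ (by omega)) (hY p hp)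
    have nB : ∀ p ∈ A, p ∉ B := fun p a b => by
      have := ((mA p).1 a).2
      have := ((mB p).1 b).2
      omega
    refine hC G ((A.biUnion Y).image (fun s => (s, U, V)) ∪ Γ) (hgen _ ?_ ?_)
      (ti_union_Cheap B pB _ _ ?_ g2 g4) ?_ hG
    · intro s hs
      exact ⟨(s, U, V), Finset.mem_union_left _ (Finset.mem_image_of_mem _ hs), rfl⟩
    · intro p hp s hs
      obtain ⟨γ, a, b⟩ := g1 p hp s hs
      exact ⟨γ, Finset.mem_union_right _ a, b⟩
    · intro γ hγ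
      obtain ⟨s, _, rfl⟩ := Finset.mem_image.1 hγ
      simp only [hU, hV]
      exact ⟨pA q hq, pA q' hq', hne, nB q hq, nB q' hq'⟩
    · have c1 := cost_union_Cheap ((A.biUnion Y).image (fun s => (s, U, V))) Γ
      have c2 : cost ((A.biUnion Y).image (fun s => (s, U, V))) ≤
          R * A.card * (U.index + V.index) := by
        unfold cost
        refine (Finset.sum_le_card_nsmul _ _ (U.index + V.index) ?_).trans ?_
        · intro γ hγ
          obtain ⟨s, _, rfl⟩ := Finset.mem_image.1 hγ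
          exact le_rfl
        · rw [smul_eq_mul]
          exact Nat.mul_le_mul_right _ (Finset.card_image_le.trans hZA)
      have c3 : 48 * R * A.card * U.index ≤ Nat.card G := by
        rw [← U.card_mul_index, hU]
        exact Nat.mul_le_mul_right _ h1
      have c4 : 48 * R * A.card * V.index ≤ Nat.card G := by
        rw [← V.card_mul_index, hV]
        exact Nat.mul_le_mul_right _ h2
      have c5 : 48 * (R * A.card * (U.index + V.index)) ≤ 2 * Nat.card G := by nlinarith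
      omega
  · have hD : (A.biUnion Y).card ≤ R * w := hZA.trans (Nat.mul_le_mul_left _ hwA.le)
    by_cases h0 : ∃ p ∈ B, T ≤ p ^ r p
    · left
      obtain ⟨p0, hp0, hTp⟩ := h0
      have k1 := num2_Cheap (pB p0 hp0).two_le ((mB p0).1 hp0).2 (hT.ge.trans hTp)
      obtain ⟨Γ, g1, g2, g3, _⟩ := hBl (fun p => if p = p0 then Y p ∪ A.biUnion Y else Y p) (by
        intro p hp
        have k2 := hY p hp
        by_cases e : p = p0
        · rw [if_pos e]
          subst e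
          have k3 : (Y p ∪ A.biUnion Y).card ≤ (Y p).card + R * w :=
            (Finset.card_union_le _ _).trans (Nat.add_le_add_left hD _)
          have k4 := Nat.mul_le_mul_right (p ^ 2) (Nat.mul_le_mul_left 48 k3)
          nlinarith
        · rw [if_neg e]
          exact le_trans (Nat.mul_le_mul_right _ (by omega)) k2)
      refine hC G Γ (hgen _ ?_ ?_) g2 (by omega) hG
      · intro s hs
        exact g1 p0 hp0 s (by beta_reduce; rw [if_pos rfl]; exact Finset.mem_union_right _ hs)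
      · intro p hp s hs
        refine g1 p hp s ?_
        beta_reduce
        split_ifs
        · exact Finset.mem_union_left _ hs
        · exact hs
    · right
      have k1 : ∀ p ∈ B, p ^ r p < T := fun p hp => not_le.1 fun h => h0 ⟨p, hp, h⟩
      refine ⟨A.biUnion Y ∪ B.biUnion Y, ?_, hgen _ ?_ ?_, ?_⟩
      · refine (Finset.card_union_le _ _).trans (Nat.add_le_add hD ?_)
        have k2 : B.card ≤ T := by
          rw [← Finset.card_range T]
          refine Finset.card_le_card fun p hp => Finset.mem_range.2 (lt_of_le_of_lt ?_ (k1 p hp))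
          have := ((mB p).1 hp).2
          exact Nat.le_self_pow (by omega) p
        refine (Finset.card_biUnion_le_card_mul _ _ (4 * T ^ 2) fun p hp => ?_).trans
          (Nat.mul_le_mul_right _ k2)
        refine (hE p (pB p hp)).2.2.1.trans (Nat.mul_le_mul_left _ (Nat.pow_le_pow_left ?_ 2))
        exact ((Nat.lt_pow_self (pB p hp).one_lt).trans (k1 p hp)).le
      · intro s hs
        exact Finset.mem_coe.2 (Finset.mem_union_left _ hs)
      · intro p hp s hs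
        exact Finset.mem_coe.2 (Finset.mem_union_right _ (Finset.mem_biUnion.2 ⟨p, hp, hs⟩))
      · intro p E' hp hE'
        have k2 := (hE p hp).2.2.2 E' hE'
        rcases lt_or_ge (r p) 256 with h | h
        · exact Or.inr (k2.trans (Nat.pow_le_pow_right hp.pos h.le))
        · refine Or.inl (k2.trans (k1 p ((mB p).2 ⟨?_, h⟩)).le)
          refine Nat.mem_primeFactors.2 ⟨hp, ?_, Nat.card_pos.ne'⟩
          refine Dvd.dvd.trans ?_ (E p).card_subgroup_dvd_card
          rw [(hE p hp).2.1]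
          exact dvd_pow_self p (by omega)

end Pool.Agent.MP_a1dcd4_co.SH

end

section

set_option autoImplicit false

namespace Pool.Agent.MP_a1dcd4_co.SH

open Function Subgroup Pool.Agent.MP_a1dcd4_co.OR

section

variable {G : Type} [Group G]

theorem rep_D1 (X : Subgroup G) (T : Finset G) (h1 : (1 : G) ∈ T) :
    ∃ T1 : Finset G, T1.card ≤ T.card ∧ (∀ a ∈ T1, a ∈ T) ∧ (1 : G) ∈ T1 ∧
      (∀ t ∈ T, ∃ a ∈ T1, a⁻¹ * t ∈ X) ∧ ∀ a ∈ T1, ∀ b ∈ T1, a⁻¹ * b ∈ X → a = b := by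
  classical
  have hf : ∀ q : G ⧸ X, ∃ a : G, ((∃ t ∈ T, (t : G ⧸ X) = q) → a ∈ T ∧ (a : G ⧸ X) = q) ∧
      (q = ((1 : G) : G ⧸ X) → a = 1) := by
    intro q
    by_cases hq : q = ((1 : G) : G ⧸ X)
    · exact ⟨1, fun _ => ⟨h1, hq.symm⟩, fun _ => rfl⟩
    · by_cases h : ∃ t ∈ T, (t : G ⧸ X) = q
      · obtain ⟨t, ht, e⟩ := h
        exact ⟨t, fun _ => ⟨ht, e⟩, fun h => absurd h hq⟩
      · exact ⟨1, fun h' => absurd h' h, fun _ => rfl⟩
  choose f hf1 hf2 using hf
  refine ⟨T.image (fun t : G => f (t : G ⧸ X)), Finset.card_image_le, ?_, ?_, ?_, ?_⟩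
  · intro a ha
    obtain ⟨t, ht, rfl⟩ := Finset.mem_image.1 ha
    exact (hf1 _ ⟨t, ht, rfl⟩).1
  · exact Finset.mem_image.2 ⟨1, h1, hf2 _ rfl⟩
  · intro t ht
    exact ⟨_, Finset.mem_image.2 ⟨t, ht, rfl⟩, QuotientGroup.eq.1 (hf1 _ ⟨t, ht, rfl⟩).2⟩
  · intro a ha b hb hab
    obtain ⟨t, ht, rfl⟩ := Finset.mem_image.1 ha
    obtain ⟨t', ht', rfl⟩ := Finset.mem_image.1 hb
    have e := QuotientGroup.eq.2 hab
    rw [(hf1 _ ⟨t, ht, rfl⟩).2, (hf1 _ ⟨t', ht', rfl⟩).2] at e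
    rw [e]

theorem comm_D1 {x a b : G} (ha : a ∈ zpowers x) (hb : b ∈ zpowers x) : a * b = b * a := by
  obtain ⟨i, rfl⟩ := mem_zpowers_iff.1 ha
  obtain ⟨j, rfl⟩ := mem_zpowers_iff.1 hb
  rw [← zpow_add, ← zpow_add, add_comm]

theorem mid_D1 {x : G} {U : Subgroup G} (hU : U ≤ zpowers x) {u1 v1 u2 v2 z1 z2 : G}
    (a1 : u1 ∈ U) (a2 : v1 ∈ U) (a3 : u2 ∈ U) (a4 : v2 ∈ U) (hz : z2 ∈ zpowers x)
    (e : u1 * z1 * v1 = u2 * z2 * v2) : z1 * z2⁻¹ ∈ U := by
  have h1 : z1 = u1⁻¹ * u2 * (z2 * (v2 * v1⁻¹)) := by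
    calc z1 = u1⁻¹ * (u1 * z1 * v1) * v1⁻¹ := by group
      _ = _ := by rw [e]; group
  have hv : v2 * v1⁻¹ ∈ U := U.mul_mem a4 (U.inv_mem a2)
  rw [comm_D1 hz (hU hv)] at h1
  have h2 : z1 * z2⁻¹ = u1⁻¹ * u2 * (v2 * v1⁻¹) := by rw [h1]; group
  rw [h2]
  exact U.mul_mem (U.mul_mem (U.inv_mem a1) a3) hv

theorem ivt_iff_D1 {x a b d u : G} (ha : a ∈ zpowers x) (hb : b ∈ zpowers x)
    (hu : u ∈ zpowers x) : Ivt (a⁻¹ * d * b) u ↔ Ivt d u := by
  unfold Ivt
  have h1 : (a⁻¹ * d * b)⁻¹ * u * (a⁻¹ * d * b) = b⁻¹ * (d⁻¹ * u * d) * b := by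
    calc (a⁻¹ * d * b)⁻¹ * u * (a⁻¹ * d * b) = b⁻¹ * (d⁻¹ * ((a * u) * a⁻¹) * d) * b := by group
      _ = _ := by rw [comm_D1 ha hu]; group
  have h2 : b⁻¹ * u⁻¹ * b = u⁻¹ := by
    rw [comm_D1 (inv_mem hb) (inv_mem hu)]; group
  rw [h1]
  constructor
  · intro h
    rw [← h2] at h
    exact mul_left_cancel (mul_right_cancel h)
  · intro h
    rw [h, h2]

theorem ivt_all_D1 {x d u : G} (h : Ivt d x) (hu : u ∈ zpowers x) : Ivt d u := by
  obtain ⟨i, rfl⟩ := mem_zpowers_iff.1 hu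
  unfold Ivt at *
  have : d⁻¹ * x ^ i * d = (d⁻¹ * x * d) ^ i := by
    simpa using (conj_zpow (a := d⁻¹) (b := x) (i := i)).symm
  rw [this, h, inv_zpow]

theorem sq_D1 {x a b d : G} (ha : a ∈ zpowers x) (hb : b ∈ zpowers x) (h : Ivt d x)
    (h2 : d ^ 2 ≠ 1) : (a⁻¹ * d * b) ^ 2 ≠ 1 := by
  have h3 := ivt_all_D1 h (mul_mem hb (inv_mem ha))
  unfold Ivt at h3
  have h4 : (a⁻¹ * d * b) ^ 2 = a⁻¹ * d ^ 2 * a := by
    calc (a⁻¹ * d * b) ^ 2 = a⁻¹ * d ^ 2 * (d⁻¹ * (b * a⁻¹) * d) * b := by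
          rw [sq, sq]; group
      _ = _ := by rw [h3]; group
  rw [h4]
  intro h5
  apply h2
  calc d ^ 2 = a * (a⁻¹ * d ^ 2 * a) * a⁻¹ := by group
    _ = 1 := by rw [h5]; group

end

theorem d1 (hU : S_UM) (hS : S_SL) : S_D1 := by
  classical
  intro G _ _ x U T γ hUX hx1 hx2 hx3 hgen h1T hcl hinv hγ1 hγ2
  obtain ⟨T1, hc1, hsub, h1, hcov, huniq⟩ := rep_D1 (zpowers x) T h1T
  have hxX : x ∈ zpowers x := mem_zpowers x
  obtain ⟨c, hc1', hc2'⟩ : ∃ c : G → G, c 1 = x ∧ ∀ t, t ≠ 1 → c t = x ^ 2 :=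
    ⟨fun t => if t = 1 then x else x ^ 2, by simp, fun t ht => by simp [ht]⟩
  have hc : ∀ t, c t = x ∨ c t = x ^ 2 := fun t => by
    by_cases ht : t = 1
    · exact Or.inl (by rw [ht, hc1'])
    · exact Or.inr (hc2' t ht)
  have hcX : ∀ t, c t ∈ zpowers x := fun t => by
    rcases hc t with h | h <;> rw [h]
    · exact hxX
    · exact pow_mem hxX 2
  have hcU : ∀ t, c t ∉ U := fun t => by
    rcases hc t with h | h <;> rw [h] <;> assumption
  obtain ⟨R, hRc, hR⟩ : ∃ R : Finset G, R.card ≤ 2 * T.card ∧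
      ∀ r, r ∈ R ↔ ∃ t ∈ T1, r = t ∨ r = t * c t := by
    refine ⟨T1 ∪ T1.image (fun t => t * c t), ?_, fun r => ?_⟩
    · have := Finset.card_union_le T1 (T1.image (fun t => t * c t))
      have := Finset.card_image_le (s := T1) (f := fun t => t * c t)
      omega
    · rw [Finset.mem_union, Finset.mem_image]
      constructor
      · rintro (h | ⟨t, ht, h⟩)
        · exact ⟨r, h, Or.inl rfl⟩
        · exact ⟨t, ht, Or.inr h.symm⟩
      · rintro ⟨t, ht, h | h⟩
        · exact Or.inl (h ▸ ht)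
        · exact Or.inr ⟨t, ht, h.symm⟩
  have hR' : ∀ r ∈ R, ∃ t ∈ T1, ∃ a ∈ zpowers x, r = t * a := by
    intro r hr
    obtain ⟨t, ht, h | h⟩ := (hR r).1 hr
    · exact ⟨t, ht, 1, one_mem _, by rw [h, mul_one]⟩
    · exact ⟨t, ht, c t, hcX t, h⟩
  -- quotients lying in `zpowers x` come from one block
  have hblk : ∀ r ∈ R, ∀ r' ∈ R, r⁻¹ * r' ∈ zpowers x → r = r' ∨
      ∃ t ∈ T1, (r = t ∧ r' = t * c t) ∨ (r = t * c t ∧ r' = t) := by
    intro r hr r' hr' hq
    have key : ∀ t ∈ T1, ∀ t' ∈ T1, ∀ a ∈ zpowers x, ∀ b ∈ zpowers x, r = t * a → r' = t' * b →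
        t = t' := by
      intro t ht t' ht' a ha b hb e e'
      apply huniq t ht t' ht'
      have : t⁻¹ * t' = a * (r⁻¹ * r') * b⁻¹ := by rw [e, e']; group
      rw [this]
      exact mul_mem (mul_mem ha hq) (inv_mem hb)
    obtain ⟨t, ht, h | h⟩ := (hR r).1 hr <;> obtain ⟨t', ht', h' | h'⟩ := (hR r').1 hr'
    · have := key t ht t' ht' 1 (one_mem _) 1 (one_mem _) (by rw [h, mul_one]) (by rw [h', mul_one])
      exact Or.inl (by rw [h, h', this])
    · have := key t ht t' ht' 1 (one_mem _) _ (hcX t') (by rw [h, mul_one]) h'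
      exact Or.inr ⟨t, ht, Or.inl ⟨h, by rw [h', this]⟩⟩
    · have := key t ht t' ht' _ (hcX t) 1 (one_mem _) h (by rw [h', mul_one])
      exact Or.inr ⟨t, ht, Or.inr ⟨h, by rw [h', this]⟩⟩
    · have := key t ht t' ht' _ (hcX t) _ (hcX t') h h'
      exact Or.inl (by rw [h, h', this])
  obtain ⟨y, hy, hSid, -⟩ := hS G U R ∅ γ (fun a ha b hb => comm_D1 (hUX ha) (hUX hb))
    (fun b hb => hb.elim)
    (lt_of_le_of_lt (by
      calc 4 * R.card ^ 3 ≤ 4 * (2 * T.card) ^ 3 := by gcongr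
        _ = 32 * T.card ^ 3 := by ring) hγ1) hγ2 (by
      intro r hr r' hr' hne
      refine ⟨fun hq => ?_, ?_, fun y _ => by simp⟩
      · rcases hblk r hr r' hr' (hUX hq) with h | ⟨t, -, ⟨h, h'⟩ | ⟨h, h'⟩⟩
        · exact hne h
        · rw [h, h'] at hq
          exact hcU t (by simpa using hq)
        · rw [h, h'] at hq
          exact hcU t (by simpa using U.inv_mem hq)
      · obtain ⟨t, ht, a, ha, rfl⟩ := hR' r hr
        obtain ⟨t', ht', b, hb, rfl⟩ := hR' r' hr'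
        have e : (t * a)⁻¹ * (t' * b) = a⁻¹ * (t⁻¹ * t') * b := by group
        rw [e]
        rcases hinv t (hsub t ht) t' (hsub t' ht') with ⟨h, h'⟩ | h
        · exact Or.inl ⟨fun u hu => (ivt_iff_D1 ha hb (hUX hu)).2 (ivt_all_D1 h (hUX hu)),
            sq_D1 ha hb h h'⟩
        · refine Or.inr ?_
          have : {e | e ∈ U ∧ Ivt (a⁻¹ * (t⁻¹ * t') * b) e} = {e | e ∈ U ∧ Ivt (t⁻¹ * t') e} := by
            ext u
            exact and_congr_right fun hu => ivt_iff_D1 ha hb (hUX hu)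
          rw [this]
          exact h)
  set S : Set G := {s | ∃ t ∈ R, s = t * y t} with hSdef
  have hS1 : ∀ t ∈ T1, t * y t ∈ S := fun t ht => ⟨t, (hR t).2 ⟨t, ht, Or.inl rfl⟩, rfl⟩
  have hS2 : ∀ t ∈ T1, t * c t * y (t * c t) ∈ S := fun t ht =>
    ⟨_, (hR _).2 ⟨t, ht, Or.inr rfl⟩, rfl⟩
  have hK : ∀ a ∈ S, ∀ b ∈ S, a⁻¹ * b ∈ zpowers x → a = b ∨
      ∃ t ∈ T1, (a = t * y t ∧ b = t * c t * y (t * c t)) ∨
        (a = t * c t * y (t * c t) ∧ b = t * y t) := by
    rintro a ⟨r, hr, rfl⟩ b ⟨r', hr', rfl⟩ hq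
    have hq' : r⁻¹ * r' ∈ zpowers x := by
      have : r⁻¹ * r' = y r * ((r * y r)⁻¹ * (r' * y r')) * (y r')⁻¹ := by group
      rw [this]
      exact mul_mem (mul_mem (hUX (hy r)) hq) (inv_mem (hUX (hy r')))
    rcases hblk r hr r' hr' hq' with h | ⟨t, ht, ⟨h, h'⟩ | ⟨h, h'⟩⟩
    · exact Or.inl (by rw [h])
    · exact Or.inr ⟨t, ht, Or.inl ⟨by rw [h], by rw [h']⟩⟩
    · exact Or.inr ⟨t, ht, Or.inr ⟨by rw [h], by rw [h']⟩⟩
  have q1 : ∀ t, (t * y t)⁻¹ * (t * c t * y (t * c t)) = (y t)⁻¹ * c t * y (t * c t) :=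
    fun t => by group
  have q2 : ∀ t, (t * c t * y (t * c t))⁻¹ * (t * y t) = (y (t * c t))⁻¹ * (c t)⁻¹ * y t :=
    fun t => by group
  have hq1U : ∀ t, (y t)⁻¹ * c t * y (t * c t) ∉ U := fun t h =>
    hcU t ((U.mul_mem_cancel_left (U.inv_mem (hy t))).1 ((U.mul_mem_cancel_right (hy _)).1 h))
  have hK1 : ∀ a ∈ S, ∀ b ∈ S, a⁻¹ * b ∈ U → a = b := by
    intro a ha b hb hq
    rcases hK a ha b hb (hUX hq) with h | ⟨t, -, ⟨rfl, rfl⟩ | ⟨rfl, rfl⟩⟩
    · exact h
    · rw [q1] at hq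
      exact absurd hq (hq1U t)
    · have := U.inv_mem hq
      rw [mul_inv_rev, inv_inv, q1] at this
      exact absurd this (hq1U t)
  obtain ⟨s0, hs0⟩ : ∃ s0, s0 = 1 * y 1 := ⟨_, rfl⟩
  obtain ⟨s1, hs1⟩ : ∃ s1, s1 = 1 * c 1 * y (1 * c 1) := ⟨_, rfl⟩
  have hs0S : s0 ∈ S := hs0 ▸ hS1 1 h1
  have hs1S : s1 ∈ S := hs1 ▸ hS2 1 h1
  have hs0U : s0 ∈ U := by rw [hs0, one_mul]; exact hy 1
  obtain ⟨x1, hx1e⟩ : ∃ x1, x1 = s0⁻¹ * s1 := ⟨_, rfl⟩
  have hx1f : x1 = (y 1)⁻¹ * x * y (1 * c 1) := by rw [hx1e, hs0, hs1, q1, hc1']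
  have hx1X : x1 ∈ zpowers x := by
    rw [hx1f]
    exact mul_mem (mul_mem (inv_mem (hUX (hy 1))) hxX) (hUX (hy _))
  have hx1g : x ∈ zpowers x1 := by
    have := hgen _ (U.mul_mem (U.inv_mem (hy 1)) (hy (1 * c 1)))
    rwa [← mul_assoc, comm_D1 hxX (inv_mem (hUX (hy 1))), ← hx1f] at this
  have hK2 : ∀ a ∈ S, ∀ b ∈ S, ∀ w ∈ U, a⁻¹ * b = w * x1 → a = s0 ∧ b = s1 := by
    intro a ha b hb w hw e
    have hw' : w * (y 1)⁻¹ ∈ U := U.mul_mem hw (U.inv_mem (hy 1))
    have e' : a⁻¹ * b = w * (y 1)⁻¹ * x * y (1 * c 1) := by rw [e, hx1f]; group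
    rcases hK a ha b hb (e ▸ mul_mem (hUX hw) hx1X) with h | ⟨t, -, ⟨rfl, rfl⟩ | ⟨rfl, rfl⟩⟩
    · rw [h, inv_mul_cancel] at e'
      have : (1 : G) * 1 * 1 = w * (y 1)⁻¹ * x * y (1 * c 1) := by rw [← e']; group
      have := mid_D1 hUX U.one_mem U.one_mem hw' (hy _) hxX this
      exact absurd (by simpa using this) hx1
    · by_cases ht : t = 1
      · rw [ht, hs0, hs1]
        exact ⟨rfl, rfl⟩
      · rw [q1] at e'
        have := mid_D1 hUX (U.inv_mem (hy _)) (hy _) hw' (hy _) hxX e'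
        rw [hc2' t ht] at this
        exact absurd (by simpa [sq] using this) hx1
    · rw [q2] at e'
      have := U.inv_mem (mid_D1 hUX (U.inv_mem (hy _)) (hy _) hw' (hy _) hxX e')
      rw [mul_inv_rev, inv_inv, inv_inv] at this
      rcases hc t with h | h <;> rw [h] at this
      · exact absurd (by rwa [sq]) hx2
      · exact absurd (by rwa [pow_succ']) hx3
  have hcj : cj U x1 = U := by
    ext u
    rw [mem_cj]
    constructor
    · intro h
      have hu : u ∈ zpowers x := by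
        have : u = x1⁻¹ * (x1 * u * x1⁻¹) * x1 := by group
        rw [this]
        exact mul_mem (mul_mem (inv_mem hx1X) (hUX h)) hx1X
      rwa [comm_D1 hx1X hu, mul_inv_cancel_right] at h
    · intro h
      rwa [comm_D1 hx1X (hUX h), mul_inv_cancel_right]
  have main := hU.um1 ({U} : Finset (Subgroup G)) ({(U, x1)} : Finset (Subgroup G × G)) ⊥ S
    (by
      intro K hK K' hK' hne
      rw [Finset.mem_singleton] at hK hK'
      exact absurd (hK.trans hK'.symm) hne)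
    (by
      intro g hg
      rw [Finset.mem_singleton.1 hg]
      simp [hcj])
    (by
      intro k hk s hs
      rwa [mem_bot.1 hk, one_mul])
    (sidonMod_bot hSid)
    ⟨s0, hs0S, s1, hs1S, fun h => by
      have : x1 ∈ U := by rw [hx1e, h, inv_mul_cancel]; exact U.one_mem
      rw [hx1e, hs0, hs1, q1] at this
      exact hq1U 1 this⟩
    (by
      intro K hK
      rw [Finset.mem_singleton.1 hK]
      exact hK1)
    (by
      intro φ _ _ hG hL
      have hG' : Gad U x1 φ := hG (U, x1) (Finset.mem_singleton_self _)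
      choose l hl using hL
      have h01 : ∀ g, φ (g * s0) = l g * s0 ∧ φ (g * s1) = l g * s1 := by
        intro g
        obtain ⟨w, hw, e⟩ := hG' (g * s0)
        have e1 : g * s0 * x1 = g * s1 := by rw [hx1e]; group
        rw [e1] at e
        obtain ⟨a, b⟩ := hK2 _ (hl g s0 hs0S) _ (hl g s1 hs1S) w hw (by rw [e]; group)
        exact ⟨inv_mul_eq_iff_eq_mul.1 a, inv_mul_eq_iff_eq_mul.1 b⟩
      have hdiff : ∀ s, (∀ g, φ (g * s) = l g * s) → Fixes φ (s0⁻¹ * s) := by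
        intro s hs g
        have a := (h01 (g * s0⁻¹)).1
        rw [inv_mul_cancel_right] at a
        rw [← mul_assoc, hs, a]
        group
      have hf1 : Fixes φ x1 := hx1e ▸ hdiff s1 fun g => (h01 g).2
      have hfz : ∀ v, Fixes φ v → ∀ z ∈ zpowers v, Fixes φ z := by
        intro v hv z hz
        rw [zpowers_eq_closure] at hz
        exact Fixes.closure (fun u hu => by rw [Set.mem_singleton_iff.1 hu]; exact hv) z hz
      have hfx : Fixes φ x := hfz x1 hf1 x hx1g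
      have hfX : ∀ z ∈ zpowers x, Fixes φ z := hfz x hfx
      have hfT1 : ∀ t ∈ T1, Fixes φ t := by
        intro t ht
        have hκ : (y t)⁻¹ * c t * y (t * c t) ∈ zpowers x :=
          mul_mem (mul_mem (inv_mem (hUX (hy t))) (hcX t)) (hUX (hy _))
        have hs : ∀ g, φ (g * (t * y t)) = l g * (t * y t) := by
          intro g
          have e := hfX _ hκ (g * (t * y t))
          have e1 : g * (t * y t) * ((y t)⁻¹ * c t * y (t * c t)) =
              g * (t * c t * y (t * c t)) := by group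
          rw [e1] at e
          rcases hSid _ (hS1 t ht) _ (hS2 t ht) _ (hl g _ (hS1 t ht)) _ (hl g _ (hS2 t ht))
            (by rw [e, q1]; group) with h | h
          · rw [q1] at h
            exact absurd (h ▸ U.one_mem) (hq1U t)
          · exact inv_mul_eq_iff_eq_mul.1 h.symm
        have := ((hfX s0 (hUX hs0U)).mul (hdiff _ hs)).mul (hfX _ (hUX (hy t))).inv
        have e : s0 * (s0⁻¹ * (t * y t)) * (y t)⁻¹ = t := by group
        rwa [e] at this
      intro z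
      refine Fixes.closure (Z := insert x (T : Set G)) ?_ z (hcl ▸ mem_top z)
      rintro u (rfl | hu)
      · exact hfx
      · obtain ⟨a, ha, hq⟩ := hcov u hu
        have := (hfT1 a ha).mul (hfX _ hq)
        rwa [mul_inv_cancel_left] at this)
  refine main.mono ?_
  have := Nat.pos_of_ne_zero U.index_ne_zero_of_finite
  simp only [index_bot, Finset.sum_singleton, Finset.card_singleton]
  omega

end Pool.Agent.MP_a1dcd4_co.SH

end

section

set_option autoImplicit false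

namespace Pool.Agent.MP_a1dcd4_co.SH

open Function Subgroup Pool.Agent.MP_a1dcd4_co.OR

section

variable {G : Type} [Group G] {y a b : G}

theorem cj_Seed (h : a * y = y * a) : a⁻¹ * y * a = y := by
  rw [mul_assoc, ← h, inv_mul_cancel_left]

theorem cj'_Seed (h : a⁻¹ * y * a = y) : a * y = y * a := by
  conv_lhs => rw [← h]
  group

theorem cc_Seed (ha : a * y = y * a) (hb : b * y = y * b) : a * b * y = y * (a * b) := by
  rw [mul_assoc, hb, ← mul_assoc, ha, mul_assoc]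

theorem cinv_Seed (ha : a * y = y * a) : a⁻¹ * y = y * a⁻¹ := by
  conv_rhs => rw [← cj_Seed ha]
  group

theorem ci_Seed (ha : a * y = y * a) (hb : Ivt b y) : Ivt (a * b) y := by
  unfold Ivt at *
  rw [← hb]
  conv_rhs => rw [← cj_Seed ha]
  group

theorem ic_Seed (ha : Ivt a y) (hb : b * y = y * b) : Ivt (a * b) y := by
  unfold Ivt at *
  calc (a * b)⁻¹ * y * (a * b) = b⁻¹ * (a⁻¹ * y * a) * b := by group
    _ = (b⁻¹ * y * b)⁻¹ := by rw [ha]; group
    _ = y⁻¹ := by rw [cj_Seed hb]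

theorem ii_Seed (ha : Ivt a y) (hb : Ivt b y) : a * b * y = y * (a * b) := by
  unfold Ivt at *
  apply cj'_Seed
  calc (a * b)⁻¹ * y * (a * b) = b⁻¹ * (a⁻¹ * y * a) * b := by group
    _ = (b⁻¹ * y * b)⁻¹ := by rw [ha]; group
    _ = y := by rw [hb, inv_inv]

theorem iinv_Seed (ha : Ivt a y) : Ivt a⁻¹ y := by
  unfold Ivt at *
  have e : a * y⁻¹ * a⁻¹ = y := by
    calc a * y⁻¹ * a⁻¹ = a * (a⁻¹ * y * a) * a⁻¹ := by rw [ha]
      _ = y := by group
  calc a⁻¹⁻¹ * y * a⁻¹ = (a * y⁻¹ * a⁻¹)⁻¹ := by group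
    _ = y⁻¹ := by rw [e]

theorem disj_Seed (hy : y ^ 2 ≠ 1) (ha : a * y = y * a) : ¬ Ivt a y := fun h => by
  unfold Ivt at h
  rw [cj_Seed ha] at h
  exact hy (by rw [pow_two]; exact mul_eq_one_iff_eq_inv.2 h)

/-- no quotient inverts `y` -/
def IF_Seed (y : G) (T : Finset G) : Prop := ∀ t ∈ T, ∀ t' ∈ T, ¬ Ivt (t⁻¹ * t') y

theorem IF_insert_Seed [DecidableEq G] (hy : y ^ 2 ≠ 1) {T : Finset G} (h : IF_Seed y T) {z : G}
    (hz : ∀ t ∈ T, ¬ Ivt (t⁻¹ * z) y) : IF_Seed y (insert z T) := by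
  intro t ht t' ht'
  rw [Finset.mem_insert] at ht ht'
  rcases ht with rfl | ht <;> rcases ht' with rfl | ht'
  · exact disj_Seed hy (by simp)
  · exact fun e => hz _ ht' (by simpa using iinv_Seed e)
  · exact hz _ ht
  · exact h _ ht _ ht'

theorem IF_c_Seed [DecidableEq G] (hy : y ^ 2 ≠ 1) {T : Finset G} (h : IF_Seed y T)
    (h1 : (1 : G) ∈ T) {c : G} (hc : c * y = y * c) : IF_Seed y (insert c T) :=
  IF_insert_Seed hy h fun t ht e => h 1 h1 t ht (by simpa using ci_Seed hc (iinv_Seed e))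

theorem ext_Seed {j : G} (Z : Finset G) (hy : y ^ 2 ≠ 1) (hZ : closure (Z : Set G) = ⊤)
    (hj : Ivt j y) (S : Finset G) (h : IF_Seed y S) (h1 : (1 : G) ∈ S) (h4 : S.card ≤ 4)
    {i : G} (hi : Ivt i y) (hiS : i ∈ closure (S : Set G)) : ∃ T, Free y (Z.card + 6) T := by
  classical
  obtain ⟨c, hc, hc'⟩ : ∃ c, c * y = y * c ∧
      ((∃ c, c * y = y * c ∧ c ∉ zpowers y) → c ∉ zpowers y) := by
    by_cases e : ∃ c, c * y = y * c ∧ c ∉ zpowers y
    · obtain ⟨c, h1, h2⟩ := e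
      exact ⟨c, h1, fun _ => h2⟩
    · exact ⟨1, by simp, fun h => (e h).elim⟩
  have step : ∀ Z1 : Finset G, ∃ T : Finset G, insert c (insert (i⁻¹ * j) S) ⊆ T ∧
      T.card ≤ Z1.card + 6 ∧ IF_Seed y T ∧ ∀ z ∈ Z1, z ∈ T ∨ z * j ∈ T := by
    intro Z1
    induction Z1 using Finset.induction_on with
    | empty =>
      refine ⟨_, Finset.Subset.refl _, ?_, ?_, by simp⟩
      · have := Finset.card_insert_le c (insert (i⁻¹ * j) S)
        have := Finset.card_insert_le (i⁻¹ * j) S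
        simp only [Finset.card_empty]
        omega
      · exact IF_c_Seed hy (IF_c_Seed hy h h1 (ii_Seed (iinv_Seed hi) hj))
          (Finset.mem_insert_of_mem h1) hc
    | insert z Z1 hz ih =>
      obtain ⟨T, k1, k2, k3, k4⟩ := ih
      have fin : ∀ w, (∀ t ∈ T, ¬ Ivt (t⁻¹ * w) y) → (w = z ∨ w = z * j) →
          ∃ T : Finset G, insert c (insert (i⁻¹ * j) S) ⊆ T ∧
            T.card ≤ (insert z Z1).card + 6 ∧ IF_Seed y T ∧
            ∀ x ∈ insert z Z1, x ∈ T ∨ x * j ∈ T := by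
        intro w hw hw'
        refine ⟨insert w T, k1.trans (Finset.subset_insert _ _), ?_, IF_insert_Seed hy k3 hw, ?_⟩
        · have := Finset.card_insert_le w T
          rw [Finset.card_insert_of_notMem hz]
          omega
        · intro x hx
          rcases Finset.mem_insert.1 hx with rfl | hx
          · rcases hw' with rfl | rfl <;> simp
          · exact (k4 x hx).imp Finset.mem_insert_of_mem Finset.mem_insert_of_mem
      by_cases e : ∀ t ∈ T, ¬ Ivt (t⁻¹ * z) y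
      · exact fin z e (Or.inl rfl)
      · push Not at e
        obtain ⟨t, ht, e⟩ := e
        refine fin (z * j) (fun t' ht' e' => k3 t ht t' ht' ?_) (Or.inr rfl)
        have := ic_Seed e (ii_Seed hj (iinv_Seed e'))
        simpa [mul_assoc] using this
  obtain ⟨T, k1, k2, k3, k4⟩ := step Z
  have hS : S ⊆ T := fun s hs => k1 (Finset.mem_insert_of_mem (Finset.mem_insert_of_mem hs))
  have m : ∀ t ∈ T, t ∈ closure (insert y (T : Set G)) := fun t ht =>
    subset_closure (Set.mem_insert_of_mem _ ht)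
  have hjT : j ∈ closure (insert y (T : Set G)) := by
    have a1 : i ∈ closure (insert y (T : Set G)) :=
      closure_mono (fun s hs => Set.mem_insert_of_mem _ (hS hs)) hiS
    simpa using mul_mem a1 (m _ (k1 (by simp : i⁻¹ * j ∈ _)))
  refine ⟨T, k2, hS h1, ?_, fun t ht t' ht' e => (k3 t ht t' ht' e).elim, fun e =>
    ⟨1, hS h1, c, k1 (by simp), by simpa using hc, by simpa using hc' e⟩⟩
  rw [eq_top_iff, ← hZ, closure_le]
  intro z hz
  rcases k4 z hz with h | h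
  · exact m z h
  · simpa using mul_mem (m _ h) (inv_mem hjT)

end

theorem seed : S_Seed := by
  classical
  intro G _ _ y j Z hy hZ hj
  refine or_iff_not_imp_left.2 fun hF => or_iff_not_imp_left.2 fun hG => ?_
  have one : IF_Seed y {1} := by
    intro t ht t' ht'
    rw [Finset.mem_singleton] at ht ht'
    exact disj_Seed hy (by simp [ht, ht'])
  have k1 : ∀ b i, Ivt i y → Ivt (b⁻¹ * i * b) y := by
    intro b i hi
    by_cases h1 : b * y = y * b
    · exact ic_Seed (ci_Seed (cinv_Seed h1) hi) h1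
    by_cases h2 : Ivt b y
    · exact ci_Seed (ii_Seed (iinv_Seed h2) hi) h2
    by_contra h3
    refine hF (ext_Seed Z hy hZ hj (insert (i * b) (insert b {1})) ?_ (by simp) ?_ hi ?_)
    · refine IF_insert_Seed hy (IF_insert_Seed hy one (by simpa using h2)) ?_
      intro t ht
      rw [Finset.mem_insert, Finset.mem_singleton] at ht
      rcases ht with rfl | rfl
      · rwa [← mul_assoc]
      · exact fun e => h1 (by simpa using ii_Seed (iinv_Seed hi) e)
    · exact Finset.card_le_three.trans (by omega)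
    · have a1 : i * b ∈ closure ((insert (i * b) (insert b {1}) : Finset G) : Set G) :=
        subset_closure (by simp)
      have a2 : b ∈ closure ((insert (i * b) (insert b {1}) : Finset G) : Set G) :=
        subset_closure (by simp)
      simpa using mul_mem a1 (inv_mem a2)
  have k2 : ∀ b c, c * y = y * c → b⁻¹ * c * b * y = y * (b⁻¹ * c * b) := by
    intro b c hc
    have := ii_Seed (k1 b _ (iinv_Seed hj)) (k1 b _ (ic_Seed hj hc))
    simpa [mul_assoc] using this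
  refine ⟨k1, k2, by simpa [not_or] using hG, fun a b a1 a2 b1 b2 => ?_⟩
  by_contra h
  rw [not_or] at h
  refine hF (ext_Seed Z hy hZ hj (insert (a * b * j) (insert b (insert a {1}))) ?_ (by simp)
    Finset.card_le_four hj ?_)
  · refine IF_insert_Seed hy (IF_insert_Seed hy (IF_insert_Seed hy one (by simpa using a2)) ?_) ?_
    · intro t ht
      rw [Finset.mem_insert, Finset.mem_singleton] at ht
      rcases ht with rfl | rfl
      · exact h.1
      · simpa using b2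
    · intro t ht e
      have e' := ii_Seed e (iinv_Seed hj)
      rw [Finset.mem_insert, Finset.mem_insert, Finset.mem_singleton] at ht
      rcases ht with rfl | rfl | rfl
      · exact a1 (by simpa [mul_assoc] using k2 t⁻¹ _ e')
      · exact b1 (by simpa [mul_assoc] using e')
      · exact h.2 (by simpa [mul_assoc] using e')
  · have m : ∀ t ∈ (insert (a * b * j) (insert b (insert a {1})) : Finset G),
        t ∈ closure ((insert (a * b * j) (insert b (insert a {1})) : Finset G) : Set G) :=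
      fun t ht => subset_closure ht
    simpa [mul_assoc] using mul_mem (inv_mem (mul_mem (m a (by simp)) (m b (by simp))))
      (m (a * b * j) (by simp))

end Pool.Agent.MP_a1dcd4_co.SH

end
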