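import Pool.Agent.Mg.Fa1dcd4.Gab73b3
import Pool.Agent.Mg.Fa1dcd4a.G60ef6f

set_option linter.all false

section



end

section

/-!
A large finite group has a long element of prime power order or a large elementary abelian subgroup.
-/

set_option autoImplicit false

namespace Pool.Agent.MP_a1dcd4_co.SH

open Function Subgroup Pool.Agent.MP_a1dcd4_co.OR

theorem pow_count_Big {H : Type} [Group H] [Finite H] (p T : ℕ) (A : Subgroup H) (hc : Cm A)
    (hE : ∀ E : Subgroup H, Ea p E → Nat.card E ≤ T) (i : ℕ) :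
    {a | a ∈ A ∧ a ^ p ^ i = 1}.ncard ≤ T ^ i := by
  let E : Subgroup H :=
    { carrier := {a | a ∈ A ∧ a ^ p = 1}
      one_mem' := ⟨A.one_mem, one_pow p⟩
      mul_mem' := by
        rintro a b ⟨ha, ha'⟩ ⟨hb, hb'⟩
        refine ⟨A.mul_mem ha hb, ?_⟩
        have c : Commute a b := hc a ha b hb
        rw [c.mul_pow, ha', hb', one_mul]
      inv_mem' := by
        rintro a ⟨ha, ha'⟩
        exact ⟨A.inv_mem ha, by rw [inv_pow, ha', inv_one]⟩ }
  have hEc : {a | a ∈ A ∧ a ^ p = 1}.ncard ≤ T := by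
    have := hE E ⟨fun x hx y hy => hc x hx.1 y hy.1, fun x hx => hx.2⟩
    rw [← Nat.card_coe_set_eq]
    exact this
  induction i with
  | zero =>
    have : {a | a ∈ A ∧ a ^ p ^ 0 = 1} ⊆ {(1 : H)} := by
      rintro a ⟨_, ha⟩
      simpa using ha
    simpa using Set.ncard_le_ncard this
  | succ i ih =>
    refine (ncard_le_mul {a | a ∈ A ∧ a ^ p ^ (i + 1) = 1} {a | a ∈ A ∧ a ^ p ^ i = 1}
      {a | a ∈ A ∧ a ^ p = 1} (Set.toFinite _) (Set.toFinite _) (fun a => a ^ p) ?_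
      (fun a0 a => a0⁻¹ * a) ?_ ?_).trans ?_
    · rintro a ⟨ha, ha'⟩
      refine ⟨A.pow_mem ha p, ?_⟩
      rw [← pow_mul, ← pow_succ']
      exact ha'
    · rintro a0 ⟨h0, _⟩ a ⟨ha, _⟩ e
      refine ⟨A.mul_mem (A.inv_mem h0) ha, ?_⟩
      have c : Commute a0⁻¹ a := hc _ (A.inv_mem h0) a ha
      have e' : a ^ p = a0 ^ p := e
      rw [c.mul_pow, e', inv_pow, inv_mul_cancel]
    · intro a0 a a' e
      exact mul_left_cancel e
    · rw [pow_succ]
      exact Nat.mul_le_mul ih hEc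

theorem card_le_Big {H : Type} [Group H] [Finite H] (p T : ℕ) [Fact p.Prime] (hH : IsPGroup p H)
    (hE : ∀ E : Subgroup H, Ea p E → Nat.card E ≤ T) (hx : ∀ x : H, x ^ p ^ T = 1) :
    Nat.card H ≤ (T ^ T) ^ (T ^ T) * T ^ T := by
  obtain ⟨A, hn, hc, hcent⟩ := exists_self_centralizing hH
  have hA : Nat.card A ≤ T ^ T := by
    have h1 := pow_count_Big p T A hc hE T
    have h2 : {a | a ∈ A ∧ a ^ p ^ T = 1} = (A : Set H) := by
      ext a
      simp [hx a]
    rw [h2, ← Nat.card_coe_set_eq] at h1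
    exact h1
  have hpos : 0 < Nat.card A := Nat.card_pos
  have h := ncard_le_mul (Set.univ : Set H) (Set.univ : Set (A → A)) (A : Set H)
    (Set.toFinite _) (Set.toFinite _)
    (fun x a => (⟨x * a * x⁻¹, hn.conj_mem a a.2 x⟩ : A)) (fun _ _ => Set.mem_univ _)
    (fun x0 x => x0⁻¹ * x) (by
      intro x0 _ x _ e
      refine hcent _ fun a ha => ?_
      have e' : x * a * x⁻¹ = x0 * a * x0⁻¹ := congrArg Subtype.val (congrFun e ⟨a, ha⟩)
      calc a * (x0⁻¹ * x) = x0⁻¹ * (x0 * a * x0⁻¹) * x := by group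
        _ = x0⁻¹ * (x * a * x⁻¹) * x := by rw [e']
        _ = x0⁻¹ * x * a := by group)
    (fun _ _ _ e => mul_left_cancel e)
  rw [Set.ncard_univ, Set.ncard_univ, Nat.card_fun, ← Nat.card_coe_set_eq] at h
  refine h.trans (Nat.mul_le_mul ?_ hA)
  exact (Nat.pow_le_pow_left hA _).trans (Nat.pow_le_pow_right (hpos.trans_le hA) hA)

theorem big : S_Big := by
  intro T
  refine ⟨((T ^ T) ^ (T ^ T) * T ^ T + 1) ^ T + 1, fun G _ _ hG => ?_⟩
  by_contra hcon
  have h1 : ∀ p : ℕ, p.Prime → ∀ (x : G) (k : ℕ), orderOf x = p ^ k → p ^ k < T := by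
    intro p hp x k e
    by_contra h
    exact hcon ⟨p, hp, Or.inl ⟨x, k, e, not_lt.1 h⟩⟩
  have h2 : ∀ p : ℕ, p.Prime → ∀ E : Subgroup G, Ea p E → Nat.card E ≤ T := by
    intro p hp E hE
    by_contra h
    exact hcon ⟨p, hp, Or.inr ⟨E, hE, (not_le.1 h).le⟩⟩
  have hsub : (Nat.card G).primeFactors ⊆ Finset.range T := by
    intro p hp
    have hpp := Nat.prime_of_mem_primeFactors hp
    have : Fact p.Prime := ⟨hpp⟩
    obtain ⟨x, hx⟩ := exists_prime_orderOf_dvd_card' p (Nat.dvd_of_mem_primeFactors hp)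
    have := h1 p hpp x 1 (by rw [hx, pow_one])
    rw [pow_one] at this
    exact Finset.mem_range.2 this
  have hb : ∀ p ∈ (Nat.card G).primeFactors,
      p ^ (Nat.card G).factorization p ≤ (T ^ T) ^ (T ^ T) * T ^ T + 1 := by
    intro p hp
    have hpp := Nat.prime_of_mem_primeFactors hp
    have : Fact p.Prime := ⟨hpp⟩
    obtain ⟨P⟩ : Nonempty (Sylow p G) := inferInstance
    rw [← P.card_eq_multiplicity]
    refine (card_le_Big p T P.isPGroup' ?_ ?_).trans (Nat.le_succ _)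
    · intro E hE
      have := h2 p hpp (E.map (P : Subgroup G).subtype) ⟨by
        rintro _ ⟨x, hx, rfl⟩ _ ⟨y, hy, rfl⟩
        rw [← map_mul, ← map_mul, hE.1 x hx y hy], by
        rintro _ ⟨x, hx, rfl⟩
        rw [← map_pow, hE.2 x hx, map_one]⟩
      rwa [Subgroup.card_subtype] at this
    · intro x
      obtain ⟨k, hk⟩ := IsPGroup.iff_orderOf.1 P.isPGroup' x
      have h3 := h1 p hpp (x : G) k (by rw [Subgroup.orderOf_coe, hk])
      have h4 : k ≤ T := ((Nat.lt_pow_self hpp.one_lt).trans h3).le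
      rw [← orderOf_dvd_iff_pow_eq_one, hk]
      exact pow_dvd_pow p h4
  have hn : Nat.card G ≠ 0 := Nat.card_pos.ne'
  have h5 : Nat.card G ≤ ((T ^ T) ^ (T ^ T) * T ^ T + 1) ^ T := by
    calc Nat.card G = ∏ p ∈ (Nat.card G).primeFactors, p ^ (Nat.card G).factorization p :=
          (Nat.prod_primeFactors_pow_factorization hn)
      _ ≤ ((T ^ T) ^ (T ^ T) * T ^ T + 1) ^ (Nat.card G).primeFactors.card :=
          Finset.prod_le_pow_card _ _ _ hb
      _ ≤ _ := Nat.pow_le_pow_right (Nat.succ_pos _)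
          ((Finset.card_le_card hsub).trans (Finset.card_range T).le)
  omega

end Pool.Agent.MP_a1dcd4_co.SH

end

section

set_option autoImplicit false

namespace Pool.Agent.MP_a1dcd4_co.SH

open Function Subgroup Pool.Agent.MP_a1dcd4_co.OR

section

variable {G : Type} [Group G]

/-- the subgroup `B ∪ B t` for an involution `t` normalising `B` -/
def ext_E1 (B : Subgroup G) (t : G) (h1 : t * t = 1) (h2 : ∀ b ∈ B, t * b * t ∈ B) :
    Subgroup G where
  carrier := {g | g ∈ B ∨ g * t ∈ B}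
  one_mem' := Or.inl B.one_mem
  mul_mem' := by
    have e : ∀ u v : G, u * t * (t * v) = u * v := fun u v => by
      rw [mul_assoc, ← mul_assoc t, h1, one_mul]
    rintro g h (a | a) (b | b)
    · exact Or.inl (B.mul_mem a b)
    · exact Or.inr (by rw [mul_assoc]; exact B.mul_mem a b)
    · refine Or.inr ?_
      have := B.mul_mem a (h2 h b)
      rwa [mul_assoc t, e, ← mul_assoc] at this
    · refine Or.inl ?_
      have := B.mul_mem a (h2 _ b)
      rwa [mul_assoc t, e, mul_assoc h, h1, mul_one] at this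
  inv_mem' := by
    rintro g (a | a)
    · exact Or.inl (B.inv_mem a)
    · refine Or.inr ?_
      have := h2 _ (B.inv_mem a)
      rwa [mul_inv_rev, ← mul_assoc, mul_inv_cancel, one_mul] at this

theorem mem_ext_E1 {B : Subgroup G} {t : G} {h1 : t * t = 1} {h2 : ∀ b ∈ B, t * b * t ∈ B}
    {g : G} : g ∈ ext_E1 B t h1 h2 ↔ g ∈ B ∨ g * t ∈ B := Iff.rfl

theorem gad_E1 {Y : Subgroup G} (hY : Y.Normal) {φ : G → G} {Z : Set G}
    (h : ∀ z ∈ Z, Gad Y z φ) : ∀ s ∈ closure Z, Gad Y s φ := by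
  intro s hs
  induction hs using closure_induction with
  | mem x hx => exact h x hx
  | one => exact fun g => ⟨1, Y.one_mem, by simp⟩
  | mul s s' _ _ h1 h2 =>
    intro g
    obtain ⟨w, hw, e⟩ := h1 g
    obtain ⟨w', hw', e'⟩ := h2 (g * s)
    refine ⟨w * (s * w' * s⁻¹), Y.mul_mem hw (hY.conj_mem _ hw' s), ?_⟩
    rw [← mul_assoc, e', e]
    group
  | inv s _ h1 =>
    intro g
    obtain ⟨w, hw, e⟩ := h1 (g * s⁻¹)
    refine ⟨s⁻¹ * w⁻¹ * s⁻¹⁻¹, hY.conj_mem _ (Y.inv_mem hw) s⁻¹, ?_⟩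
    rw [inv_mul_cancel_right] at e
    rw [e]
    group

theorem fix_E1 {K Y : Subgroup G} {φ : G → G} (h : K ⊓ Y = ⊥) (hP : Pres (K : Set G) φ) {k : G}
    (hk : k ∈ K) (hg : Gad Y k φ) : Fixes φ k := by
  intro g
  obtain ⟨k', hk', e⟩ := hP g k hk
  obtain ⟨w, hw, e'⟩ := hg g
  have e1 : w = k' * k⁻¹ := by
    rw [e, mul_assoc, mul_left_cancel_iff] at e'
    rw [e', mul_inv_cancel_right]
  have e2 : w ∈ K ⊓ Y := ⟨e1 ▸ K.mul_mem hk' (K.inv_mem hk), hw⟩
  rw [h, mem_bot] at e2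
  rw [e', e2, mul_one]

theorem half_E1 [Finite G] {K : Subgroup G} {k : G} (hk : k ∈ K) (h1 : k ≠ 1) :
    2 * K.index ≤ Nat.card G := by
  rw [← K.card_mul_index]
  exact Nat.mul_le_mul_right _ ((K.one_lt_card_iff_ne_bot).2 fun h => h1 (mem_bot.1 (h ▸ hk)))

theorem cm_E1 {A : Subgroup G} {j : G} (h : ∀ a ∈ A, Ivt j a) : Cm A := by
  intro a ha b hb
  have e : (b * a)⁻¹ = (a * b)⁻¹ := by
    rw [← h _ (A.mul_mem ha hb), mul_inv_rev, ← h a ha, ← h b hb]
    group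
  exact (inv_injective e).symm

end

theorem ins_E1 {α : Type} [DecidableEq α] (s : Finset α) (a : α) (f : α → ℕ) :
    ∑ x ∈ insert a s, f x ≤ f a + ∑ x ∈ s, f x := by
  by_cases h : a ∈ s
  · rw [Finset.insert_eq_of_mem h]
    exact Nat.le_add_left _ _
  · rw [Finset.sum_insert h]

theorem e1 (hU : S_UM) (hB : S_B) : S_E1 := by
  classical
  rintro G _ _ p a y Z hp ho h32 hZ ⟨A, j, hy, hj, hI, hG⟩
  have hC := cm_E1 hI
  have ha : 1 ≤ a := Nat.pos_of_ne_zero fun h => by rw [h, pow_zero] at h32; omega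
  obtain ⟨B, x, hBA, hx, hxB, hBy, hAB⟩ := hB G p a y A hp ho ha hy hC
  have jj : j * j = 1 := by rw [← pow_two, hj]
  have ji : j⁻¹ = j := inv_eq_of_mul_eq_one_right jj
  have jA : j ∉ A := fun h => by
    have e : y * y = 1 := by
      have := hI y hy
      rw [Ivt, mul_assoc, hC y hy j h, inv_mul_cancel_left] at this
      exact mul_eq_one_iff_eq_inv.2 this
    have := Nat.le_of_dvd two_pos (orderOf_dvd_of_pow_eq_one ((pow_two y).trans e))
    omega
  have hI' : ∀ b ∈ A, j * b * j = b⁻¹ := fun b hb => by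
    have := hI b hb
    rwa [Ivt, ji] at this
  have tt : j * x * (j * x) = 1 := by rw [← mul_assoc, hI' x hx, inv_mul_cancel]
  have tB : ∀ b ∈ B, j * x * b * (j * x) ∈ B := fun b hb => by
    rw [← mul_assoc, mul_assoc j, hI' _ (A.mul_mem hx (hBA hb)), mul_inv_rev,
      inv_mul_cancel_right]
    exact B.inv_mem hb
  have j0 : ∀ b ∈ (⊥ : Subgroup G), j * b * j ∈ (⊥ : Subgroup G) := fun b hb => by
    rw [mem_bot.1 hb, mul_one, jj]
    exact one_mem _
  set Y := zpowers (y ^ 4) with hY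
  have Yy : Y ≤ zpowers y := zpowers_le.2 (pow_mem (mem_zpowers y) 4)
  have YA : Y ≤ A := Yy.trans (zpowers_le.2 hy)
  have YN : Y.Normal := by
    rw [← normalizer_eq_top_iff, eq_top_iff, ← hG, closure_le]
    rintro g (rfl | hg)
    · refine mem_normalizer_iff.2 fun h => ⟨fun k => ?_, fun k => ?_⟩
      · rw [ji, hI' h (YA k)]
        exact Y.inv_mem k
      · have e := hI' _ (YA k)
        rw [ji, ← mul_assoc, ← mul_assoc, jj, one_mul, mul_assoc, jj, mul_one] at e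
        rw [ji] at k
        rw [e]
        exact Y.inv_mem k
    · refine mem_normalizer_iff.2 fun h => ⟨fun k => ?_, fun k => ?_⟩
      · rwa [hC g hg h (YA k), mul_inv_cancel_right]
      · have hh : h ∈ A := by
          simpa [mul_assoc] using A.mul_mem (A.mul_mem (A.inv_mem hg) (YA k)) hg
        rwa [hC g hg h hh, mul_inv_cancel_right] at k
  set K1 := ext_E1 ⊥ j jj j0 with hK1
  set K2 := ext_E1 B (j * x) tt tB with hK2
  have m1 : ∀ g ∈ K1, g = 1 ∨ g = j := fun g hg => (mem_ext_E1.1 hg).imp mem_bot.1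
    fun h => (eq_inv_of_mul_eq_one_left (mem_bot.1 h)).trans ji
  have d12 : K1 ⊓ K2 = ⊥ := eq_bot_iff.2 fun g hg => (m1 g hg.1).elim mem_bot.2 fun e => by
    rcases mem_ext_E1.1 hg.2 with h | h
    · exact absurd (hBA (e ▸ h)) jA
    · rw [e, ← mul_assoc, jj, one_mul] at h
      exact absurd h hxB
  have d1 : K1 ⊓ Y = ⊥ := eq_bot_iff.2 fun g hg => (m1 g hg.1).elim mem_bot.2 fun e =>
    absurd (YA (e ▸ hg.2)) jA
  have d2 : K2 ⊓ Y = ⊥ := eq_bot_iff.2 fun g hg => by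
    rcases mem_ext_E1.1 hg.1 with h | h
    · exact hBy ▸ mem_inf.2 ⟨h, Yy hg.2⟩
    · refine absurd ?_ jA
      simpa using A.mul_mem (A.mul_mem (A.inv_mem (YA hg.2)) (hBA h)) (A.inv_mem hx)
  have j1 : j ∈ K1 := Or.inr (mem_bot.2 jj)
  have t2 : j * x ∈ K2 := Or.inr (tt ▸ B.one_mem)
  refine (hU.um0 {K1, K2, Y} (Z.image fun z => (Y, z)) ?_ ?_ ?_).mono ?_
  · intro K hK K' hK' hne
    simp only [Finset.mem_insert, Finset.mem_singleton] at hK hK'
    rcases hK with rfl | rfl | rfl <;> rcases hK' with rfl | rfl | rfl <;>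
      first | exact absurd rfl hne | assumption | (rw [inf_comm]; assumption)
  · intro γ hγ
    obtain ⟨z, -, rfl⟩ := Finset.mem_image.1 hγ
    rw [cj_eq_of_normal]
    simp
  · intro φ _ hP hΓ z
    have g0 : ∀ s, Gad Y s φ := fun s => gad_E1 YN
      (fun z hz => hΓ (Y, z) (Finset.mem_image_of_mem _ hz)) s (hZ ▸ mem_top s)
    have f1 : Fixes φ j := fix_E1 d1 (hP K1 (by simp)) j1 (g0 _)
    have f2 : ∀ k ∈ K2, Fixes φ k := fun k hk => fix_E1 d2 (hP K2 (by simp)) hk (g0 _)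
    refine Fixes.closure ?_ z (hG ▸ mem_top z)
    rintro g (rfl | hg)
    · exact f1
    · refine Fixes.closure ?_ g (hAB hg)
      rintro u (rfl | hu)
      · simpa using f1.inv.mul (f2 _ t2)
      · exact f2 u (Or.inl hu)
  · have c1 := half_E1 j1 fun h => jA (h ▸ A.one_mem)
    have c2 := half_E1 t2 fun h => jA (eq_inv_of_mul_eq_one_left h ▸ A.inv_mem hx)
    have c3 : ∑ K ∈ ({K1, K2, Y} : Finset (Subgroup G)), K.index ≤
        K1.index + (K2.index + Y.index) :=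
      (ins_E1 _ _ _).trans (Nat.add_le_add_left ((ins_E1 _ _ _).trans_eq
        (by rw [Finset.sum_singleton])) _)
    have c4 : (Z.image fun z => (Y, z)).card ≤ Z.card := Finset.card_image_le
    have c5 : ∑ γ ∈ Z.image fun z => (Y, z), γ.1.index ≤ Z.card * Y.index :=
      (Finset.sum_le_card_nsmul _ _ Y.index fun γ hγ => by
        obtain ⟨z, -, rfl⟩ := Finset.mem_image.1 hγ
        exact le_rfl).trans (Nat.mul_le_mul_right _ c4)
    have c6 : ({K1, K2, Y} : Finset (Subgroup G)).card ≤ 3 := Finset.card_le_three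
    have c7 : 1 ≤ Y.index := Nat.pos_of_ne_zero Y.index_ne_zero_of_finite
    have c8 : (({K1, K2, Y} : Finset (Subgroup G)).card + (Z.image fun z => (Y, z)).card + 3) ^ 2
        ≤ (Z.card + 6) ^ 2 * Y.index :=
      (Nat.pow_le_pow_left (by omega) 2).trans (Nat.le_mul_of_pos_right _ c7)
    nlinarith [Nat.zero_le (Z.card * Y.index)]

end Pool.Agent.MP_a1dcd4_co.SH

end

section

set_option autoImplicit false

namespace Pool.Agent.MP_a1dcd4_co.SH

open Function Subgroup Pool.Agent.MP_a1dcd4_co.OR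

theorem anti_Low {L : Type} [PartialOrder L] [Finite L] (σ : L ≃o L) (a : L) (h : a ≤ σ a) :
    σ a = a := by
  by_contra hne
  have hlt : a < σ a := lt_of_le_of_ne h (Ne.symm hne)
  have hm : StrictMono fun n : ℕ => σ^[n] a := by
    refine strictMono_nat_of_lt_succ fun n => ?_
    induction n with
    | zero => simpa using hlt
    | succ n ih =>
      rw [iterate_succ_apply' σ (n + 1), iterate_succ_apply' σ n]
      rw [iterate_succ_apply'] at ih
      exact σ.strictMono ih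
  exact not_injective_infinite_finite _ hm.injective

theorem low : S_Low := by
  classical
  intro p G _ x hp h3 hG hR
  obtain ⟨L, _, _, ⟨e⟩, hx⟩ := hR
  refine le_trans ?_ hx
  have hA : Nat.card (L ≃o L) = p := (Nat.card_congr e.toEquiv).trans hG
  have : Fact (Nat.card (L ≃o L)).Prime := ⟨hA ▸ hp⟩
  have : Finite (L ≃o L) := Nat.finite_of_card_ne_zero (hA ▸ hp.ne_zero)
  have inj : ∀ a : L, (∃ σ : L ≃o L, σ a ≠ a) → Injective fun σ : L ≃o L => σ a := by
    rintro a ⟨σ, hσ⟩ τ τ' h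
    rcases (MulAction.stabilizer (L ≃o L) a).eq_bot_or_eq_top_of_prime_card with k | k
    · have : τ⁻¹ * τ' ∈ MulAction.stabilizer (L ≃o L) a := by
        have h' : τ a = τ' a := h
        show τ⁻¹ (τ' a) = a
        rw [← h', RelIso.inv_apply_self]
      rw [k, mem_bot] at this
      exact inv_mul_eq_one.1 this
    · exact (hσ (show σ ∈ MulAction.stabilizer (L ≃o L) a from k ▸ mem_top σ)).elim
  have : Nontrivial (L ≃o L) := Finite.one_lt_card_iff_nontrivial.1 (by omega)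
  obtain ⟨σ, hσ⟩ := exists_ne (1 : L ≃o L)
  obtain ⟨a, ha⟩ : ∃ a, σ a ≠ a := by
    by_contra h
    push Not at h
    exact hσ (RelIso.ext h)
  obtain ⟨m, hm⟩ : ∃ m : L, ∀ b, b ≤ m := by
    have : Nonempty L := ⟨a⟩
    exact Finite.exists_le (fun b : L => b)
  have fm : ∀ τ : L ≃o L, τ m = m := fun τ =>
    le_antisymm (hm _) (by simpa using τ.monotone (hm (τ.symm m)))
  have nm : ∀ (b : L) (τ : L ≃o L), (∃ σ : L ≃o L, σ b ≠ b) → τ b ≠ m := by
    rintro b τ ⟨ρ, hρ⟩ h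
    have : b = m := τ.injective (h.trans (fm τ).symm)
    exact hρ (this ▸ fm ρ)
  by_cases hb : ∃ b, (∃ ρ : L ≃o L, ρ b ≠ b) ∧ ∀ τ : L ≃o L, τ a ≠ b
  · obtain ⟨b, hb1, hb2⟩ := hb
    let f : Option ((L ≃o L) ⊕ (L ≃o L)) → L := fun o =>
      o.elim m (Sum.elim (fun τ => τ a) fun τ => τ b)
    have hab : ∀ τ τ' : L ≃o L, τ a ≠ τ' b := fun τ τ' h =>
      hb2 (τ'⁻¹ * τ) (by
        show τ'⁻¹ (τ a) = b
        rw [h, RelIso.inv_apply_self])
    have hf : Injective f := by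
      rintro (_ | τ | τ) (_ | τ' | τ') h
      · rfl
      · exact (nm a τ' ⟨σ, ha⟩ h.symm).elim
      · exact (nm b τ' hb1 h.symm).elim
      · exact (nm a τ ⟨σ, ha⟩ h).elim
      · rw [inj a ⟨σ, ha⟩ h]
      · exact (hab _ _ h).elim
      · exact (nm b τ hb1 h).elim
      · exact (hab _ _ h.symm).elim
      · rw [inj b hb1 h]
    have := Nat.card_le_card_of_injective f hf
    rw [Finite.card_option, Nat.card_sum, hA] at this
    omega
  · exfalso
    push Not at hb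
    have cmp : ∀ c : L, c ≠ a → c ≠ σ a →
        (c ≤ a ↔ c ≤ σ a) ∧ (a ≤ c ↔ σ a ≤ c) := by
      intro c h1 h2
      by_cases hc : ∃ ρ : L ≃o L, ρ c ≠ c
      · obtain ⟨τ, rfl⟩ := hb c hc
        have k : ∀ ρ ρ' : L ≃o L, ρ a ≤ ρ' a → ρ a = ρ' a := by
          intro ρ ρ' h
          have := anti_Low (ρ' * ρ⁻¹) (ρ a) (by
            show ρ a ≤ ρ' (ρ⁻¹ (ρ a))
            rwa [RelIso.inv_apply_self])
          rw [← this]
          show ρ' (ρ⁻¹ (ρ a)) = ρ' a
          rw [RelIso.inv_apply_self]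
        exact ⟨iff_of_false (fun h => h1 (k τ 1 h)) fun h => h2 (k τ σ h),
          iff_of_false (fun h => h1 (k 1 τ h).symm) fun h => h2 (k σ τ h).symm⟩
      · push Not at hc
        constructor
        · conv_rhs => rw [← hc σ]
          exact σ.le_iff_le.symm
        · conv_rhs => rw [← hc σ]
          exact σ.le_iff_le.symm
    have n1 : ¬ a ≤ σ a := fun h => ha (anti_Low σ a h)
    have n2 : ¬ σ a ≤ a := fun h => ha (by
      have := anti_Low σ⁻¹ (σ a) (by rwa [RelIso.inv_apply_self])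
      rw [RelIso.inv_apply_self] at this
      exact this.symm)
    let s : L ≃o L := ⟨Equiv.swap a (σ a), by
      intro u v
      by_cases u1 : u = a <;> by_cases u2 : u = σ a <;> by_cases v1 : v = a <;>
        by_cases v2 : v = σ a <;>
        first
          | exact (ha (u2.symm.trans u1)).elim
          | exact (ha (v2.symm.trans v1)).elim
          | simp [Equiv.swap_apply_def, u1, u2, v1, v2, n1, n2, cmp u, cmp v]⟩
    have s2 : s ^ 2 = 1 := RelIso.ext fun u => by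
      show Equiv.swap a (σ a) (Equiv.swap a (σ a) u) = u
      simp
    have s1 : s ≠ 1 := fun h => ha (by
      have : s a = a := by rw [h]; rfl
      have e : s a = σ a := Equiv.swap_apply_left _ _
      rw [← e, this])
    have := orderOf_dvd_natCard s
    rw [orderOf_eq_prime s2 s1, hA, Nat.prime_dvd_prime_iff_eq Nat.prime_two hp] at this
    omega

end Pool.Agent.MP_a1dcd4_co.SH

end

section

set_option autoImplicit false

namespace Pool.Agent.MP_a1dcd4_co.SH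

open Function Subgroup Pool.Agent.MP_a1dcd4_co.OR

/-- an elementary abelian subgroup of maximal order -/
theorem maxEa_Syl (G : Type) [Group G] [Finite G] (p : ℕ) (hp : p.Prime) :
    ∃ (E : Subgroup G) (r : ℕ), Ea p E ∧ Nat.card E = p ^ r ∧
      ∀ E' : Subgroup G, Ea p E' → Nat.card E' ≤ p ^ r := by
  have : Fact p.Prime := ⟨hp⟩
  have hb : Ea p (⊥ : Subgroup G) := by
    refine ⟨fun x hx y hy => ?_, fun x hx => ?_⟩
    · rw [mem_bot.1 hx, mem_bot.1 hy]
    · rw [mem_bot.1 hx, one_pow]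
  obtain ⟨E, hE, hmax⟩ := Set.exists_max_image {E : Subgroup G | Ea p E}
    (fun E => Nat.card E) (Set.toFinite _) ⟨⊥, hb⟩
  have hP : IsPGroup p E := fun g => ⟨1, Subtype.ext (by
    rw [pow_one]
    exact hE.2 g g.2)⟩
  obtain ⟨r, hr⟩ := IsPGroup.iff_card.1 hP
  exact ⟨E, r, hE, hr, fun E' h' => hr ▸ hmax E' h'⟩

/-- the data at one prime -/
theorem one_Syl (G : Type) [Group G] [Finite G] (p : ℕ) :
    ∃ (r : ℕ) (E : Subgroup G) (Y : Finset G), p.Prime →
      (Ea p E ∧ Nat.card E = p ^ r ∧ Y.card ≤ 4 * r ^ 2 ∧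
        ∀ E' : Subgroup G, Ea p E' → Nat.card E' ≤ p ^ r) ∧
      ∀ H : Subgroup G, (∀ s ∈ Y, s ∈ H) → ¬ p ∣ H.index := by
  classical
  by_cases hp : p.Prime
  swap
  · exact ⟨0, ⊥, ∅, fun h => absurd h hp⟩
  have : Fact p.Prime := ⟨hp⟩
  obtain ⟨E, r, hE, hr, hmax⟩ := maxEa_Syl G p hp
  let P : Sylow p G := default
  obtain ⟨E0, r0, Y0, c1, c2, c3, c4, c5⟩ := rank_bound (Q := (P : Subgroup G)) P.isPGroup'
  have hE0 : Ea p (E0.map (P : Subgroup G).subtype) := by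
    refine ⟨?_, ?_⟩
    · rintro _ ⟨x, hx, rfl⟩ _ ⟨y, hy, rfl⟩
      rw [← map_mul, ← map_mul, c1 x hx y hy]
    · rintro _ ⟨x, hx, rfl⟩
      rw [← map_pow, c2 x hx, map_one]
  have hc : Nat.card (E0.map (P : Subgroup G).subtype) = p ^ r0 := by
    rw [← c3]
    exact (Nat.card_congr (E0.equivMapOfInjective _ (subtype_injective _)).toEquiv).symm
  have hle : r0 ≤ r := by
    have := hmax _ hE0
    rw [hc] at this
    exact (Nat.pow_le_pow_iff_right hp.one_lt).1 this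
  refine ⟨r, E, Y0.image (P : Subgroup G).subtype, fun _ => ⟨⟨hE, hr, ?_, hmax⟩, ?_⟩⟩
  · refine Finset.card_image_le.trans (c4.trans ?_)
    exact Nat.mul_le_mul_left 4 (Nat.pow_le_pow_left hle 2)
  · intro H hH hd
    have hPH : (P : Subgroup G) ≤ H := by
      intro x hx
      have h1 : (⊤ : Subgroup (P : Subgroup G)) ≤ H.comap (P : Subgroup G).subtype := by
        rw [← c5, closure_le]
        intro y hy
        exact hH _ (Finset.mem_image_of_mem _ hy)
      exact h1 (mem_top ⟨x, hx⟩)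
    exact P.not_dvd_index (hd.trans (index_dvd_of_le hPH))

theorem syl : S_Syl := by
  intro G _ _
  choose r E Y h using one_Syl G
  refine ⟨r, E, Y, ?_, fun p hp => (h p hp).1⟩
  set H := closure {s | ∃ p ∈ (Nat.card G).primeFactors, s ∈ Y p} with hH
  by_contra hne
  obtain ⟨p, hp, hd⟩ := Nat.exists_prime_and_dvd (fun e => hne (index_eq_one.1 e))
  have hm : p ∈ (Nat.card G).primeFactors :=
    Nat.mem_primeFactors.2 ⟨hp, hd.trans H.index_dvd_card, Nat.card_pos.ne'⟩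
  exact (h p hp).2 H (fun s hs => subset_closure ⟨p, hm, hs⟩) hd

end Pool.Agent.MP_a1dcd4_co.SH

end

section

/-!
One subgroup of order `p ^ k` that avoids a small set and is normalised by `s` or meets its
conjugate trivially.
-/

set_option autoImplicit false

namespace Pool.Agent.MP_a1dcd4_co.SH

open Function Subgroup Pool.Agent.MP_a1dcd4_co.OR

section

variable {G : Type} [Group G]

theorem root_TI1 {p i : ℕ} (hp : p.Prime) (h0 : 0 < i) (hi : i < p) :
    ∃ m : ℕ, ∀ v : G, v ^ p = 1 → (v ^ i) ^ m = v := by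
  obtain ⟨m, -, hm⟩ := Nat.exists_mul_mod_eq_one_of_coprime
    (Nat.coprime_of_lt_prime h0.ne' hi hp).symm hp.one_lt
  refine ⟨m, fun v hv => ?_⟩
  rw [← pow_mul, pow_eq_pow_mod _ hv, hm, pow_one]

theorem cardfs_TI1 [Finite G] (L : Subgroup G) :
    (Set.toFinite (L : Set G)).toFinset.card = Nat.card L := by
  rw [← Set.ncard_eq_toFinset_card (L : Set G)]
  rfl

theorem pig_TI1 [Finite G] {ι κ : Type} (D : Subgroup G) (I : Finset ι) (J : Finset κ)
    (R : ι → G → Prop) (Q : κ → G → Prop) (c d : ℕ)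
    (hR : ∀ i ∈ I, {v | v ∈ D ∧ R i v}.ncard ≤ c) (hQ : ∀ j ∈ J, {v | v ∈ D ∧ Q j v}.ncard ≤ d)
    (h : I.card * c + J.card * d < Nat.card D) :
    ∃ v ∈ D, (∀ i ∈ I, ¬ R i v) ∧ ∀ j ∈ J, ¬ Q j v := by
  classical
  by_contra hc
  have hs : (Set.toFinite (D : Set G)).toFinset ⊆
      (I.biUnion fun i => (Set.toFinite {v | v ∈ D ∧ R i v}).toFinset) ∪
        J.biUnion fun j => (Set.toFinite {v | v ∈ D ∧ Q j v}).toFinset := by
    intro v hv
    have hv : v ∈ D := (Set.Finite.mem_toFinset _).1 hv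
    by_contra hn
    refine hc ⟨v, hv, fun i hi r => hn ?_, fun j hj r => hn ?_⟩
    · exact Finset.mem_union_left _
        (Finset.mem_biUnion.2 ⟨i, hi, (Set.Finite.mem_toFinset _).2 ⟨hv, r⟩⟩)
    · exact Finset.mem_union_right _
        (Finset.mem_biUnion.2 ⟨j, hj, (Set.Finite.mem_toFinset _).2 ⟨hv, r⟩⟩)
  have h1 := (Finset.card_le_card hs).trans (Finset.card_union_le _ _)
  rw [cardfs_TI1] at h1
  refine absurd (h1.trans (Nat.add_le_add
    (Finset.card_biUnion_le_card_mul _ _ c fun i hi => ?_)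
    (Finset.card_biUnion_le_card_mul _ _ d fun j hj => ?_))) (not_le.2 h)
  · rw [← Set.ncard_eq_toFinset_card]
    exact hR i hi
  · rw [← Set.ncard_eq_toFinset_card]
    exact hQ j hj

theorem step_TI1 {p : ℕ} (hp : p.Prime) {D W : Subgroup G} (hD : Ea p D) (hW : W ≤ D) {v : G}
    (hv : v ∈ D) (hn : v ∉ W) : ∃ W' : Subgroup G, W' ≤ D ∧ Nat.card W' = Nat.card W * p ∧
      ∀ x ∈ W', ∃ w ∈ W, ∃ i < p, x = w * v ^ i := by
  have hvp := hD.2 v hv
  have hcm : ∀ w ∈ W, ∀ i : ℕ, v ^ i * w = w * v ^ i := fun w hw i =>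
    hD.1 _ (D.pow_mem hv i) w (hW hw)
  let W' : Subgroup G :=
    { carrier := {x | ∃ w ∈ W, ∃ i : ℕ, x = w * v ^ i}
      one_mem' := ⟨1, W.one_mem, 0, by simp⟩
      mul_mem' := by
        rintro _ _ ⟨w, hw, i, rfl⟩ ⟨w', hw', j, rfl⟩
        refine ⟨w * w', W.mul_mem hw hw', i + j, ?_⟩
        rw [pow_add, mul_assoc, ← mul_assoc (v ^ i), hcm w' hw', mul_assoc, mul_assoc]
      inv_mem' := by
        rintro _ ⟨w, hw, i, rfl⟩
        refine ⟨w⁻¹, W.inv_mem hw, (p - 1) * i, ?_⟩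
        rw [← hcm w hw, mul_inv_rev]
        congr 1
        rw [inv_eq_iff_mul_eq_one, ← pow_add]
        have : i + (p - 1) * i = p * i := by
          obtain ⟨q, rfl⟩ := Nat.exists_eq_add_of_le' hp.one_le
          simp only [Nat.add_sub_cancel]
          ring
        rw [this, pow_mul, hvp, one_pow] }
  have hm : ∀ x ∈ W', ∃ w ∈ W, ∃ i < p, x = w * v ^ i := by
    rintro _ ⟨w, hw, i, rfl⟩
    exact ⟨w, hw, i % p, Nat.mod_lt _ hp.pos, by rw [← pow_eq_pow_mod _ hvp]⟩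
  have hlt : ∀ w ∈ W, ∀ w' ∈ W, ∀ i j : ℕ, i < j → j < p → w * v ^ i ≠ w' * v ^ j := by
    intro w hw w' hw' i j hij hj e
    obtain ⟨d, rfl⟩ := Nat.exists_eq_add_of_le' hij.le
    obtain ⟨m, hm⟩ := root_TI1 (G := G) hp (i := d) (by omega) (by omega)
    rw [pow_add, ← mul_assoc, mul_left_inj] at e
    have : v ^ d = w'⁻¹ * w := by rw [e, inv_mul_cancel_left]
    exact hn (hm v hvp ▸ W.pow_mem (this ▸ W.mul_mem (W.inv_mem hw') hw) m)
  refine ⟨W', ?_, ?_, hm⟩
  · rintro _ ⟨w, hw, i, rfl⟩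
    exact D.mul_mem (hW hw) (D.pow_mem hv i)
  · have hb : Bijective fun y : W × Fin p => (⟨y.1 * v ^ y.2.1, y.1, y.1.2, y.2.1, rfl⟩ : W') := by
      constructor
      · rintro ⟨⟨w, hw⟩, i, hi⟩ ⟨⟨w', hw'⟩, j, hj⟩ e
        have e : w * v ^ i = w' * v ^ j := congrArg Subtype.val e
        rcases lt_trichotomy i j with h | rfl | h
        · exact absurd e (hlt w hw w' hw' i j h hj)
        · obtain rfl := mul_right_cancel e
          rfl
        · exact absurd e.symm (hlt w' hw' w hw j i h hi)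
      · rintro ⟨x, hx⟩
        obtain ⟨w, hw, i, hi, rfl⟩ := hm x hx
        exact ⟨(⟨w, hw⟩, ⟨i, hi⟩), rfl⟩
    rw [← Nat.card_eq_of_bijective _ hb, Nat.card_prod, Nat.card_eq_fintype_card (α := Fin p),
      Fintype.card_fin]

theorem greedy_TI1 [Finite G] {p k β η : ℕ} (hp : p.Prime) {D : Subgroup G} (hD : Ea p D) (s : G)
    (B : Finset G) (hB : B.card ≤ β) (t : Prop)
    (h2 : ∀ w w' : G, ∀ i < p, ∀ i' < p, {v | v ∈ D ∧ (t ∧ ¬ (i = 0 ∧ i' = 0) ∧
      s * (w * v ^ i) * s⁻¹ = w' * v ^ i')}.ncard ≤ η)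
    (hc : p ^ k * (β + 1) + p ^ k * p ^ k * η < Nat.card D) (j : ℕ) (hj : j ≤ k) :
    ∃ W : Subgroup G, W ≤ D ∧ Nat.card W = p ^ j ∧ (∀ x ∈ W, x ∈ B → x = 1) ∧
      (t → W ⊓ cj W s = ⊥) := by
  classical
  induction j with
  | zero => exact ⟨⊥, bot_le, by simp, fun x hx _ => mem_bot.1 hx, fun _ => by simp⟩
  | succ j ih =>
    obtain ⟨W, w1, w2, w3, w4⟩ := ih (by omega)
    let P : Finset (G × ℕ) := (Set.toFinite (W : Set G)).toFinset ×ˢ Finset.range p
    have hP : P.card ≤ p ^ k := by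
      rw [Finset.card_product, cardfs_TI1, w2, Finset.card_range, ← pow_succ]
      exact Nat.pow_le_pow_right hp.pos hj
    have mP : ∀ w i, (w, i) ∈ P ↔ w ∈ W ∧ i < p := fun w i => by
      simp [P]
    obtain ⟨v, hv, b1, b2⟩ := pig_TI1 D (P ×ˢ insert 1 B) (P ×ˢ P)
      (fun y v => 0 < y.1.2 ∧ y.1.1 * v ^ y.1.2 = y.2)
      (fun y v => t ∧ ¬ (y.1.2 = 0 ∧ y.2.2 = 0) ∧
        s * (y.1.1 * v ^ y.1.2) * s⁻¹ = y.2.1 * v ^ y.2.2) 1 η
      (by
        rintro ⟨⟨w, i⟩, b⟩ hy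
        have hi := ((mP w i).1 (Finset.mem_product.1 hy).1).2
        refine (Set.ncard_le_one (Set.toFinite _)).2 ?_
        rintro x ⟨hx, h0, e⟩ x' ⟨hx', -, e'⟩
        obtain ⟨m, hm⟩ := root_TI1 (G := G) hp h0 hi
        have e2 : x ^ i = x' ^ i := mul_left_cancel (e.trans e'.symm)
        rw [← hm x (hD.2 x hx), e2, hm x' (hD.2 x' hx')])
      (by
        rintro ⟨⟨w, i⟩, w', i'⟩ hy
        exact h2 w w' i ((mP w i).1 (Finset.mem_product.1 hy).1).2 i'
          ((mP w' i').1 (Finset.mem_product.1 hy).2).2)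
      (by
        refine lt_of_le_of_lt ?_ hc
        rw [Finset.card_product P, Finset.card_product P, mul_one]
        have : (insert 1 B).card ≤ β + 1 := (Finset.card_insert_le _ _).trans (by omega)
        gcongr)
    have hn : v ∉ W := fun h => b1 ((v⁻¹, 1), 1) (Finset.mem_product.2
      ⟨(mP _ _).2 ⟨W.inv_mem h, hp.one_lt⟩, Finset.mem_insert_self _ _⟩) ⟨one_pos, by simp⟩
    obtain ⟨W', a1, a2, a3⟩ := step_TI1 hp hD w1 hv hn
    refine ⟨W', a1, by rw [a2, w2, pow_succ], fun x hx hb => ?_, fun ht => ?_⟩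
    · obtain ⟨w, hw, i, hi, rfl⟩ := a3 x hx
      rcases Nat.eq_zero_or_pos i with rfl | h0
      · rw [pow_zero, mul_one] at hb ⊢
        exact w3 w hw hb
      · exact absurd ⟨h0, rfl⟩ (b1 ((w, i), w * v ^ i) (Finset.mem_product.2
          ⟨(mP _ _).2 ⟨hw, hi⟩, Finset.mem_insert_of_mem hb⟩))
    · rw [eq_bot_iff]
      rintro x ⟨hx, hx'⟩
      obtain ⟨w, hw, i, hi, rfl⟩ := a3 x hx
      obtain ⟨w', hw', i', hi', e⟩ := a3 _ (mem_cj.1 hx')
      by_cases h0 : i = 0 ∧ i' = 0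
      · obtain ⟨rfl, rfl⟩ := h0
        rw [pow_zero, mul_one, mul_one] at e
        rw [pow_zero, mul_one, ← w4 ht]
        exact ⟨hw, mem_cj.2 (e ▸ hw')⟩
      · exact absurd ⟨ht, h0, e⟩ (b2 ((w, i), w', i') (Finset.mem_product.2
          ⟨(mP _ _).2 ⟨hw, hi⟩, (mP _ _).2 ⟨hw', hi'⟩⟩))

theorem eig_TI1 {E : Subgroup G} (hE : Cm E) (s : G) (a : ℕ) :
    ∃ D : Subgroup G, ∀ v, v ∈ D ↔ v ∈ E ∧ s * v * s⁻¹ = v ^ a := by
  refine ⟨{ carrier := {v | v ∈ E ∧ s * v * s⁻¹ = v ^ a}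
            one_mem' := ⟨E.one_mem, by simp⟩
            mul_mem' := ?_
            inv_mem' := ?_ }, fun _ => Iff.rfl⟩
  · rintro x y ⟨hx, e⟩ ⟨hy, e'⟩
    refine ⟨E.mul_mem hx hy, ?_⟩
    rw [Commute.mul_pow (hE x hx y hy), ← e, ← e']
    group
  · rintro x ⟨hx, e⟩
    refine ⟨E.inv_mem hx, ?_⟩
    rw [inv_pow, ← e]
    group

theorem sol_TI1 {p i i' : ℕ} (hp : p.Prime) (hi : i < p) (hi' : i' < p)
    (h0 : ¬ (i = 0 ∧ i' = 0)) (s : G) :
    ∃ a : ℕ, ∀ e : G, e ^ p = 1 → s * e ^ i * s⁻¹ = e ^ i' → s * e * s⁻¹ = e ^ a := by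
  rcases Nat.eq_zero_or_pos i with rfl | h
  · obtain ⟨m, hm⟩ := root_TI1 (G := G) hp (i := i') (by omega) hi'
    refine ⟨1, fun e he h => ?_⟩
    have : e = 1 := by
      rw [← hm e he, ← h]
      simp
    simp [this]
  · obtain ⟨m, hm⟩ := root_TI1 (G := G) hp h hi
    refine ⟨i' * m, fun e he h => ?_⟩
    rw [pow_mul, ← h, conj_pow, hm e he]

end

theorem ti1 : S_TI1 := by
  intro G _ _ p k β E s B hp hE hB hc
  choose D hD using eig_TI1 hE.1 s
  have hDE : ∀ a, D a ≤ E := fun a v hv => ((hD a v).1 hv).1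
  by_cases h : ∃ a, p ^ k * (β + 1) < Nat.card (D a)
  · obtain ⟨a, ha⟩ := h
    obtain ⟨W, w1, w2, w3, -⟩ := greedy_TI1 (k := k) (η := 0) hp (D := D a)
      ⟨fun x hx y hy => hE.1 x (hDE a hx) y (hDE a hy), fun x hx => hE.2 x (hDE a hx)⟩ s B hB False
      (fun _ _ _ _ _ _ => by simp) (by simpa using ha) k le_rfl
    refine ⟨W, w1.trans (hDE a), w2, w3, Or.inl (eq_of_le_of_card_ge (fun x hx => ?_)
      (card_cj W s).le).symm⟩
    rw [mem_cj, ((hD a x).1 (w1 hx)).2]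
    exact W.pow_mem hx a
  · have h' : ∀ a, Nat.card (D a) ≤ p ^ k * (β + 1) := fun a => not_lt.1 fun e => h ⟨a, e⟩
    obtain ⟨W, w1, w2, w3, w4⟩ := greedy_TI1 (k := k) (η := p ^ k * (β + 1)) hp hE s B hB True
      (fun w w' i hi i' hi' => by
        rcases Set.eq_empty_or_nonempty {v | v ∈ E ∧ (True ∧ ¬ (i = 0 ∧ i' = 0) ∧
          s * (w * v ^ i) * s⁻¹ = w' * v ^ i')} with e | ⟨u, hu, -, h0, eu⟩
        · rw [e, Set.ncard_empty]
          exact Nat.zero_le _
        obtain ⟨a, ha⟩ := sol_TI1 hp hi hi' h0 s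
        refine le_trans (Set.ncard_le_ncard_of_injOn (t := (D a : Set G)) (fun v => u⁻¹ * v) ?_
          (fun _ _ _ _ e => mul_left_cancel e)) (h' a)
        rintro v ⟨hv, -, -, ev⟩
        have hm := E.mul_mem (E.inv_mem hu) hv
        refine (hD a _).2 ⟨hm, ha _ (hE.2 _ hm) ?_⟩
        have hc : Commute u⁻¹ v := hE.1 _ (E.inv_mem hu) v hv
        rw [hc.mul_pow, hc.mul_pow, inv_pow, inv_pow]
        calc s * ((u ^ i)⁻¹ * v ^ i) * s⁻¹
            = (s * (w * u ^ i) * s⁻¹)⁻¹ * (s * (w * v ^ i) * s⁻¹) := by group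
          _ = _ := by rw [eu, ev]; group)
      (by
        refine lt_of_lt_of_le ?_ hc
        have h1 : 1 ≤ p ^ k * p ^ k := Nat.one_le_iff_ne_zero.2 (by have := hp.pos; positivity)
        have h2 : 0 < p ^ k * (β + 1) := by have := hp.pos; positivity
        have h3 : 1 < p ^ 3 := Nat.one_lt_pow (by norm_num) hp.one_lt
        have h4 : 0 < p ^ k * p ^ k * (p ^ k * (β + 1)) := Nat.mul_pos h1 h2
        calc p ^ k * (β + 1) + p ^ k * p ^ k * (p ^ k * (β + 1))
            ≤ 2 * (p ^ k * p ^ k * (p ^ k * (β + 1))) * 1 := by nlinarith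
          _ < 2 * (p ^ k * p ^ k * (p ^ k * (β + 1))) * p ^ 3 :=
            Nat.mul_lt_mul_of_pos_left h3 (by omega)
          _ = _ := by ring) k le_rfl
    exact ⟨W, w1, w2, w3, Or.inr (w4 trivial)⟩

end Pool.Agent.MP_a1dcd4_co.SH

end

section

set_option autoImplicit false
set_option linter.style.haveILetI false

namespace Pool.Agent.MP_a1dcd4_co.SH

open Function Subgroup Pool.Agent.MP_a1dcd4_co.OR

theorem top (hC : S_Cheap) (hB : S_Big) (hR : S_BR) : S_Top := by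
  intro N
  obtain ⟨D, T, hC⟩ := hC
  obtain ⟨T1, hR⟩ := hR D N
  obtain ⟨n₀, hB⟩ := hB (T + T1 + T1 ^ 256 + 2)
  refine ⟨n₀ + 48, fun G _ _ hn => ?_⟩
  rcases hC G (by omega) with h | ⟨Z, h1, h2, h3⟩
  · exact ⟨_, h, by nlinarith⟩
  obtain ⟨p, hp, ⟨x, k, hx, hk⟩ | ⟨E, hE, hk⟩⟩ := hB G (by omega)
  · exact hR G p k x Z h1 h2 hp hx (by omega)
  have h4 : Nat.card E ≤ p ^ 256 := (h3 p E hp hE).resolve_left (by omega)
  have h5 : T1 ≤ p := by
    by_contra h
    have := Nat.pow_le_pow_left (show p ≤ T1 by omega) 256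
    omega
  have h6 : E ≠ ⊥ := by
    rintro rfl
    rw [Subgroup.card_bot] at hk
    omega
  obtain ⟨⟨x, hx⟩, hx1⟩ := (Subgroup.ne_bot_iff_exists_ne_one).1 h6
  haveI : Fact p.Prime := ⟨hp⟩
  refine hR G p 1 x Z h1 h2 hp ?_ (by rwa [pow_one])
  rw [pow_one]
  exact orderOf_eq_prime (hE.2 x hx) fun e => hx1 (Subtype.ext e)

theorem final (hT : S_Top) (hL : S_Low) (c : ℝ) :
    (∃ n₀ : ℕ, ∀ (G : Type) [Group G] [Finite G], n₀ ≤ Nat.card G →
      ∃ (L : Type) (_ : Lattice L) (_ : Finite L), Nonempty ((L ≃o L) ≃* G) ∧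
        (Nat.card L : ℝ) ≤ c * Nat.card G) ↔ 2 < c := by
  constructor
  · rintro ⟨n₀, h⟩
    obtain ⟨p, hp1, hp⟩ := Nat.exists_infinite_primes (n₀ + 3)
    haveI : Fact p.Prime := ⟨hp⟩
    have hc : Nat.card (Multiplicative (ZMod p)) = p := by
      rw [Nat.card_congr Multiplicative.toAdd, Nat.card_zmod]
    obtain ⟨L, i1, i2, h1, h2⟩ := h (Multiplicative (ZMod p)) (by omega)
    have h3 := hL p (Multiplicative (ZMod p)) (Nat.card L) hp (by omega) hc
      ⟨L, i1, i2, h1, le_rfl⟩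
    rw [hc] at h2
    have h4 : (2 * p + 1 : ℝ) ≤ Nat.card L := by exact_mod_cast h3
    have h5 : (0 : ℝ) < p := by exact_mod_cast hp.pos
    by_contra h6
    nlinarith
  · intro hc
    obtain ⟨N, hN⟩ := exists_nat_gt (1 / (c - 2))
    have h0 : 0 < c - 2 := by linarith
    have h1 : (0 : ℝ) < N := lt_trans (by positivity) hN
    rw [div_lt_iff₀ h0] at hN
    obtain ⟨n₀, h⟩ := hT N
    refine ⟨n₀, fun G _ _ hn => ?_⟩
    obtain ⟨x, ⟨L, i1, i2, h2, h3⟩, h4⟩ := h G hn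
    refine ⟨L, i1, i2, h2, ?_⟩
    have h5 : (Nat.card L : ℝ) ≤ x := by exact_mod_cast h3
    have h6 : (N : ℝ) * x ≤ (2 * N + 1) * Nat.card G := by exact_mod_cast h4
    have h7 : (0 : ℝ) ≤ Nat.card G := Nat.cast_nonneg _
    refine le_of_mul_le_mul_left ?_ h1
    nlinarith

end Pool.Agent.MP_a1dcd4_co.SH

end
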